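import Pool.Agent.HCV.Dir

/-!
# The checker

All numbers are natural numbers; a point with coordinates `x`, `y` is `pt x y`. Lists of points are packed in one
natural number, 64 bits for each point.
-/

set_option autoImplicit false

namespace HCV

/-- a point with natural coordinates -/
def pt (x y : ℕ) : P2 := ((x : ℝ), (y : ℝ))

/-- evaluate the argument first -/
noncomputable def force {α : Type} (n : ℕ) (f : ℕ → α) : α := Nat.rec (f 0) (fun k _ => f (Nat.succ k)) n

theorem force_eq {α : Type} (n : ℕ) (f : ℕ → α) : force n f = f n := by cases n <;> rfl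

noncomputable def band (a b : Bool) : Bool := Bool.rec false b a

theorem band_iff (a b : Bool) : band a b = true ↔ a = true ∧ b = true := by cases a <;> simp [band]

/-- orientation of three points, weak -/
noncomputable def ge0 (ax ay bx bY cx cy : ℕ) : Bool :=
  Nat.ble (Nat.add (Nat.add (Nat.mul ay bx) (Nat.mul bY cx)) (Nat.mul cy ax))
    (Nat.add (Nat.add (Nat.mul ax bY) (Nat.mul bx cy)) (Nat.mul cx ay))

/-- orientation of three points, strict -/
noncomputable def gt0 (ax ay bx bY cx cy : ℕ) : Bool :=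
  Nat.ble (Nat.succ (Nat.add (Nat.add (Nat.mul ay bx) (Nat.mul bY cx)) (Nat.mul cy ax)))
    (Nat.add (Nat.add (Nat.mul ax bY) (Nat.mul bx cy)) (Nat.mul cx ay))

theorem ge0_sound {ax ay bx bY cx cy : ℕ} (h : ge0 ax ay bx bY cx cy = true) :
    0 ≤ cr (pt bx bY - pt ax ay) (pt cx cy - pt ax ay) := by
  have h1 := Nat.le_of_ble_eq_true h
  have h2 : ((ay * bx + bY * cx + cy * ax : ℕ) : ℝ) ≤ ((ax * bY + bx * cy + cx * ay : ℕ) : ℝ) := by exact_mod_cast h1
  push_cast at h2
  simp only [cr, pt, Prod.fst_sub, Prod.snd_sub]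
  linarith

theorem gt0_sound {ax ay bx bY cx cy : ℕ} (h : gt0 ax ay bx bY cx cy = true) :
    0 < cr (pt bx bY - pt ax ay) (pt cx cy - pt ax ay) := by
  have h1 := Nat.le_of_ble_eq_true h
  have h2 : ((ay * bx + bY * cx + cy * ax : ℕ) : ℝ) < ((ax * bY + bx * cy + cx * ay : ℕ) : ℝ) := by
    exact_mod_cast Nat.lt_of_succ_le h1
  push_cast at h2
  simp only [cr, pt, Prod.fst_sub, Prod.snd_sub]
  linarith

/-- coordinates of the point with index `i` -/
def gx (L i : ℕ) : ℕ := Nat.mod (Nat.mod (Nat.shiftRight L (Nat.mul 64 (Nat.mod i 64))) 18446744073709551616) 4294967296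

def gy (L i : ℕ) : ℕ := Nat.shiftRight (Nat.mod (Nat.shiftRight L (Nat.mul 64 (Nat.mod i 64))) 18446744073709551616) 32

noncomputable def get (L i : ℕ) (f : ℕ → ℕ → Bool) : Bool :=
  force (Nat.mod (Nat.shiftRight L (Nat.mul 64 (Nat.mod i 64))) 18446744073709551616) fun c =>
    force (Nat.mod c 4294967296) fun x => force (Nat.shiftRight c 32) fun y => f x y

theorem get_eq (L i : ℕ) (f : ℕ → ℕ → Bool) : get L i f = f (gx L i) (gy L i) := by
  simp only [get, force_eq, gx, gy]

/-- `C` contains the points of the list `L` -/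
def HIn (C : Set P2) (L : ℕ) : Prop := ∀ i, pt (gx L i) (gy L i) ∈ C

/-- the points of the list `L` are not in the interior of `C` -/
def HOut (C : Set P2) (L : ℕ) : Prop := ∀ i, Out C (pt (gx L i) (gy L i))

noncomputable def push (L x y : ℕ) : ℕ := Nat.add (Nat.mul L 18446744073709551616) (Nat.add (Nat.mul y 4294967296) x)

theorem aux_div (L r j : ℕ) (hr : r < 18446744073709551616) :
    (L * 18446744073709551616 + r) / 2 ^ (64 * (j + 1)) = L / 2 ^ (64 * j) := by
  have e3 : 2 ^ (64 * (j + 1)) = 2 ^ 64 * 2 ^ (64 * j) := by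
    rw [← pow_add]; congr 1; omega
  have e5 : (L * 18446744073709551616 + r) / 2 ^ 64 = L := by omega
  rw [e3, ← Nat.div_div_eq_div_mul, e5]

theorem push_zero {L x y i : ℕ} (hx : x < 4294967296) (hy : y < 4294967296) (hi : i % 64 = 0) :
    gx (push L x y) i = x ∧ gy (push L x y) i = y := by
  have e0 : Nat.mod i 64 = 0 := hi
  have e1 : Nat.shiftRight (push L x y) (Nat.mul 64 0) = push L x y := rfl
  have e2 : Nat.mod (push L x y) 18446744073709551616 = y * 4294967296 + x := by
    change (L * 18446744073709551616 + (y * 4294967296 + x)) % 18446744073709551616 = _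
    omega
  refine ⟨?_, ?_⟩
  · rw [gx, e0, e1, e2]
    change (y * 4294967296 + x) % 4294967296 = x
    omega
  · rw [gy, e0, e1, e2]
    change (y * 4294967296 + x) >>> 32 = y
    rw [Nat.shiftRight_eq_div_pow]
    norm_num
    omega

theorem push_succ {L x y i j : ℕ} (hx : x < 4294967296) (hy : y < 4294967296) (hi : i % 64 = j + 1) :
    gx (push L x y) i = gx L j ∧ gy (push L x y) i = gy L j := by
  have hj : j < 64 := by omega
  have e0 : Nat.mod i 64 = j + 1 := hi
  have e0' : Nat.mod j 64 = j := Nat.mod_eq_of_lt hj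
  have e1 : Nat.shiftRight (push L x y) (Nat.mul 64 (j + 1)) = Nat.shiftRight L (Nat.mul 64 j) := by
    have ed : push L x y = L * 18446744073709551616 + (y * 4294967296 + x) := rfl
    rw [ed, Nat.shiftRight_eq, Nat.shiftRight_eq, Nat.mul_eq, Nat.mul_eq, Nat.shiftRight_eq_div_pow,
      Nat.shiftRight_eq_div_pow]
    exact aux_div L _ j (by omega)
  constructor
  · simp only [gx, e0, e1, e0']
  · simp only [gy, e0, e1, e0']

theorem hin_push {C : Set P2} {L x y : ℕ} (h : HIn C L) (hx : x < 4294967296) (hy : y < 4294967296)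
    (hp : pt x y ∈ C) : HIn C (push L x y) := by
  intro i
  rcases Nat.eq_zero_or_pos (i % 64) with h0 | h0
  · rw [(push_zero hx hy h0).1, (push_zero hx hy h0).2]
    exact hp
  · obtain ⟨j, hj⟩ : ∃ j, i % 64 = j + 1 := ⟨i % 64 - 1, by omega⟩
    rw [(push_succ hx hy hj).1, (push_succ hx hy hj).2]
    exact h j

theorem hout_push {C : Set P2} {L x y : ℕ} (h : HOut C L) (hx : x < 4294967296) (hy : y < 4294967296)
    (hp : Out C (pt x y)) : HOut C (push L x y) := by
  intro i
  rcases Nat.eq_zero_or_pos (i % 64) with h0 | h0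
  · rw [(push_zero hx hy h0).1, (push_zero hx hy h0).2]
    exact hp
  · obtain ⟨j, hj⟩ : ∃ j, i % 64 = j + 1 := ⟨i % 64 - 1, by omega⟩
    rw [(push_succ hx hy hj).1, (push_succ hx hy hj).2]
    exact h j

/-- membership in a triangle of points of `L` -/
noncomputable def mem (L t px py : ℕ) : Bool :=
  get L t fun ax ay => get L (Nat.shiftRight t 6) fun bx bY => get L (Nat.shiftRight t 12) fun cx cy =>
    band (gt0 ax ay bx bY px py) (band (ge0 bx bY cx cy px py) (ge0 cx cy ax ay px py))

theorem mem_sound {C : Set P2} (hC : Convex ℝ C) {L t px py : ℕ} (hL : HIn C L) (h : mem L t px py = true) :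
    pt px py ∈ C := by
  simp only [mem, get_eq, band_iff] at h
  exact tri_mem hC (hL _) (hL _) (hL _) (gt0_sound h.1) (ge0_sound h.2.1) (ge0_sound h.2.2)

/-- strictly inside a triangle of points of `L` -/
noncomputable def inn (L t px py : ℕ) : Bool :=
  get L t fun ax ay => get L (Nat.shiftRight t 6) fun bx bY => get L (Nat.shiftRight t 12) fun cx cy =>
    band (gt0 ax ay bx bY px py) (band (gt0 bx bY cx cy px py) (gt0 cx cy ax ay px py))

theorem inn_sound {C : Set P2} (hC : Convex ℝ C) {L t px py : ℕ} (hL : HIn C L) (h : inn L t px py = true) :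
    pt px py ∈ C ∧ Inn C (pt px py) := by
  simp only [inn, get_eq, band_iff] at h
  exact ⟨tri_mem hC (hL _) (hL _) (hL _) (gt0_sound h.1) (gt0_sound h.2.1).le (gt0_sound h.2.2).le,
    inn_of_tri (hL _) (hL _) (hL _) (gt0_sound h.1) (gt0_sound h.2.1) (gt0_sound h.2.2)⟩

/-- in a shadow -/
noncomputable def shd (L M t ux uy : ℕ) : Bool :=
  get M t fun qx qy => get L (Nat.shiftRight t 6) fun ax ay => get L (Nat.shiftRight t 12) fun bx bY =>
    band (gt0 qx qy ax ay bx bY) (band (ge0 ax ay qx qy ux uy) (ge0 qx qy bx bY ux uy))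

theorem shd_sound {C : Set P2} {L M t ux uy : ℕ} (hL : HIn C L) (hM : HOut C M) (h : shd L M t ux uy = true) :
    Out C (pt ux uy) := by
  simp only [shd, get_eq, band_iff] at h
  refine out_tri (hM _) (hL _) (hL _) (gt0_sound h.1) (ge0_sound h.2.1) ?_
  have := ge0_sound h.2.2
  simpa only using this

end HCV
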