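import Pool.Agent.HCV.Chk

/-!
# The checker, part 2: sectors and leaves
-/

set_option autoImplicit false

namespace HCV

/-- the field of `c` which begins at bit `p`; `m` is the power of two of its length -/
def fld (c p m : ℕ) : ℕ := Nat.mod (Nat.shiftRight c p) m

/-- coordinate of the point `o + (j / 1024) (u - o)` -/
def pj (o j w : ℕ) : ℕ := Nat.add (Nat.add o (Nat.mul j w)) (Nat.mul (Nat.sub 1024 j) 8192)

/-- the point `u` of the ray with direction `w` -/
def ray (K2 B ox oy wx wy : ℕ) : P2 := pt (K2 * (ox + 1024 * wx) + B) (K2 * (oy + 1024 * wy) + B)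

/-- the centre -/
def ctr (K2 B ox oy : ℕ) : P2 := pt (K2 * (ox + 8388608) + B) (K2 * (oy + 8388608) + B)

/-- translations -/
noncomputable def trn (K1 K2 B m n : ℕ) : P2 := ((m : ℝ) - (K1 : ℝ) / K2 * B, (n : ℝ) - (K1 : ℝ) / K2 * B)

theorem hom_pt {K1 K2 : ℕ} (hK2 : 0 < K2) (B X Y m n : ℕ) :
    ((K1 : ℝ) / K2) • pt (K2 * X + B) (K2 * Y + B) + trn K1 K2 B m n = pt (K1 * X + m) (K1 * Y + n) := by
  have h : (K2 : ℝ) ≠ 0 := by exact_mod_cast hK2.ne'
  simp only [pt, trn]
  ext
  · simp only [Prod.fst_add, Prod.smul_fst, smul_eq_mul]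
    push_cast
    field_simp
    ring
  · simp only [Prod.snd_add, Prod.smul_snd, smul_eq_mul]
    push_cast
    field_simp
    ring

theorem pj_cast {o j w : ℕ} (hj : j ≤ 1024) :
    ((pj o j w : ℕ) : ℝ) = o + 8388608 + (j : ℝ) * ((w : ℝ) - 8192) := by
  have e : pj o j w = o + j * w + (1024 - j) * 8192 := rfl
  rw [e]
  push_cast [Nat.cast_sub hj]
  ring

theorem b_pt {K2 B ox oy wx wy j : ℕ} (hj : j ≤ 1024) :
    ctr K2 B ox oy + ((j : ℝ) / 1024) • (ray K2 B ox oy wx wy - ctr K2 B ox oy) =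
      pt (K2 * pj ox j wx + B) (K2 * pj oy j wy + B) := by
  simp only [ctr, ray, pt]
  ext
  · simp only [Prod.fst_add, Prod.smul_fst, Prod.fst_sub, smul_eq_mul]
    push_cast
    rw [pj_cast hj]
    ring
  · simp only [Prod.snd_add, Prod.smul_snd, Prod.snd_sub, smul_eq_mul]
    push_cast
    rw [pj_cast hj]
    ring

theorem ray_cr {K2 B ox oy wx wy vx vy : ℕ} (hK2 : 0 < K2)
    (h : 0 < cr (pt wx wy - pt 8192 8192) (pt vx vy - pt 8192 8192)) :
    0 < cr (ray K2 B ox oy wx wy - ctr K2 B ox oy) (ray K2 B ox oy vx vy - ctr K2 B ox oy) := by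
  have h2 : (0 : ℝ) < K2 := by exact_mod_cast hK2
  have e : cr (ray K2 B ox oy wx wy - ctr K2 B ox oy) (ray K2 B ox oy vx vy - ctr K2 B ox oy) =
      (1024 * K2) ^ 2 * cr (pt wx wy - pt 8192 8192) (pt vx vy - pt 8192 8192) := by
    simp only [cr, ray, ctr, pt, Prod.fst_sub, Prod.snd_sub]
    push_cast
    ring
  rw [e]
  positivity

/-- outer conditions for a copy `m` in the sector from `w` to `v` -/
noncomputable def outr (K1 K2 B L M ox oy wx wy vx vy a mx my tu tv : ℕ) : Bool :=
  band (gt0 8192 8192 wx wy vx vy)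
    (force (Nat.add ox (Nat.mul 1024 wx)) fun ux => force (Nat.add oy (Nat.mul 1024 wy)) fun uy =>
      force (Nat.add ox (Nat.mul 1024 vx)) fun zx => force (Nat.add oy (Nat.mul 1024 vy)) fun zy =>
      force (Nat.add (Nat.mul K2 zx) B) fun Zx => force (Nat.add (Nat.mul K2 zy) B) fun Zy =>
      band (shd L M a Zx Zy)
        (force (Nat.add (Nat.mul K1 ux) mx) fun px => force (Nat.add (Nat.mul K1 uy) my) fun py =>
          band (mem L tu px py)
            (force (Nat.add (Nat.mul K2 ux) B) fun Ux => force (Nat.add (Nat.mul K2 uy) B) fun Uy =>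
              band (ge0 Ux Uy Zx Zy px py)
                (force (Nat.add (Nat.mul K1 zx) mx) fun rx => force (Nat.add (Nat.mul K1 zy) my) fun ry =>
                  mem L tv rx ry))))

/-- the image of the point with parameter `j` on the ray `w` is in `C` -/
noncomputable def bmem (K1 L ox oy wx wy j mx my t : ℕ) : Bool :=
  force (Nat.add (Nat.mul K1 (pj ox j wx)) mx) fun px => force (Nat.add (Nat.mul K1 (pj oy j wy)) my) fun py =>
    mem L t px py

theorem bmem_sound {C : Set P2} (hC : Convex ℝ C) {K1 K2 B L ox oy wx wy j mx my t : ℕ} (hK2 : 0 < K2) (hL : HIn C L)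
    (hj : j ≤ 1024) (h : bmem K1 L ox oy wx wy j mx my t = true) :
    ((K1 : ℝ) / K2) • (ctr K2 B ox oy + ((j : ℝ) / 1024) • (ray K2 B ox oy wx wy - ctr K2 B ox oy)) + trn K1 K2 B mx my ∈ C := by
  simp only [bmem, force_eq] at h
  rw [b_pt hj, hom_pt hK2]
  exact mem_sound hC hL h

/-- the inner copies -/
noncomputable def inl (K1 K2 B I q : ℕ) : List P2 :=
  (List.range q).map fun c => trn K1 K2 B (fld I (Nat.mul 82 c) 4294967296) (fld I (Nat.add (Nat.mul 82 c) 32) 4294967296)

/-- inner conditions -/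
noncomputable def innr (K1 L q I ox oy wx wy vx vy j j' ic ti ti' : ℕ) : Bool :=
  Nat.rec (band (Nat.beq j 0) (Nat.beq j' 0))
    (fun c _ => band (Nat.ble (Nat.succ c) q)
      (force (fld I (Nat.mul 82 c) 4294967296) fun nx => force (fld I (Nat.add (Nat.mul 82 c) 32) 4294967296) fun ny =>
        band (force (Nat.add (Nat.mul K1 (Nat.add ox 8388608)) nx) fun px =>
          force (Nat.add (Nat.mul K1 (Nat.add oy 8388608)) ny) fun py =>
            mem L (fld I (Nat.add (Nat.mul 82 c) 64) 262144) px py)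
          (band (bmem K1 L ox oy wx wy j nx ny ti) (bmem K1 L ox oy vx vy j' nx ny ti')))) ic

theorem innr_sound {C : Set P2} (hC : Convex ℝ C) {K1 K2 B L q I ox oy wx wy vx vy j j' ic ti ti' : ℕ}
    (hK2 : 0 < K2) (hL : HIn C L) (hj : j ≤ 1024) (hj' : j' ≤ 1024)
    (h : innr K1 L q I ox oy wx wy vx vy j j' ic ti ti' = true) :
    (j = 0 ∧ j' = 0) ∨ ∃ s ∈ inl K1 K2 B I q, ((K1 : ℝ) / K2) • ctr K2 B ox oy + s ∈ C ∧
      ((K1 : ℝ) / K2) • (ctr K2 B ox oy + ((j : ℝ) / 1024) • (ray K2 B ox oy wx wy - ctr K2 B ox oy)) + s ∈ C ∧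
      ((K1 : ℝ) / K2) • (ctr K2 B ox oy + ((j' : ℝ) / 1024) • (ray K2 B ox oy vx vy - ctr K2 B ox oy)) + s ∈ C := by
  cases ic with
  | zero =>
    left
    have h' : band (Nat.beq j 0) (Nat.beq j' 0) = true := h
    rw [band_iff] at h'
    exact ⟨Nat.eq_of_beq_eq_true h'.1, Nat.eq_of_beq_eq_true h'.2⟩
  | succ c =>
    right
    have h' : band (Nat.ble (Nat.succ c) q)
      (force (fld I (Nat.mul 82 c) 4294967296) fun nx => force (fld I (Nat.add (Nat.mul 82 c) 32) 4294967296) fun ny =>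
        band (force (Nat.add (Nat.mul K1 (Nat.add ox 8388608)) nx) fun px =>
          force (Nat.add (Nat.mul K1 (Nat.add oy 8388608)) ny) fun py =>
            mem L (fld I (Nat.add (Nat.mul 82 c) 64) 262144) px py)
          (band (bmem K1 L ox oy wx wy j nx ny ti) (bmem K1 L ox oy vx vy j' nx ny ti'))) = true := h
    simp only [band_iff, force_eq] at h'
    obtain ⟨h1, h2, h3, h4⟩ := h'
    have hc : c < q := Nat.le_of_ble_eq_true h1
    refine ⟨_, List.mem_map.2 ⟨c, List.mem_range.2 hc, rfl⟩, ?_, bmem_sound hC hK2 hL hj h3,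
      bmem_sound hC hK2 hL hj' h4⟩
    rw [ctr, hom_pt hK2]
    exact mem_sound hC hL h2

/-- one sector -/
noncomputable def secchk (K1 K2 B L M q I ox oy wx wy vx vy a j j' ic mx my tu tv tb tb' ti ti' : ℕ) : Bool :=
  band (Nat.ble j 1024) (band (Nat.ble j' 1024) (band (outr K1 K2 B L M ox oy wx wy vx vy a mx my tu tv)
    (band (bmem K1 L ox oy wx wy j mx my tb) (band (bmem K1 L ox oy vx vy j' mx my tb')
      (innr K1 L q I ox oy wx wy vx vy j j' ic ti ti')))))

theorem secchk_sound {C : Set P2} (hC : Convex ℝ C)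
    {K1 K2 B L M q I ox oy wx wy vx vy a j j' ic mx my tu tv tb tb' ti ti' : ℕ}
    (hK1 : 0 < K1) (hK2 : 0 < K2) (hL : HIn C L) (hM : HOut C M) (ho : ctr K2 B ox oy ∈ C)
    (hI : Inn C (ctr K2 B ox oy)) (hu : Out C (ray K2 B ox oy wx wy))
    (h : secchk K1 K2 B L M q I ox oy wx wy vx vy a j j' ic mx my tu tv tb tb' ti ti' = true) :
    Out C (ray K2 B ox oy vx vy) ∧
      0 < cr (ray K2 B ox oy wx wy - ctr K2 B ox oy) (ray K2 B ox oy vx vy - ctr K2 B ox oy) ∧
      ∀ x ∈ C, 0 ≤ cr (ray K2 B ox oy wx wy - ctr K2 B ox oy) (x - ctr K2 B ox oy) →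
        0 ≤ cr (x - ctr K2 B ox oy) (ray K2 B ox oy vx vy - ctr K2 B ox oy) →
        ((K1 : ℝ) / K2) • x + trn K1 K2 B mx my ∈ C ∨ ∃ s ∈ inl K1 K2 B I q, ((K1 : ℝ) / K2) • x + s ∈ C := by
  simp only [secchk, band_iff] at h
  obtain ⟨g1, g2, g3, g4, g5, g6⟩ := h
  have hj := Nat.le_of_ble_eq_true g1
  have hj' := Nat.le_of_ble_eq_true g2
  simp only [outr, band_iff, force_eq] at g3
  obtain ⟨f1, f2, f3, f4, f5⟩ := g3
  have hor := ray_cr (B := B) (ox := ox) (oy := oy) hK2 (gt0_sound f1)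
  have hv : Out C (ray K2 B ox oy vx vy) := shd_sound hL hM f2
  have hTu : ((K1 : ℝ) / K2) • ray K2 B ox oy wx wy + trn K1 K2 B mx my ∈ C := by
    rw [ray, hom_pt hK2]; exact mem_sound hC hL f3
  have hTv : ((K1 : ℝ) / K2) • ray K2 B ox oy vx vy + trn K1 K2 B mx my ∈ C := by
    rw [ray, hom_pt hK2]; exact mem_sound hC hL f5
  have hcap : 0 ≤ cr (ray K2 B ox oy vx vy - ray K2 B ox oy wx wy)
      (((K1 : ℝ) / K2) • ray K2 B ox oy wx wy + trn K1 K2 B mx my - ray K2 B ox oy wx wy) := by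
    have e : ((K1 : ℝ) / K2) • ray K2 B ox oy wx wy + trn K1 K2 B mx my =
      pt (K1 * (ox + 1024 * wx) + mx) (K1 * (oy + 1024 * wy) + my) := by rw [ray, hom_pt hK2]
    rw [e]
    exact ge0_sound f4
  have hb := bmem_sound (B := B) hC hK2 hL hj g4
  have hb' := bmem_sound (B := B) hC hK2 hL hj' g5
  have hκ : (0 : ℝ) < (K1 : ℝ) / K2 := by
    have h1 : (0 : ℝ) < K1 := by exact_mod_cast hK1
    have h2 : (0 : ℝ) < K2 := by exact_mod_cast hK2
    positivity
  refine ⟨hv, hor, fun x hx k1 k2 => ?_⟩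
  obtain ⟨α₁, α₂, a1, a2, hx'⟩ := sector_coords hor k1 k2
  rcases innr_sound (B := B) hC hK2 hL hj hj' g6 with ⟨z1, z2⟩ | ⟨s, hs, i0, i1, i2⟩
  · left
    have hb0 : ((K1 : ℝ) / K2) • ctr K2 B ox oy + trn K1 K2 B mx my ∈ C := by
      have := hb
      rw [z1] at this
      simpa using this
    rcases sec_sound hC hκ ho hI hu hv hor hTu hTv hcap (β := (j : ℝ) / 1024) (β' := (j' : ℝ) / 1024) (by positivity)
      (by positivity) hb hb' hb0 hb hb' a1 a2 (by rw [← hx']; exact hx) with h | h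
    · rw [← hx'] at h; exact h
    · rw [← hx'] at h; exact h
  · rcases sec_sound hC hκ ho hI hu hv hor hTu hTv hcap (β := (j : ℝ) / 1024) (β' := (j' : ℝ) / 1024) (by positivity)
      (by positivity) hb hb' i0 i1 i2 a1 a2 (by rw [← hx']; exact hx) with h | h
    · rw [← hx'] at h; exact Or.inr ⟨s, hs, h⟩
    · rw [← hx'] at h; exact Or.inl h

/-- the outer copies -/
noncomputable def outl (K1 K2 B n : ℕ) : ℕ → List P2 :=
  Nat.rec (fun _ => []) (fun _ ih s => trn K1 K2 B (fld s 70 4294967296) (fld s 102 4294967296) :: ih (Nat.shiftRight s 242)) n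

/-- all sectors -/
noncomputable def secs (K1 K2 B L M q I ox oy zx zy n : ℕ) : ℕ → ℕ → ℕ → Bool :=
  Nat.rec (fun _ wx wy => band (Nat.beq wx zx) (Nat.beq wy zy))
    (fun _ ih s wx wy =>
      force (fld s 0 16384) fun vx => force (fld s 14 16384) fun vy => force (fld s 28 262144) fun a =>
      force (fld s 46 2048) fun j => force (fld s 57 2048) fun j' => force (fld s 68 4) fun ic =>
      force (fld s 70 4294967296) fun mx => force (fld s 102 4294967296) fun my =>
      force (fld s 134 262144) fun tu => force (fld s 152 262144) fun tv => force (fld s 170 262144) fun tb =>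
      force (fld s 188 262144) fun tb' => force (fld s 206 262144) fun ti => force (fld s 224 262144) fun ti' =>
      band (secchk K1 K2 B L M q I ox oy wx wy vx vy a j j' ic mx my tu tv tb tb' ti ti')
        (force (Nat.shiftRight s 242) fun s' => ih s' vx vy)) n

theorem secs_sound {C : Set P2} (hC : Convex ℝ C) {K1 K2 B L M q I ox oy zx zy : ℕ}
    (hK1 : 0 < K1) (hK2 : 0 < K2) (hL : HIn C L) (hM : HOut C M) (ho : ctr K2 B ox oy ∈ C)
    (hI : Inn C (ctr K2 B ox oy)) (n : ℕ) :
    ∀ s wx wy : ℕ, secs K1 K2 B L M q I ox oy zx zy n s wx wy = true → Out C (ray K2 B ox oy wx wy) →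
      ∀ x ∈ C, (∃ t ∈ outl K1 K2 B n s ++ inl K1 K2 B I q, ((K1 : ℝ) / K2) • x + t ∈ C) ∨
        (n = 0 ∧ ray K2 B ox oy wx wy = ray K2 B ox oy zx zy) ∨
        Inv (x - ctr K2 B ox oy) (ray K2 B ox oy wx wy - ctr K2 B ox oy) (ray K2 B ox oy zx zy - ctr K2 B ox oy) := by
  induction n with
  | zero =>
    intro s wx wy h _ x _
    have h' : band (Nat.beq wx zx) (Nat.beq wy zy) = true := h
    rw [band_iff] at h'
    right; left
    rw [Nat.eq_of_beq_eq_true h'.1, Nat.eq_of_beq_eq_true h'.2]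
    exact ⟨rfl, rfl⟩
  | succ n ih =>
    intro s wx wy h hu x hx
    have h' : (force (fld s 0 16384) fun vx => force (fld s 14 16384) fun vy => force (fld s 28 262144) fun a =>
      force (fld s 46 2048) fun j => force (fld s 57 2048) fun j' => force (fld s 68 4) fun ic =>
      force (fld s 70 4294967296) fun mx => force (fld s 102 4294967296) fun my =>
      force (fld s 134 262144) fun tu => force (fld s 152 262144) fun tv => force (fld s 170 262144) fun tb =>
      force (fld s 188 262144) fun tb' => force (fld s 206 262144) fun ti => force (fld s 224 262144) fun ti' =>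
      band (secchk K1 K2 B L M q I ox oy wx wy vx vy a j j' ic mx my tu tv tb tb' ti ti')
        (force (Nat.shiftRight s 242) fun s' => secs K1 K2 B L M q I ox oy zx zy n s' vx vy)) = true := h
    simp only [force_eq, band_iff] at h'
    obtain ⟨h1, h2⟩ := h'
    obtain ⟨hv, hor, hcov⟩ := secchk_sound hC hK1 hK2 hL hM ho hI hu h1
    have e1 : outl K1 K2 B (n + 1) s = trn K1 K2 B (fld s 70 4294967296) (fld s 102 4294967296) :: outl K1 K2 B n (Nat.shiftRight s 242) := rfl
    rw [e1]
    by_cases hin : 0 ≤ cr (ray K2 B ox oy wx wy - ctr K2 B ox oy) (x - ctr K2 B ox oy) ∧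
        0 ≤ cr (x - ctr K2 B ox oy) (ray K2 B ox oy (fld s 0 16384) (fld s 14 16384) - ctr K2 B ox oy)
    · left
      rcases hcov x hx hin.1 hin.2 with h | ⟨t, ht, h⟩
      · exact ⟨_, List.mem_append_left _ List.mem_cons_self, h⟩
      · exact ⟨t, List.mem_append_right _ ht, h⟩
    · have hst := inv_step hor hin
      rcases ih _ _ _ h2 hv x hx with ⟨t, ht, h⟩ | ⟨_, h⟩ | h
      · left
        refine ⟨t, ?_, h⟩
        rw [List.cons_append]
        exact List.mem_cons_of_mem _ ht
      · right; right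
        rw [← h]
        exact hst
      · right; right
        exact inv_trans hst h

theorem outl_length (K1 K2 B n : ℕ) : ∀ s, (outl K1 K2 B n s).length = n := by
  induction n with
  | zero => intro s; rfl
  | succ n ih =>
    intro s
    have e1 : outl K1 K2 B (n + 1) s = trn K1 K2 B (fld s 70 4294967296) (fld s 102 4294967296) :: outl K1 K2 B n (Nat.shiftRight s 242) := rfl
    rw [e1, List.length_cons, ih]

/-- a leaf -/
noncomputable def leafchk (K1 K2 B k L M s : ℕ) : Bool :=
  force (fld s 0 16777216) fun ox => force (fld s 24 16777216) fun oy => force (fld s 48 262144) fun t =>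
  force (fld s 66 4) fun q => force (fld s 68 16) fun n => force (fld s 72 16384) fun wx =>
  force (fld s 86 16384) fun wy => force (fld s 100 262144) fun a =>
  force (Nat.mod (Nat.shiftRight s 118) 113078212145816597093331040047546785012958969400039613319782796882727665664) fun I =>
  band (Nat.ble (Nat.add (Nat.succ n) q) k)
    (band (force (Nat.add (Nat.mul K2 (Nat.add ox 8388608)) B) fun px =>
        force (Nat.add (Nat.mul K2 (Nat.add oy 8388608)) B) fun py => inn L t px py)
      (band (force (Nat.add (Nat.mul K2 (Nat.add ox (Nat.mul 1024 wx))) B) fun ux =>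
          force (Nat.add (Nat.mul K2 (Nat.add oy (Nat.mul 1024 wy))) B) fun uy => shd L M a ux uy)
        (force (Nat.shiftRight s 364) fun s' => secs K1 K2 B L M q I ox oy wx wy (Nat.succ n) s' wx wy)))

theorem leafchk_sound {C : Set P2} (hC : Convex ℝ C) {K1 K2 B k L M s : ℕ} (hK1 : 0 < K1) (hK2 : 0 < K2)
    (hL : HIn C L) (hM : HOut C M) (h : leafchk K1 K2 B k L M s = true) : Cov ((K1 : ℝ) / K2) k C := by
  simp only [leafchk, force_eq, band_iff] at h
  obtain ⟨h1, h2, h3, h4⟩ := h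
  obtain ⟨ho, hI⟩ := inn_sound hC hL h2
  have hu := shd_sound hL hM h3
  refine ⟨outl K1 K2 B (Nat.succ (fld s 68 16)) (Nat.shiftRight s 364) ++ inl K1 K2 B (Nat.mod (Nat.shiftRight s 118)
    113078212145816597093331040047546785012958969400039613319782796882727665664) (fld s 66 4), ?_, fun x hx => ?_⟩
  · rw [List.length_append, outl_length, inl, List.length_map, List.length_range]
    exact Nat.le_of_ble_eq_true h1
  · rcases secs_sound hC hK1 hK2 hL hM ho hI _ _ _ _ h4 hu x hx with h | ⟨h, _⟩ | h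
    · exact h
    · exact absurd h (Nat.succ_ne_zero _)
    · exact (inv_self h).elim

end HCV
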