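import Pool.Agent.HCV.Ear2

/-!
# The checker, part 3: trees, with the ordering of the six side directions
-/

set_option autoImplicit false

namespace HCV

/-- abscissa of the point with parameter `w` in the side direction `j` -/
def PX (Z w : ℕ) : ℕ → ℕ
  | 0 => Z + 2 * w
  | 1 => Z + w
  | 2 => Z - w
  | 3 => Z - 2 * w
  | 4 => Z - w
  | 5 => Z + w
  | _ => Z

/-- ordinate of the point with parameter `w` in the side direction `j` -/
def PY (Z w : ℕ) : ℕ → ℕ
  | 0 => Z + w
  | 1 => Z + 2 * w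
  | 2 => Z + w
  | 3 => Z - w
  | 4 => Z - 2 * w
  | 5 => Z - w
  | _ => Z

/-- the point with parameter `w` in the side direction `j` -/
def PP (Z w j : ℕ) : P2 := pt (PX Z w j) (PY Z w j)

/-- `C` reaches furthest in direction `0`, and not less far in direction `1` than in direction `5` -/
def Ord (Z : ℕ) (C : Set P2) : Prop :=
  ∀ w, 2 * w ≤ Z → (∀ j < 6, PP Z w j ∈ C → PP Z w 0 ∈ C) ∧ (PP Z w 5 ∈ C → PP Z w 1 ∈ C)

/-- every body with these data is covered -/
def Good (K1 K2 Z k L M : ℕ) : Prop :=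
  ∀ C : Set P2, Convex ℝ C → (interior C).Nonempty → Ord Z C → HIn C L → HOut C M → Cov ((K1 : ℝ) / K2) k C

theorem good_node {K1 K2 Z k L M x y : ℕ} (hx : x < 4294967296) (hy : y < 4294967296)
    (h1 : Good K1 K2 Z k (push L x y) M) (h2 : Good K1 K2 Z k L (push M x y)) : Good K1 K2 Z k L M := by
  intro C hC hi hZ hL hM
  by_cases h : pt x y ∈ C
  · exact h1 C hC hi hZ (hin_push hL hx hy h) hM
  · exact h2 C hC hi hZ hL (hout_push hM hx hy (out_of_notMem hC hi (fun h' => h (interior_subset h'))))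

/-- conditional push -/
noncomputable def pif (b L x y : ℕ) : ℕ := Nat.rec L (fun _ _ => push L x y) b

noncomputable def bb (m T j : ℕ) : ℕ := Nat.mul (Nat.mod (Nat.shiftRight m j) 2) (Nat.mod (Nat.shiftRight T j) 2)

/-- conditional pushes in the six directions -/
noncomputable def p6 (L m T Z w : ℕ) : ℕ :=
  pif (bb m T 5) (pif (bb m T 4) (pif (bb m T 3) (pif (bb m T 2) (pif (bb m T 1) (pif (bb m T 0) L
    (Nat.add Z (Nat.mul 2 w)) (Nat.add Z w)) (Nat.add Z w) (Nat.add Z (Nat.mul 2 w)))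
    (Nat.sub Z w) (Nat.add Z w)) (Nat.sub Z (Nat.mul 2 w)) (Nat.sub Z w)) (Nat.sub Z w) (Nat.sub Z (Nat.mul 2 w)))
    (Nat.add Z w) (Nat.sub Z w)

noncomputable def push6 (L m T Z w : ℕ) (f : ℕ → Bool) : Bool :=
  force (Nat.mul 2 w) fun w2 => force (Nat.add Z w2) fun a2 => force (Nat.add Z w) fun a1 =>
  force (Nat.sub Z w) fun b1 => force (Nat.sub Z w2) fun b2 =>
  force (pif (bb m T 0) L a2 a1) fun L0 => force (pif (bb m T 1) L0 a1 a2) fun L1 =>
  force (pif (bb m T 2) L1 b1 a1) fun L2 => force (pif (bb m T 3) L2 b2 b1) fun L3 =>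
  force (pif (bb m T 4) L3 b1 b2) fun L4 => force (pif (bb m T 5) L4 a1 b1) f

theorem push6_eq (L m T Z w : ℕ) (f : ℕ → Bool) : push6 L m T Z w f = f (p6 L m T Z w) := by
  simp only [push6, force_eq, p6]

theorem bb_zero {m T j : ℕ} (h : (T >>> j) % 2 = 0) : bb m T j = 0 := by
  have e : bb m T j = ((m >>> j) % 2) * ((T >>> j) % 2) := rfl
  rw [e, h, mul_zero]

theorem pif_in {C : Set P2} {b L x y : ℕ} (hx : x < 4294967296) (hy : y < 4294967296) (h : HIn C L)
    (hb : b ≠ 0 → pt x y ∈ C) : HIn C (pif b L x y) := by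
  cases b with
  | zero => exact h
  | succ b => exact hin_push h hx hy (hb (Nat.succ_ne_zero _))

theorem pif_out {C : Set P2} {b L x y : ℕ} (hx : x < 4294967296) (hy : y < 4294967296) (h : HOut C L)
    (hb : b ≠ 0 → Out C (pt x y)) : HOut C (pif b L x y) := by
  cases b with
  | zero => exact h
  | succ b => exact hout_push h hx hy (hb (Nat.succ_ne_zero _))

theorem p6_in {C : Set P2} {L m T Z w : ℕ} (hw : Z + 2 * w < 4294967296) (h : HIn C L)
    (hT : ∀ j < 6, (T >>> j) % 2 ≠ 0 → PP Z w j ∈ C) : HIn C (p6 L m T Z w) := by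
  have hb : ∀ j < 6, bb m T j ≠ 0 → PP Z w j ∈ C := by
    intro j hj h
    refine hT j hj (fun h' => h (bb_zero h'))
  have e1 : Nat.add Z (Nat.mul 2 w) < 4294967296 := hw
  have e2 : Nat.add Z w < 4294967296 := by change Z + w < _; omega
  have e3 : Nat.sub Z w < 4294967296 := by change Z - w < _; omega
  have e4 : Nat.sub Z (Nat.mul 2 w) < 4294967296 := by change Z - 2 * w < _; omega
  unfold p6
  exact pif_in e2 e3 (pif_in e3 e4 (pif_in e4 e3 (pif_in e3 e2 (pif_in e2 e1 (pif_in e1 e2 h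
    (hb 0 (by norm_num))) (hb 1 (by norm_num))) (hb 2 (by norm_num))) (hb 3 (by norm_num))) (hb 4 (by norm_num)))
    (hb 5 (by norm_num))

theorem p6_out {C : Set P2} {L m T Z w : ℕ} (hw : Z + 2 * w < 4294967296) (h : HOut C L)
    (hT : ∀ j < 6, (T >>> j) % 2 ≠ 0 → Out C (PP Z w j)) : HOut C (p6 L m T Z w) := by
  have hb : ∀ j < 6, bb m T j ≠ 0 → Out C (PP Z w j) := by
    intro j hj h
    refine hT j hj (fun h' => h (bb_zero h'))
  have e1 : Nat.add Z (Nat.mul 2 w) < 4294967296 := hw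
  have e2 : Nat.add Z w < 4294967296 := by change Z + w < _; omega
  have e3 : Nat.sub Z w < 4294967296 := by change Z - w < _; omega
  have e4 : Nat.sub Z (Nat.mul 2 w) < 4294967296 := by change Z - 2 * w < _; omega
  unfold p6
  exact pif_out e2 e3 (pif_out e3 e4 (pif_out e4 e3 (pif_out e3 e2 (pif_out e2 e1 (pif_out e1 e2 h
    (hb 0 (by norm_num))) (hb 1 (by norm_num))) (hb 2 (by norm_num))) (hb 3 (by norm_num))) (hb 4 (by norm_num)))
    (hb 5 (by norm_num))

/-- tables of the implied directions -/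
noncomputable def tin (d : ℕ) : ℕ := Nat.shiftRight 37868556481 (Nat.mul 6 d)

noncomputable def tout (d : ℕ) : ℕ := Nat.shiftRight 34630289599 (Nat.mul 6 d)

theorem tin_spec : ∀ d < 6, ∀ j < 6, (tin d >>> j) % 2 ≠ 0 → j = d ∨ j = 0 ∨ (d = 5 ∧ j = 1) := by
  unfold tin
  decide

theorem tout_spec : ∀ d < 6, ∀ j < 6, (tout d >>> j) % 2 ≠ 0 → j = d ∨ d = 0 ∨ (d = 1 ∧ j = 5) := by
  unfold tout
  decide

theorem good_dir {K1 K2 Z k L M d w mi mo : ℕ} (hd : d < 6) (hw : 2 * w ≤ Z) (hw' : Z + 2 * w < 4294967296)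
    (h1 : Good K1 K2 Z k (p6 L mi (tin d) Z w) M) (h2 : Good K1 K2 Z k L (p6 M mo (tout d) Z w)) :
    Good K1 K2 Z k L M := by
  intro C hC hi hZ hL hM
  obtain ⟨z1, z2⟩ := hZ w hw
  by_cases h : PP Z w d ∈ C
  · refine h1 C hC hi hZ (p6_in hw' hL fun j hj hb => ?_) hM
    rcases tin_spec d hd j hj hb with rfl | rfl | ⟨rfl, rfl⟩
    · exact h
    · exact z1 d hd h
    · exact z2 h
  · refine h2 C hC hi hZ hL (p6_out hw' hM fun j hj hb => ?_)
    refine out_of_notMem hC hi (fun h' => h ?_)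
    have h3 := interior_subset h'
    rcases tout_spec d hd j hj hb with rfl | rfl | ⟨rfl, rfl⟩
    · exact h3
    · exact z1 j hj h3
    · exact z2 h3

/-- an inner point strictly in a shadow -/
noncomputable def ab1 (L M c : ℕ) : Bool :=
  get L c fun ux uy => get M (Nat.shiftRight c 6) fun qx qy => get L (Nat.shiftRight c 12) fun ax ay =>
    get L (Nat.shiftRight c 18) fun bx bY =>
      band (gt0 qx qy ax ay bx bY) (band (gt0 ax ay qx qy ux uy) (gt0 qx qy bx bY ux uy))

theorem ab1_sound {C : Set P2} {L M c : ℕ} (hL : HIn C L) (hM : HOut C M) (h : ab1 L M c = true) : False := by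
  simp only [ab1, get_eq, band_iff] at h
  obtain ⟨h1, h2, h3⟩ := h
  have k1 := gt0_sound h1
  have k2 := gt0_sound h2
  have k3 := gt0_sound h3
  have hu := hL c
  have hq := hM (Nat.shiftRight c 6)
  have ha := hL (Nat.shiftRight c 12)
  have hb := hL (Nat.shiftRight c 18)
  generalize pt (gx L c) (gy L c) = u at *
  generalize pt (gx M (Nat.shiftRight c 6)) (gy M (Nat.shiftRight c 6)) = q at *
  generalize pt (gx L (Nat.shiftRight c 12)) (gy L (Nat.shiftRight c 12)) = a at *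
  generalize pt (gx L (Nat.shiftRight c 18)) (gy L (Nat.shiftRight c 18)) = b at *
  obtain ⟨α, β, h0, hφ⟩ := hq
  have f1 := hφ u hu
  have f2 := hφ a ha
  have f3 := hφ b hb
  simp only [cr, Prod.fst_sub, Prod.snd_sub] at k1 k2 k3
  -- (u - q) D = - R (a - q) - T (b - q)
  have key : ((b.1 - q.1) * (u.2 - q.2) - (b.2 - q.2) * (u.1 - q.1)) * ((α * q.1 + β * q.2) - (α * a.1 + β * a.2)) +
      ((q.1 - a.1) * (u.2 - a.2) - (q.2 - a.2) * (u.1 - a.1)) * ((α * q.1 + β * q.2) - (α * b.1 + β * b.2)) =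
      ((a.1 - q.1) * (b.2 - q.2) - (a.2 - q.2) * (b.1 - q.1)) * ((α * u.1 + β * u.2) - (α * q.1 + β * q.2)) := by ring
  have m1 := mul_nonneg k3.le (sub_nonneg.2 f2)
  have m2 := mul_nonneg k2.le (sub_nonneg.2 f3)
  have m3 : ((a.1 - q.1) * (b.2 - q.2) - (a.2 - q.2) * (b.1 - q.1)) * ((α * u.1 + β * u.2) - (α * q.1 + β * q.2)) ≤ 0 :=
    mul_nonpos_of_nonneg_of_nonpos k1.le (by linarith)
  have z1 : ((b.1 - q.1) * (u.2 - q.2) - (b.2 - q.2) * (u.1 - q.1)) * ((α * q.1 + β * q.2) - (α * a.1 + β * a.2)) = 0 := by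
    linarith
  have z2 : ((q.1 - a.1) * (u.2 - a.2) - (q.2 - a.2) * (u.1 - a.1)) * ((α * q.1 + β * q.2) - (α * b.1 + β * b.2)) = 0 := by
    linarith
  have y1 := (mul_eq_zero.1 z1).resolve_left k3.ne'
  have y2 := (mul_eq_zero.1 z2).resolve_left k2.ne'
  have v1 : ((a.1 - q.1) * (b.2 - q.2) - (a.2 - q.2) * (b.1 - q.1)) * α = 0 := by
    linear_combination (a.2 - q.2) * y2 - (b.2 - q.2) * y1
  have v2 : ((a.1 - q.1) * (b.2 - q.2) - (a.2 - q.2) * (b.1 - q.1)) * β = 0 := by
    linear_combination (b.1 - q.1) * y1 - (a.1 - q.1) * y2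
  rcases h0 with h0 | h0
  · exact h0 ((mul_eq_zero.1 v1).resolve_left k1.ne')
  · exact h0 ((mul_eq_zero.1 v2).resolve_left k1.ne')

/-- an outer point strictly inside a triangle -/
noncomputable def ab2 (L M c : ℕ) : Bool :=
  get M c fun qx qy => inn L (Nat.shiftRight c 6) qx qy

theorem ab2_sound {C : Set P2} (hC : Convex ℝ C) {L M c : ℕ} (hL : HIn C L) (hM : HOut C M)
    (h : ab2 L M c = true) : False := by
  simp only [ab2, get_eq] at h
  obtain ⟨-, hI⟩ := inn_sound hC hL h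
  obtain ⟨α, β, h0, hφ⟩ := hM c
  exact lt_irrefl _ (hI α β _ h0 hφ)

/-- trees -/
inductive Tr : Type
  | leaf (c : ℕ) : Tr
  | ear (c : ℕ) : Tr
  | abs (c : ℕ) : Tr
  | abt (c : ℕ) : Tr
  | node (x y : ℕ) (a b : Tr) : Tr
  | dir (d w mi mo : ℕ) (a b : Tr) : Tr

noncomputable def trchk (K1 K2 B Z k : ℕ) (t : Tr) : ℕ → ℕ → Bool :=
  Tr.rec (fun c L M => leafchk K1 K2 B k L M c)
    (fun c L M => earleaf K1 K2 B k L M c)
    (fun c L M => ab1 L M c)
    (fun c L M => ab2 L M c)
    (fun x y _ _ iha ihb L M => band (Nat.ble x 4294967295) (band (Nat.ble y 4294967295)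
      (band (force (push L x y) fun L' => iha L' M) (force (push M x y) fun M' => ihb L M'))))
    (fun d w mi mo _ _ iha ihb L M => band (Nat.ble d 5) (band (Nat.ble (Nat.mul 2 w) Z)
      (band (Nat.ble (Nat.add Z (Nat.mul 2 w)) 4294967295)
        (band (force (tin d) fun T => push6 L mi T Z w fun L' => iha L' M)
          (force (tout d) fun T => push6 M mo T Z w fun M' => ihb L M'))))) t

theorem good_of_trchk {K1 K2 B Z k : ℕ} (hK1 : 0 < K1) (hK2 : 0 < K2) (t : Tr) :
    ∀ L M, trchk K1 K2 B Z k t L M = true → Good K1 K2 Z k L M := by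
  induction t with
  | leaf c =>
    intro L M h C hC _ _ hL hM
    exact leafchk_sound hC hK1 hK2 hL hM h
  | ear c =>
    intro L M h C hC _ _ hL hM
    exact earleaf_sound hC hK1 hK2 hL hM h
  | abs c =>
    intro L M h C hC _ _ hL hM
    exact (ab1_sound hL hM h).elim
  | abt c =>
    intro L M h C hC _ _ hL hM
    exact (ab2_sound hC hL hM h).elim
  | node x y a b iha ihb =>
    intro L M h
    have h' : band (Nat.ble x 4294967295) (band (Nat.ble y 4294967295)
      (band (force (push L x y) fun L' => trchk K1 K2 B Z k a L' M)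
        (force (push M x y) fun M' => trchk K1 K2 B Z k b L M'))) = true := h
    simp only [force_eq, band_iff] at h'
    obtain ⟨h1, h2, h3, h4⟩ := h'
    have hx : x < 4294967296 := by have := Nat.le_of_ble_eq_true h1; omega
    have hy : y < 4294967296 := by have := Nat.le_of_ble_eq_true h2; omega
    exact good_node hx hy (iha _ _ h3) (ihb _ _ h4)
  | dir d w mi mo a b iha ihb =>
    intro L M h
    have h' : band (Nat.ble d 5) (band (Nat.ble (Nat.mul 2 w) Z)
      (band (Nat.ble (Nat.add Z (Nat.mul 2 w)) 4294967295)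
        (band (force (tin d) fun T => push6 L mi T Z w fun L' => trchk K1 K2 B Z k a L' M)
          (force (tout d) fun T => push6 M mo T Z w fun M' => trchk K1 K2 B Z k b L M')))) = true := h
    simp only [force_eq, band_iff, push6_eq] at h'
    obtain ⟨h1, h2, h3, h4, h5⟩ := h'
    have e1 : d < 6 := by have := Nat.le_of_ble_eq_true h1; omega
    have e2 : 2 * w ≤ Z := Nat.le_of_ble_eq_true h2
    have e3 : Z + 2 * w < 4294967296 := by
      have h6 : Z + 2 * w ≤ 4294967295 := Nat.le_of_ble_eq_true h3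
      omega
    exact good_dir e1 e2 e3 (iha _ _ h4) (ihb _ _ h5)

end HCV
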