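import Pool.Agent.HCV.Fin

/-!
# The quantities of the problem
-/

set_option autoImplicit false

namespace HCV

/-- a plane convex body: compact, convex, with non-empty interior -/
def IsBody (C : Set (EuclideanSpace ℝ (Fin 2))) : Prop :=
  IsCompact C ∧ Convex ℝ C ∧ (interior C).Nonempty

/-- `C` is contained in the union of `k` homothetic copies `x i + r C` of `C` -/
def CoveredBy (k : ℕ) (r : ℝ) (C : Set (EuclideanSpace ℝ (Fin 2))) : Prop :=
  ∃ x : Fin k → EuclideanSpace ℝ (Fin 2), C ⊆ ⋃ i, (fun y => x i + r • y) '' C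

/-- `h_k(C)`, the least positive ratio with which `k` copies cover `C` -/
noncomputable def hk (k : ℕ) (C : Set (EuclideanSpace ℝ (Fin 2))) : ℝ :=
  sInf {r : ℝ | 0 < r ∧ CoveredBy k r C}

/-- the supremum of `h_k(C)` over all plane convex bodies -/
noncomputable def hHat (k : ℕ) : ℝ := sSup {t : ℝ | ∃ C, IsBody C ∧ t = hk k C}

theorem main {K1 K2 k : ℕ} (hK1 : 0 < K1) (hK2 : 0 < K2) {L0 : ℕ}
    (hL0 : ∀ i < 64, (gx L0 i, gy L0 i) ∈ hexN K1 K2) (hG : Good K1 K2 (K2 * 16777216 + K1 * 16777216) k L0 L0) :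
    (∀ C, IsBody C → CoveredBy k ((K2 : ℝ) / K1) C) ∧ hHat k ≤ (K2 : ℝ) / K1 := by
  have h : ∀ C, IsBody C → CoveredBy k ((K2 : ℝ) / K1) C := by
    intro C hC
    exact covers_of_good hK1 hK2 hL0 hG hC.2.1 hC.1 hC.2.2
  have h1 : (0 : ℝ) < K1 := by exact_mod_cast hK1
  have h2 : (0 : ℝ) < K2 := by exact_mod_cast hK2
  refine ⟨h, Real.sSup_le ?_ (by positivity)⟩
  rintro t ⟨C, hC, rfl⟩
  exact csInf_le ⟨0, fun r hr => hr.1.le⟩ ⟨by positivity, h C hC⟩

end HCV
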