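import Pool.Agent.HCV.Sec2

/-!
# Sectors around a point, covering statement
-/

set_option autoImplicit false

namespace HCV

/-- `C` is covered by at most `k` of its copies, in terms of the maps `x ↦ κ x + s` -/
def Cov (κ : ℝ) (k : ℕ) (C : Set P2) : Prop :=
  ∃ L : List P2, L.length ≤ k ∧ ∀ x ∈ C, ∃ s ∈ L, κ • x + s ∈ C

theorem convex_pre {C : Set P2} (hC : Convex ℝ C) (κ : ℝ) (s : P2) : Convex ℝ {x : P2 | κ • x + s ∈ C} := by
  intro x hx y hy a b ha hb hab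
  have h := hC hx hy ha hb hab
  simp only [Set.mem_setOf_eq] at *
  convert h using 1
  obtain rfl : b = 1 - a := by linarith
  module

/-- one sector, both parts -/
theorem sec_sound {C : Set P2} (hC : Convex ℝ C) {o u v s s' : P2} {κ β β' α₁ α₂ : ℝ} (hκ : 0 < κ)
    (ho : o ∈ C) (hInn : Inn C o) (hu : Out C u) (hv : Out C v) (hor : 0 < cr (u - o) (v - o))
    (hTu : κ • u + s ∈ C) (hTv : κ • v + s ∈ C) (hcap : 0 ≤ cr (v - u) (κ • u + s - u))
    (hβ : 0 ≤ β) (hβ' : 0 ≤ β')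
    (hb : κ • (o + β • (u - o)) + s ∈ C) (hb' : κ • (o + β' • (v - o)) + s ∈ C)
    (io : κ • o + s' ∈ C) (ib : κ • (o + β • (u - o)) + s' ∈ C) (ib' : κ • (o + β' • (v - o)) + s' ∈ C)
    (h1 : 0 ≤ α₁) (h2 : 0 ≤ α₂) (hx : o + α₁ • (u - o) + α₂ • (v - o) ∈ C) :
    κ • (o + α₁ • (u - o) + α₂ • (v - o)) + s' ∈ C ∨ κ • (o + α₁ • (u - o) + α₂ • (v - o)) + s ∈ C := by
  rcases le_or_gt (α₁ + α₂) 1 with h | h
  · exact sec_inner (D0 := {x : P2 | κ • x + s' ∈ C}) (D := {x : P2 | κ • x + s ∈ C}) (convex_pre hC κ s')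
      (convex_pre hC κ s) hβ hβ' io ib ib' hTu hTv hb hb' h1 h2 h
  · exact Or.inr (sec_outer hC hκ ho hInn hu hv hor hTu hTv hcap h1 h2 h hx)

/-- the invariant for chains of rays from `a` to `z`, seen from `x` -/
def Inv (x a z : P2) : Prop :=
  (0 < cr a x → 0 < cr z x ∧ 0 < cr a z) ∧ (cr a x = 0 → 0 < cr z x) ∧
    (cr a x < 0 → 0 ≤ cr z x ∨ (cr z x < 0 ∧ 0 < cr a z))

theorem inv_step {x a b : P2} (h : 0 < cr a b) (hn : ¬ (0 ≤ cr a x ∧ 0 ≤ cr x b)) : Inv x a b := by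
  have e : cr x b = - cr b x := by simp only [cr]; ring
  rw [e] at hn
  refine ⟨fun h1 => ?_, fun h1 => ?_, fun h1 => ?_⟩
  · refine ⟨?_, h⟩
    by_contra h2
    exact hn ⟨h1.le, by linarith⟩
  · by_contra h2
    exact hn ⟨h1.ge, by linarith⟩
  · rcases le_or_gt 0 (cr b x) with h2 | h2
    · exact Or.inl h2
    · exact Or.inr ⟨h2, h⟩

theorem plucker (a b z x : P2) : cr a z * cr b x = cr a b * cr z x + cr b z * cr a x := by
  simp only [cr]; ring

theorem inv_trans {x a b z : P2} (h : Inv x a b) (h' : Inv x b z) : Inv x a z := by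
  obtain ⟨p1, p2, p3⟩ := h
  obtain ⟨q1, q2, q3⟩ := h'
  have hp := plucker a b z x
  refine ⟨fun h1 => ?_, fun h1 => ?_, fun h1 => ?_⟩
  · obtain ⟨r1, r2⟩ := p1 h1
    obtain ⟨r3, r4⟩ := q1 r1
    refine ⟨r3, ?_⟩
    have h3 : 0 < cr a z * cr b x := by rw [hp]; positivity
    exact (pos_iff_pos_of_mul_pos h3).2 r1
  · exact (q1 (p2 h1)).1
  · rcases p3 h1 with r | ⟨r1, r2⟩
    · rcases r.lt_or_eq with r3 | r3
      · exact Or.inl (q1 r3).1.le
      · exact Or.inl (q2 r3.symm).le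
    · rcases q3 r1 with r3 | ⟨r3, r4⟩
      · exact Or.inl r3
      · refine Or.inr ⟨r3, ?_⟩
        have h3 : cr a z * cr b x < 0 := by
          rw [hp]
          have := mul_neg_of_pos_of_neg r2 r3
          have := mul_neg_of_pos_of_neg r4 h1
          linarith
        by_contra h4
        have := mul_nonneg_of_nonpos_of_nonpos (not_lt.1 h4) r1.le
        linarith

theorem inv_self {x a : P2} (h : Inv x a a) : False := by
  obtain ⟨p1, p2, p3⟩ := h
  have e : cr a a = 0 := by simp only [cr]; ring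
  rcases lt_trichotomy (cr a x) 0 with h | h | h
  · rcases p3 h with h1 | h1
    · linarith
    · linarith [h1.2]
  · linarith [p2 h]
  · linarith [(p1 h).2]

theorem cramer {x o n1 n2 p q D : ℝ} (hD : D ≠ 0) (h : (x - o) * D = n1 * p + n2 * q) :
    x = o + n1 / D * p + n2 / D * q := by
  field_simp
  linarith

/-- coordinates of a point in a sector -/
theorem sector_coords {o u v x : P2} (h : 0 < cr (u - o) (v - o)) (h1 : 0 ≤ cr (u - o) (x - o))
    (h2 : 0 ≤ cr (x - o) (v - o)) :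
    ∃ α₁ α₂ : ℝ, 0 ≤ α₁ ∧ 0 ≤ α₂ ∧ x = o + α₁ • (u - o) + α₂ • (v - o) := by
  refine ⟨cr (x - o) (v - o) / cr (u - o) (v - o), cr (u - o) (x - o) / cr (u - o) (v - o), by positivity,
    by positivity, ?_⟩
  ext
  · simp only [Prod.fst_add, Prod.smul_fst, Prod.fst_sub, smul_eq_mul]
    refine cramer h.ne' ?_
    simp only [cr, Prod.fst_sub, Prod.snd_sub]
    ring
  · simp only [Prod.snd_add, Prod.smul_snd, Prod.snd_sub, smul_eq_mul]
    refine cramer h.ne' ?_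
    simp only [cr, Prod.fst_sub, Prod.snd_sub]
    ring

/-- a point in a triangle -/
theorem tri_mem {C : Set P2} (hC : Convex ℝ C) {a b c p : P2} (ha : a ∈ C) (hb : b ∈ C) (hc : c ∈ C)
    (h1 : 0 < cr (b - a) (p - a)) (h2 : 0 ≤ cr (c - b) (p - b)) (h3 : 0 ≤ cr (a - c) (p - c)) : p ∈ C := by
  have hs : 0 < cr (b - a) (p - a) + cr (c - b) (p - b) + cr (a - c) (p - c) := by linarith
  set T := cr (b - a) (p - a) + cr (c - b) (p - b) + cr (a - c) (p - c) with hT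
  have h := conv3 hC ha hb hc (div_nonneg h2 hs.le) (div_nonneg h3 hs.le) (div_nonneg h1.le hs.le)
    (by
      rw [← add_div, ← add_div, div_eq_one_iff_eq hs.ne']
      ring)
  convert h using 1
  have key : ∀ n1 n2 n3 x y z q : ℝ, n1 * x + n2 * y + n3 * z = q * T → q = n1 / T * x + n2 / T * y + n3 / T * z := by
    intro n1 n2 n3 x y z q h
    have hT' : T ≠ 0 := hs.ne'
    field_simp
    linarith
  ext
  · simp only [Prod.fst_add, Prod.smul_fst, smul_eq_mul]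
    refine key _ _ _ _ _ _ _ ?_
    simp only [hT, cr, Prod.fst_sub, Prod.snd_sub]
    ring
  · simp only [Prod.snd_add, Prod.smul_snd, smul_eq_mul]
    refine key _ _ _ _ _ _ _ ?_
    simp only [hT, cr, Prod.fst_sub, Prod.snd_sub]
    ring

/-- a point strictly inside a triangle -/
theorem inn_of_tri {C : Set P2} {a b c p : P2} (ha : a ∈ C) (hb : b ∈ C) (hc : c ∈ C)
    (h1 : 0 < cr (b - a) (p - a)) (h2 : 0 < cr (c - b) (p - b)) (h3 : 0 < cr (a - c) (p - c)) : Inn C p := by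
  intro α β M h0 hM
  have e1 := hM a ha
  have e2 := hM b hb
  have e3 := hM c hc
  by_contra hcon
  push Not at hcon
  simp only [cr, Prod.fst_sub, Prod.snd_sub] at h1 h2 h3
  -- the barycentric identity
  have key : ((c.1 - b.1) * (p.2 - b.2) - (c.2 - b.2) * (p.1 - b.1)) * (M - (α * a.1 + β * a.2)) +
      ((a.1 - c.1) * (p.2 - c.2) - (a.2 - c.2) * (p.1 - c.1)) * (M - (α * b.1 + β * b.2)) +
      ((b.1 - a.1) * (p.2 - a.2) - (b.2 - a.2) * (p.1 - a.1)) * (M - (α * c.1 + β * c.2)) =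
      (((c.1 - b.1) * (p.2 - b.2) - (c.2 - b.2) * (p.1 - b.1)) +
      ((a.1 - c.1) * (p.2 - c.2) - (a.2 - c.2) * (p.1 - c.1)) +
      ((b.1 - a.1) * (p.2 - a.2) - (b.2 - a.2) * (p.1 - a.1))) * (M - (α * p.1 + β * p.2)) := by ring
  have k1 := mul_nonneg h2.le (sub_nonneg.2 e1)
  have k2 := mul_nonneg h3.le (sub_nonneg.2 e2)
  have k3 := mul_nonneg h1.le (sub_nonneg.2 e3)
  have k4 : (((c.1 - b.1) * (p.2 - b.2) - (c.2 - b.2) * (p.1 - b.1)) +
      ((a.1 - c.1) * (p.2 - c.2) - (a.2 - c.2) * (p.1 - c.1)) +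
      ((b.1 - a.1) * (p.2 - a.2) - (b.2 - a.2) * (p.1 - a.1))) * (M - (α * p.1 + β * p.2)) ≤ 0 :=
    mul_nonpos_of_nonneg_of_nonpos (by linarith) (by linarith)
  have z1 : ((c.1 - b.1) * (p.2 - b.2) - (c.2 - b.2) * (p.1 - b.1)) * (M - (α * a.1 + β * a.2)) = 0 := by linarith
  have z2 : ((a.1 - c.1) * (p.2 - c.2) - (a.2 - c.2) * (p.1 - c.1)) * (M - (α * b.1 + β * b.2)) = 0 := by linarith
  have z3 : ((b.1 - a.1) * (p.2 - a.2) - (b.2 - a.2) * (p.1 - a.1)) * (M - (α * c.1 + β * c.2)) = 0 := by linarith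
  have y1 := (mul_eq_zero.1 z1).resolve_left h2.ne'
  have y2 := (mul_eq_zero.1 z2).resolve_left h3.ne'
  have y3 := (mul_eq_zero.1 z3).resolve_left h1.ne'
  have area : 0 < (b.1 - a.1) * (c.2 - a.2) - (b.2 - a.2) * (c.1 - a.1) := by
    have : (b.1 - a.1) * (c.2 - a.2) - (b.2 - a.2) * (c.1 - a.1) =
      ((c.1 - b.1) * (p.2 - b.2) - (c.2 - b.2) * (p.1 - b.1)) +
      ((a.1 - c.1) * (p.2 - c.2) - (a.2 - c.2) * (p.1 - c.1)) +
      ((b.1 - a.1) * (p.2 - a.2) - (b.2 - a.2) * (p.1 - a.1)) := by ring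
    linarith
  have w1 : α * (b.1 - a.1) + β * (b.2 - a.2) = 0 := by linarith
  have w2 : α * (c.1 - a.1) + β * (c.2 - a.2) = 0 := by linarith
  have v1 : ((b.1 - a.1) * (c.2 - a.2) - (b.2 - a.2) * (c.1 - a.1)) * α = 0 := by
    linear_combination (c.2 - a.2) * w1 - (b.2 - a.2) * w2
  have v2 : ((b.1 - a.1) * (c.2 - a.2) - (b.2 - a.2) * (c.1 - a.1)) * β = 0 := by
    linear_combination (b.1 - a.1) * w2 - (c.1 - a.1) * w1
  rcases h0 with h0 | h0
  · exact h0 ((mul_eq_zero.1 v1).resolve_left area.ne')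
  · exact h0 ((mul_eq_zero.1 v2).resolve_left area.ne')

/-- a point in a shadow -/
theorem out_tri {C : Set P2} {q s₁ s₂ u : P2} (hq : Out C q) (h1 : s₁ ∈ C) (h2 : s₂ ∈ C)
    (k0 : 0 < cr (s₁ - q) (s₂ - q)) (k1 : 0 ≤ cr (q - s₁) (u - s₁)) (k2 : 0 ≤ cr (s₂ - q) (u - q)) : Out C u := by
  refine out_shadow (r := cr (s₂ - q) (u - q) / cr (s₁ - q) (s₂ - q))
    (t := cr (q - s₁) (u - s₁) / cr (s₁ - q) (s₂ - q)) hq h1 h2 (by positivity) (by positivity) ?_
  ext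
  · simp only [Prod.fst_add, Prod.smul_fst, Prod.fst_sub, smul_eq_mul]
    refine cramer k0.ne' ?_
    simp only [cr, Prod.fst_sub, Prod.snd_sub]
    ring
  · simp only [Prod.snd_add, Prod.smul_snd, Prod.snd_sub, smul_eq_mul]
    refine cramer k0.ne' ?_
    simp only [cr, Prod.fst_sub, Prod.snd_sub]
    ring

end HCV
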