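import Pool.Agent.HCV.Chk2

/-!
# The checker, part 2b: leaves with ears

In some sectors the copy need not contain the centre `o` but only a point `p` of the triangle; the two
neighbouring copies contain `p` as well.
-/

set_option autoImplicit false

namespace HCV

/-- a triangle is subdivided by one of its points -/
theorem tri_split {D : Fin 3 → Set P2} (hD : ∀ i, Convex ℝ (D i)) {V : Fin 3 → P2} {A X : Fin 3 → ℝ} {p x : P2}
    (hA : ∀ i, 0 ≤ A i) (hX : ∀ i, 0 ≤ X i) (sA : A 0 + A 1 + A 2 = 1) (sX : X 0 + X 1 + X 2 = 1)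
    (hp : p = A 0 • V 0 + A 1 • V 1 + A 2 • V 2) (hx : x = X 0 • V 0 + X 1 • V 1 + X 2 • V 2)
    (hpD : ∀ i, p ∈ D i) (hV : ∀ i j, i ≠ j → V j ∈ D i) : ∃ i, x ∈ D i := by
  obtain ⟨i, hi, hmin⟩ := (Finset.univ.filter (fun i : Fin 3 => 0 < A i)).exists_min_image (fun i => X i / A i) (by
    by_contra hne
    rw [Finset.not_nonempty_iff_eq_empty, Finset.filter_eq_empty_iff] at hne
    have h0 := hne (Finset.mem_univ (0 : Fin 3))
    have h1 := hne (Finset.mem_univ (1 : Fin 3))
    have h2 := hne (Finset.mem_univ (2 : Fin 3))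
    push Not at h0 h1 h2
    linarith)
  rw [Finset.mem_filter] at hi
  obtain ⟨-, hAi⟩ := hi
  obtain ⟨t, ht⟩ : ∃ t, t = X i / A i := ⟨_, rfl⟩
  have ht0 : 0 ≤ t := by rw [ht]; exact div_nonneg (hX i) hAi.le
  have hti : X i - t * A i = 0 := by rw [ht, div_mul_cancel₀ _ hAi.ne', sub_self]
  have hj : ∀ j, 0 ≤ X j - t * A j := by
    intro j
    rcases (hA j).lt_or_eq with h | h
    · have h3 := hmin j (by rw [Finset.mem_filter]; exact ⟨Finset.mem_univ _, h⟩)
      rw [← ht] at h3
      have h4 := mul_le_mul_of_nonneg_right h3 h.le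
      rw [div_mul_cancel₀ _ h.ne'] at h4
      linarith
    · rw [← h, mul_zero, sub_zero]; exact hX j
  have hxe : x = t • p + ((X 0 - t * A 0) • V 0 + (X 1 - t * A 1) • V 1 + (X 2 - t * A 2) • V 2) := by
    rw [hx, hp]; module
  have hsum : t + ((X 0 - t * A 0) + (X 1 - t * A 1) + (X 2 - t * A 2)) = 1 := by
    have : t * (A 0 + A 1 + A 2) = t := by rw [sA, mul_one]
    linarith
  refine ⟨i, ?_⟩
  rw [hxe]
  fin_cases i
  · have e : X 0 - t * A 0 = 0 := hti
    rw [e] at hsum ⊢
    have h := conv3 (hD 0) (hpD 0) (hV 0 1 (by decide)) (hV 0 2 (by decide)) ht0 (hj 1) (hj 2) (by linarith)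
    change _ ∈ D 0
    convert h using 1
    module
  · have e : X 1 - t * A 1 = 0 := hti
    rw [e] at hsum ⊢
    have h := conv3 (hD 1) (hpD 1) (hV 1 0 (by decide)) (hV 1 2 (by decide)) ht0 (hj 0) (hj 2) (by linarith)
    change _ ∈ D 1
    convert h using 1
    module
  · have e : X 2 - t * A 2 = 0 := hti
    rw [e] at hsum ⊢
    have h := conv3 (hD 2) (hpD 2) (hV 2 0 (by decide)) (hV 2 1 (by decide)) ht0 (hj 0) (hj 1) (by linarith)
    change _ ∈ D 2
    convert h using 1
    module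

/-- barycentric coordinates -/
theorem bary {o u v p : P2} (hT : 0 < cr (u - o) (v - o)) (h1 : 0 ≤ cr (u - o) (p - o))
    (h2 : 0 ≤ cr (v - u) (p - u)) (h3 : 0 ≤ cr (o - v) (p - v)) :
    ∃ A : Fin 3 → ℝ, (∀ i, 0 ≤ A i) ∧ A 0 + A 1 + A 2 = 1 ∧ p = A 0 • o + A 1 • u + A 2 • v := by
  refine ⟨![cr (v - u) (p - u) / cr (u - o) (v - o), cr (o - v) (p - v) / cr (u - o) (v - o),
    cr (u - o) (p - o) / cr (u - o) (v - o)], fun i => ?_, ?_, ?_⟩
  · fin_cases i
    · exact div_nonneg h2 hT.le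
    · exact div_nonneg h3 hT.le
    · exact div_nonneg h1 hT.le
  · simp only [Matrix.cons_val_zero, Matrix.cons_val_one, Matrix.cons_val]
    rw [← add_div, ← add_div, div_eq_one_iff_eq hT.ne']
    simp only [cr, Prod.fst_sub, Prod.snd_sub]
    ring
  · simp only [Matrix.cons_val_zero, Matrix.cons_val_one, Matrix.cons_val]
    have key : ∀ n1 n2 n3 T x y z q : ℝ, T ≠ 0 → n1 * x + n2 * y + n3 * z = q * T →
        q = n1 / T * x + n2 / T * y + n3 / T * z := by
      intro n1 n2 n3 T x y z q hT' h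
      field_simp
      linarith
    ext
    · simp only [Prod.fst_add, Prod.smul_fst, smul_eq_mul]
      refine key _ _ _ _ _ _ _ _ hT.ne' ?_
      simp only [cr, Prod.fst_sub, Prod.snd_sub]
      ring
    · simp only [Prod.snd_add, Prod.smul_snd, smul_eq_mul]
      refine key _ _ _ _ _ _ _ _ hT.ne' ?_
      simp only [cr, Prod.fst_sub, Prod.snd_sub]
      ring

/-- an interior point -/
noncomputable def ipt (K2 B px py : ℕ) : P2 := ctr K2 B px py

/-- the image of the interior point `(px, py)` under the copy `m` is in `C` -/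
noncomputable def imem (K1 L px py mx my t : ℕ) : Bool :=
  force (Nat.add (Nat.mul K1 (Nat.add px 8388608)) mx) fun x =>
    force (Nat.add (Nat.mul K1 (Nat.add py 8388608)) my) fun y => mem L t x y

theorem imem_sound {C : Set P2} (hC : Convex ℝ C) {K1 K2 B L px py mx my t : ℕ} (hK2 : 0 < K2) (hL : HIn C L)
    (h : imem K1 L px py mx my t = true) :
    ((K1 : ℝ) / K2) • ctr K2 B px py + trn K1 K2 B mx my ∈ C := by
  simp only [imem, force_eq] at h
  rw [ctr, hom_pt hK2]
  exact mem_sound hC hL h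

/-- the image of the ray point `w` under the copy `m` is in `C` -/
noncomputable def rmem (K1 L ox oy wx wy mx my t : ℕ) : Bool :=
  force (Nat.add (Nat.mul K1 (Nat.add ox (Nat.mul 1024 wx))) mx) fun x =>
    force (Nat.add (Nat.mul K1 (Nat.add oy (Nat.mul 1024 wy))) my) fun y => mem L t x y

theorem rmem_sound {C : Set P2} (hC : Convex ℝ C) {K1 K2 B L ox oy wx wy mx my t : ℕ} (hK2 : 0 < K2) (hL : HIn C L)
    (h : rmem K1 L ox oy wx wy mx my t = true) :
    ((K1 : ℝ) / K2) • ray K2 B ox oy wx wy + trn K1 K2 B mx my ∈ C := by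
  simp only [rmem, force_eq] at h
  rw [ray, hom_pt hK2]
  exact mem_sound hC hL h

/-- first coordinate of the translation of the copy number `i` -/
def emx (S i : ℕ) : ℕ := fld S (Nat.add (Nat.mul 329 i) 46) 4294967296

def emy (S i : ℕ) : ℕ := fld S (Nat.add (Nat.mul 329 i) 78) 4294967296

/-- the copies -/
noncomputable def ecop (K1 K2 B S n : ℕ) : List P2 :=
  (List.range n).map fun i => trn K1 K2 B (emx S i) (emy S i)

theorem mem_ecop {K1 K2 B S n i : ℕ} (h : i < n) : trn K1 K2 B (emx S i) (emy S i) ∈ ecop K1 K2 B S n :=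
  List.mem_map.2 ⟨i, List.mem_range.2 h, rfl⟩

/-- the ear conditions -/
noncomputable def earchk (K1 K2 B L S n ox oy wx wy vx vy i px py nx pr tp n1 n2 n3 r1 r2 r3 : ℕ) : Bool :=
  band (Nat.ble (Nat.succ nx) n) (band (Nat.ble (Nat.succ pr) n)
    (band (force (Nat.add (Nat.mul K2 (Nat.add ox 8388608)) B) fun Ox =>
        force (Nat.add (Nat.mul K2 (Nat.add oy 8388608)) B) fun Oy =>
        force (Nat.add (Nat.mul K2 (Nat.add ox (Nat.mul 1024 wx))) B) fun Ux =>
        force (Nat.add (Nat.mul K2 (Nat.add oy (Nat.mul 1024 wy))) B) fun Uy =>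
        force (Nat.add (Nat.mul K2 (Nat.add ox (Nat.mul 1024 vx))) B) fun Vx =>
        force (Nat.add (Nat.mul K2 (Nat.add oy (Nat.mul 1024 vy))) B) fun Vy =>
        force (Nat.add (Nat.mul K2 (Nat.add px 8388608)) B) fun Px =>
        force (Nat.add (Nat.mul K2 (Nat.add py 8388608)) B) fun Py =>
        band (ge0 Ox Oy Ux Uy Px Py) (band (ge0 Ux Uy Vx Vy Px Py) (ge0 Vx Vy Ox Oy Px Py)))
      (band (force (emx S i) fun mx => force (emy S i) fun my => imem K1 L px py mx my tp)
        (band (force (emx S nx) fun mx => force (emy S nx) fun my =>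
            band (imem K1 L ox oy mx my n1) (band (rmem K1 L ox oy vx vy mx my n2) (imem K1 L px py mx my n3)))
          (force (emx S pr) fun mx => force (emy S pr) fun my =>
            band (imem K1 L ox oy mx my r1) (band (rmem K1 L ox oy wx wy mx my r2) (imem K1 L px py mx my r3)))))))

theorem earchk_sound {C : Set P2} (hC : Convex ℝ C)
    {K1 K2 B L S n ox oy wx wy vx vy i px py nx pr tp n1 n2 n3 r1 r2 r3 : ℕ}
    (hK2 : 0 < K2) (hL : HIn C L) (hi : i < n)
    (hor : 0 < cr (ray K2 B ox oy wx wy - ctr K2 B ox oy) (ray K2 B ox oy vx vy - ctr K2 B ox oy))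
    (hTu : ((K1 : ℝ) / K2) • ray K2 B ox oy wx wy + trn K1 K2 B (emx S i) (emy S i) ∈ C)
    (hTv : ((K1 : ℝ) / K2) • ray K2 B ox oy vx vy + trn K1 K2 B (emx S i) (emy S i) ∈ C)
    (h : earchk K1 K2 B L S n ox oy wx wy vx vy i px py nx pr tp n1 n2 n3 r1 r2 r3 = true)
    {x : P2} {α₁ α₂ : ℝ} (h1 : 0 ≤ α₁) (h2 : 0 ≤ α₂) (hs : α₁ + α₂ ≤ 1)
    (hx : x = ctr K2 B ox oy + α₁ • (ray K2 B ox oy wx wy - ctr K2 B ox oy) +
      α₂ • (ray K2 B ox oy vx vy - ctr K2 B ox oy)) :
    ∃ t ∈ ecop K1 K2 B S n, ((K1 : ℝ) / K2) • x + t ∈ C := by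
  simp only [earchk, band_iff, force_eq] at h
  obtain ⟨g1, g2, ⟨g3, g4, g5⟩, g6, ⟨g7, g8, g9⟩, g10, g11, g12⟩ := h
  have hnx : nx < n := Nat.le_of_ble_eq_true g1
  have hpr : pr < n := Nat.le_of_ble_eq_true g2
  have b1 : 0 ≤ cr (ray K2 B ox oy wx wy - ctr K2 B ox oy) (ctr K2 B px py - ctr K2 B ox oy) := ge0_sound g3
  have b2 : 0 ≤ cr (ray K2 B ox oy vx vy - ray K2 B ox oy wx wy) (ctr K2 B px py - ray K2 B ox oy wx wy) :=
    ge0_sound g4
  have b3 : 0 ≤ cr (ctr K2 B ox oy - ray K2 B ox oy vx vy) (ctr K2 B px py - ray K2 B ox oy vx vy) := ge0_sound g5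
  obtain ⟨A, hA, sA, hp⟩ := bary hor b1 b2 b3
  have c1 := imem_sound (B := B) hC hK2 hL g6
  have c2 := imem_sound (B := B) hC hK2 hL g7
  have c3 := rmem_sound (B := B) hC hK2 hL g8
  have c4 := imem_sound (B := B) hC hK2 hL g9
  have c5 := imem_sound (B := B) hC hK2 hL g10
  have c6 := rmem_sound (B := B) hC hK2 hL g11
  have c7 := imem_sound (B := B) hC hK2 hL g12
  generalize ray K2 B ox oy wx wy = u at *
  generalize ray K2 B ox oy vx vy = v at *
  generalize ctr K2 B px py = p at *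
  generalize ctr K2 B ox oy = o at *
  obtain ⟨j, hj⟩ := tri_split (D := ![{y : P2 | ((K1 : ℝ) / K2) • y + trn K1 K2 B (emx S i) (emy S i) ∈ C},
      {y : P2 | ((K1 : ℝ) / K2) • y + trn K1 K2 B (emx S nx) (emy S nx) ∈ C},
      {y : P2 | ((K1 : ℝ) / K2) • y + trn K1 K2 B (emx S pr) (emy S pr) ∈ C}])
    (V := ![o, u, v]) (A := A) (X := ![1 - α₁ - α₂, α₁, α₂]) (p := p) (x := x)
    (by
      intro i
      fin_cases i
      · exact convex_pre hC _ _
      · exact convex_pre hC _ _
      · exact convex_pre hC _ _)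
    hA
    (by
      intro i
      fin_cases i
      · change 0 ≤ 1 - α₁ - α₂; linarith
      · exact h1
      · exact h2)
    sA
    (by
      simp only [Matrix.cons_val_zero, Matrix.cons_val_one, Matrix.cons_val]
      ring)
    (by
      simp only [Matrix.cons_val_zero, Matrix.cons_val_one, Matrix.cons_val]
      exact hp)
    (by
      simp only [Matrix.cons_val_zero, Matrix.cons_val_one, Matrix.cons_val]
      rw [hx]
      module)
    (by
      intro i
      fin_cases i
      · exact c1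
      · exact c4
      · exact c7)
    (by
      intro i j hij
      fin_cases i <;> fin_cases j
      · exact absurd rfl hij
      · exact hTu
      · exact hTv
      · exact c2
      · exact absurd rfl hij
      · exact c3
      · exact c5
      · exact c6
      · exact absurd rfl hij)
  fin_cases j
  · exact ⟨_, mem_ecop hi, hj⟩
  · exact ⟨_, mem_ecop hnx, hj⟩
  · exact ⟨_, mem_ecop hpr, hj⟩

end HCV
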