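import Pool.Agent.HCV.Ear

/-!
# The checker, part 2c: leaves with ears, chains of sectors
-/

set_option autoImplicit false

namespace HCV

def evx (S i : ℕ) : ℕ := fld S (Nat.mul 329 i) 16384

def evy (S i : ℕ) : ℕ := fld S (Nat.add (Nat.mul 329 i) 14) 16384

/-- inner part of a sector: either the copy contains the centre or the sector has an ear -/
noncomputable def einn (K1 K2 B L S n ox oy wx wy vx vy i b fl : ℕ) : Bool :=
  Nat.rec (force (emx S i) fun mx => force (emy S i) fun my => imem K1 L ox oy mx my (fld S (Nat.add b 203) 262144))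
    (fun _ _ => force (fld S (Nat.add b 111) 16777216) fun px => force (fld S (Nat.add b 135) 16777216) fun py =>
      force (fld S (Nat.add b 159) 16) fun nx => force (fld S (Nat.add b 163) 16) fun pr =>
      force (fld S (Nat.add b 203) 262144) fun tp => force (fld S (Nat.add b 221) 262144) fun n1 =>
      force (fld S (Nat.add b 239) 262144) fun n2 => force (fld S (Nat.add b 257) 262144) fun n3 =>
      force (fld S (Nat.add b 275) 262144) fun r1 => force (fld S (Nat.add b 293) 262144) fun r2 =>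
      force (fld S (Nat.add b 311) 262144) fun r3 =>
      earchk K1 K2 B L S n ox oy wx wy vx vy i px py nx pr tp n1 n2 n3 r1 r2 r3) fl

/-- one sector -/
noncomputable def esecchk (K1 K2 B L M S n ox oy wx wy vx vy i : ℕ) : Bool :=
  force (Nat.mul 329 i) fun b =>
    band (force (fld S (Nat.add b 28) 262144) fun a => force (emx S i) fun mx => force (emy S i) fun my =>
        force (fld S (Nat.add b 167) 262144) fun tu => force (fld S (Nat.add b 185) 262144) fun tv =>
        outr K1 K2 B L M ox oy wx wy vx vy a mx my tu tv)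
      (force (fld S (Nat.add b 110) 2) fun fl => einn K1 K2 B L S n ox oy wx wy vx vy i b fl)

theorem esecchk_sound {C : Set P2} (hC : Convex ℝ C) {K1 K2 B L M S n ox oy wx wy vx vy i : ℕ}
    (hK1 : 0 < K1) (hK2 : 0 < K2) (hL : HIn C L) (hM : HOut C M) (ho : ctr K2 B ox oy ∈ C)
    (hI : Inn C (ctr K2 B ox oy)) (hu : Out C (ray K2 B ox oy wx wy)) (hi : i < n)
    (h : esecchk K1 K2 B L M S n ox oy wx wy vx vy i = true) :
    Out C (ray K2 B ox oy vx vy) ∧
      0 < cr (ray K2 B ox oy wx wy - ctr K2 B ox oy) (ray K2 B ox oy vx vy - ctr K2 B ox oy) ∧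
      ∀ x ∈ C, 0 ≤ cr (ray K2 B ox oy wx wy - ctr K2 B ox oy) (x - ctr K2 B ox oy) →
        0 ≤ cr (x - ctr K2 B ox oy) (ray K2 B ox oy vx vy - ctr K2 B ox oy) →
        ∃ s ∈ ecop K1 K2 B S n, ((K1 : ℝ) / K2) • x + s ∈ C := by
  simp only [esecchk, band_iff, force_eq] at h
  obtain ⟨g3, g6⟩ := h
  simp only [outr, band_iff, force_eq] at g3
  obtain ⟨f1, f2, f3, f4, f5⟩ := g3
  have hor := ray_cr (B := B) (ox := ox) (oy := oy) hK2 (gt0_sound f1)
  have hv : Out C (ray K2 B ox oy vx vy) := shd_sound hL hM f2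
  have hTu : ((K1 : ℝ) / K2) • ray K2 B ox oy wx wy + trn K1 K2 B (emx S i) (emy S i) ∈ C := by
    rw [ray, hom_pt hK2]; exact mem_sound hC hL f3
  have hTv : ((K1 : ℝ) / K2) • ray K2 B ox oy vx vy + trn K1 K2 B (emx S i) (emy S i) ∈ C := by
    rw [ray, hom_pt hK2]; exact mem_sound hC hL f5
  have hcap : 0 ≤ cr (ray K2 B ox oy vx vy - ray K2 B ox oy wx wy)
      (((K1 : ℝ) / K2) • ray K2 B ox oy wx wy + trn K1 K2 B (emx S i) (emy S i) - ray K2 B ox oy wx wy) := by
    have e : ((K1 : ℝ) / K2) • ray K2 B ox oy wx wy + trn K1 K2 B (emx S i) (emy S i) =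
      pt (K1 * (ox + 1024 * wx) + emx S i) (K1 * (oy + 1024 * wy) + emy S i) := by rw [ray, hom_pt hK2]
    rw [e]
    exact ge0_sound f4
  have hκ : (0 : ℝ) < (K1 : ℝ) / K2 := by
    have h1 : (0 : ℝ) < K1 := by exact_mod_cast hK1
    have h2 : (0 : ℝ) < K2 := by exact_mod_cast hK2
    positivity
  refine ⟨hv, hor, fun x hx k1 k2 => ?_⟩
  obtain ⟨α₁, α₂, a1, a2, hx'⟩ := sector_coords hor k1 k2
  rcases le_or_gt (α₁ + α₂) 1 with hs | hs
  · generalize hfl : fld S (Nat.add (Nat.mul 329 i) 110) 2 = fl at g6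
    cases fl with
    | zero =>
      have g7 : (force (emx S i) fun mx => force (emy S i) fun my =>
          imem K1 L ox oy mx my (fld S (Nat.add (Nat.mul 329 i) 203) 262144)) = true := g6
      simp only [force_eq] at g7
      have c1 := imem_sound (B := B) hC hK2 hL g7
      refine ⟨_, mem_ecop hi, ?_⟩
      have h3 := conv3 (convex_pre hC ((K1 : ℝ) / K2) (trn K1 K2 B (emx S i) (emy S i))) (x := ctr K2 B ox oy)
        (y := ray K2 B ox oy wx wy) (z := ray K2 B ox oy vx vy) c1 hTu hTv (a := 1 - α₁ - α₂) (b := α₁) (c := α₂)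
        (by linarith) a1 a2 (by ring)
      have e : x = (1 - α₁ - α₂) • ctr K2 B ox oy + α₁ • ray K2 B ox oy wx wy + α₂ • ray K2 B ox oy vx vy := by
        rw [hx']; module
      rw [e]
      exact h3
    | succ fl =>
      have g7 : (force (fld S (Nat.add (Nat.mul 329 i) 111) 16777216) fun px =>
        force (fld S (Nat.add (Nat.mul 329 i) 135) 16777216) fun py =>
        force (fld S (Nat.add (Nat.mul 329 i) 159) 16) fun nx => force (fld S (Nat.add (Nat.mul 329 i) 163) 16) fun pr =>
        force (fld S (Nat.add (Nat.mul 329 i) 203) 262144) fun tp =>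
        force (fld S (Nat.add (Nat.mul 329 i) 221) 262144) fun n1 =>
        force (fld S (Nat.add (Nat.mul 329 i) 239) 262144) fun n2 =>
        force (fld S (Nat.add (Nat.mul 329 i) 257) 262144) fun n3 =>
        force (fld S (Nat.add (Nat.mul 329 i) 275) 262144) fun r1 =>
        force (fld S (Nat.add (Nat.mul 329 i) 293) 262144) fun r2 =>
        force (fld S (Nat.add (Nat.mul 329 i) 311) 262144) fun r3 =>
        earchk K1 K2 B L S n ox oy wx wy vx vy i px py nx pr tp n1 n2 n3 r1 r2 r3) = true := g6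
      simp only [force_eq] at g7
      exact earchk_sound hC hK2 hL hi hor hTu hTv g7 a1 a2 hs hx'
  · refine ⟨_, mem_ecop hi, ?_⟩
    rw [hx'] at hx ⊢
    exact sec_outer hC hκ ho hI hu hv hor hTu hTv hcap a1 a2 hs hx

/-- all sectors -/
noncomputable def esecs (K1 K2 B L M S n ox oy zx zy r : ℕ) : ℕ → ℕ → ℕ → Bool :=
  Nat.rec (fun _ wx wy => band (Nat.beq wx zx) (Nat.beq wy zy))
    (fun _ ih i wx wy => force (evx S i) fun vx => force (evy S i) fun vy =>
      band (esecchk K1 K2 B L M S n ox oy wx wy vx vy i) (force (Nat.succ i) fun i' => ih i' vx vy)) r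

theorem esecs_sound {C : Set P2} (hC : Convex ℝ C) {K1 K2 B L M S n ox oy zx zy : ℕ}
    (hK1 : 0 < K1) (hK2 : 0 < K2) (hL : HIn C L) (hM : HOut C M) (ho : ctr K2 B ox oy ∈ C)
    (hI : Inn C (ctr K2 B ox oy)) (r : ℕ) :
    ∀ i wx wy : ℕ, i + r = n → esecs K1 K2 B L M S n ox oy zx zy r i wx wy = true →
      Out C (ray K2 B ox oy wx wy) →
      ∀ x ∈ C, (∃ t ∈ ecop K1 K2 B S n, ((K1 : ℝ) / K2) • x + t ∈ C) ∨
        (r = 0 ∧ ray K2 B ox oy wx wy = ray K2 B ox oy zx zy) ∨
        Inv (x - ctr K2 B ox oy) (ray K2 B ox oy wx wy - ctr K2 B ox oy) (ray K2 B ox oy zx zy - ctr K2 B ox oy) := by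
  induction r with
  | zero =>
    intro i wx wy _ h _ x _
    have h' : band (Nat.beq wx zx) (Nat.beq wy zy) = true := h
    rw [band_iff] at h'
    right; left
    rw [Nat.eq_of_beq_eq_true h'.1, Nat.eq_of_beq_eq_true h'.2]
    exact ⟨rfl, rfl⟩
  | succ r ih =>
    intro i wx wy hir h hu x hx
    have h' : (force (evx S i) fun vx => force (evy S i) fun vy =>
      band (esecchk K1 K2 B L M S n ox oy wx wy vx vy i)
        (force (Nat.succ i) fun i' => esecs K1 K2 B L M S n ox oy zx zy r i' vx vy)) = true := h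
    simp only [force_eq, band_iff] at h'
    obtain ⟨h1, h2⟩ := h'
    obtain ⟨hv, hor, hcov⟩ := esecchk_sound hC hK1 hK2 hL hM ho hI hu (by omega) h1
    by_cases hin : 0 ≤ cr (ray K2 B ox oy wx wy - ctr K2 B ox oy) (x - ctr K2 B ox oy) ∧
        0 ≤ cr (x - ctr K2 B ox oy) (ray K2 B ox oy (evx S i) (evy S i) - ctr K2 B ox oy)
    · left
      exact hcov x hx hin.1 hin.2
    · have hst := inv_step hor hin
      rcases ih _ _ _ (by rw [Nat.succ_eq_add_one]; omega) h2 hv x hx with h | ⟨_, h⟩ | h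
      · exact Or.inl h
      · right; right
        rw [← h]
        exact hst
      · right; right
        exact inv_trans hst h

/-- a leaf with ears -/
noncomputable def earleaf (K1 K2 B k L M s : ℕ) : Bool :=
  force (fld s 0 16777216) fun ox => force (fld s 24 16777216) fun oy => force (fld s 48 262144) fun t =>
  force (fld s 66 16) fun n => force (fld s 70 16384) fun wx =>
  force (fld s 84 16384) fun wy => force (fld s 98 262144) fun a =>
  band (Nat.ble (Nat.succ n) k)
    (band (force (Nat.add (Nat.mul K2 (Nat.add ox 8388608)) B) fun px =>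
        force (Nat.add (Nat.mul K2 (Nat.add oy 8388608)) B) fun py => inn L t px py)
      (band (force (Nat.add (Nat.mul K2 (Nat.add ox (Nat.mul 1024 wx))) B) fun ux =>
          force (Nat.add (Nat.mul K2 (Nat.add oy (Nat.mul 1024 wy))) B) fun uy => shd L M a ux uy)
        (force (Nat.shiftRight s 116) fun S => force (Nat.succ n) fun n' =>
          esecs K1 K2 B L M S n' ox oy wx wy n' 0 wx wy)))

theorem earleaf_sound {C : Set P2} (hC : Convex ℝ C) {K1 K2 B k L M s : ℕ} (hK1 : 0 < K1) (hK2 : 0 < K2)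
    (hL : HIn C L) (hM : HOut C M) (h : earleaf K1 K2 B k L M s = true) : Cov ((K1 : ℝ) / K2) k C := by
  simp only [earleaf, force_eq, band_iff] at h
  obtain ⟨h1, h2, h3, h4⟩ := h
  obtain ⟨ho, hI⟩ := inn_sound hC hL h2
  have hu := shd_sound hL hM h3
  refine ⟨ecop K1 K2 B (Nat.shiftRight s 116) (Nat.succ (fld s 66 16)), ?_, fun x hx => ?_⟩
  · rw [ecop, List.length_map, List.length_range]
    exact Nat.le_of_ble_eq_true h1
  · rcases esecs_sound hC hK1 hK2 hL hM ho hI _ _ _ _ (Nat.zero_add _) h4 hu x hx with h | ⟨h, _⟩ | h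
    · exact h
    · exact absurd h (Nat.succ_ne_zero _)
    · exact (inv_self h).elim

end HCV
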