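import Pool.Agent.HCV.Hex2

/-!
# Inscribed affine-regular hexagons, part 3: existence
-/

set_option autoImplicit false

open scoped Topology

namespace HCV

noncomputable def U (θ : ℝ) : P2 := (Real.cos θ, Real.sin θ)
noncomputable def V (θ : ℝ) : P2 := (-Real.sin θ, Real.cos θ)

theorem U_cont : Continuous U := by unfold U; fun_prop
theorem V_cont : Continuous V := by unfold V; fun_prop

theorem G_closed {C : Set P2} (hK : IsClosed C) :
    IsClosed {x : ℝ × Par | x.1 ∈ Set.Icc 0 Real.pi ∧ Feas C (U x.1) (V x.1) x.2} := by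
  have hU := U_cont
  have hV := V_cont
  have e : {x : ℝ × Par | x.1 ∈ Set.Icc 0 Real.pi ∧ Feas C (U x.1) (V x.1) x.2} =
      {x : ℝ × Par | x.1 ∈ Set.Icc 0 Real.pi} ∩ ({x : ℝ × Par | 0 ≤ x.2.2.2.2.1} ∩ ({x : ℝ × Par | 0 ≤ x.2.2.2.2.2} ∩
      ({x : ℝ × Par | W0 (U x.1) (V x.1) x.2 ∈ C} ∩ ({x : ℝ × Par | W1 (U x.1) (V x.1) x.2 ∈ C} ∩
      ({x : ℝ × Par | W2 (U x.1) (V x.1) x.2 ∈ C} ∩ ({x : ℝ × Par | W3 (U x.1) (V x.1) x.2 ∈ C} ∩
      ({x : ℝ × Par | W4 (U x.1) (V x.1) x.2 ∈ C} ∩ {x : ℝ × Par | W5 (U x.1) (V x.1) x.2 ∈ C}))))))) := by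
    ext x
    constructor
    · rintro ⟨h, h1, h2, h3, h4, h5, h6, h7, h8⟩
      exact ⟨h, h1, h2, h3, h4, h5, h6, h7, h8⟩
    · rintro ⟨h, h1, h2, h3, h4, h5, h6, h7, h8⟩
      exact ⟨h, h1, h2, h3, h4, h5, h6, h7, h8⟩
  rw [e]
  refine IsClosed.inter (isClosed_Icc.preimage continuous_fst) (IsClosed.inter ?_ (IsClosed.inter ?_ ?_))
  · exact isClosed_le continuous_const (by fun_prop)
  · exact isClosed_le continuous_const (by fun_prop)
  refine IsClosed.inter ?_ (IsClosed.inter ?_ (IsClosed.inter ?_ (IsClosed.inter ?_ (IsClosed.inter ?_ ?_))))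
  · refine hK.preimage ?_
    unfold W0; fun_prop
  · refine hK.preimage ?_
    unfold W1; fun_prop
  · refine hK.preimage ?_
    unfold W2; fun_prop
  · refine hK.preimage ?_
    unfold W3; fun_prop
  · refine hK.preimage ?_
    unfold W4; fun_prop
  · refine hK.preimage ?_
    unfold W5; fun_prop

theorem sq_bound {x M : ℝ} (hM : 0 ≤ M) (h : x ^ 2 ≤ M ^ 2) : x ∈ Set.Icc (-M) M := by
  have := abs_le_of_sq_le_sq' h hM
  exact this

theorem G_compact {C : Set P2} (hC : Convex ℝ C) (hK : IsCompact C) :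
    IsCompact {x : ℝ × Par | x.1 ∈ Set.Icc 0 Real.pi ∧ Feas C (U x.1) (V x.1) x.2} := by
  obtain ⟨R0, hR0⟩ := hK.isBounded.exists_norm_le
  set R := max R0 0 with hR
  have hR' : 0 ≤ R := le_max_right _ _
  have hB : ∀ x ∈ C, |x.1| ≤ R ∧ |x.2| ≤ R := by
    intro x hx
    have h1 := hR0 x hx
    exact ⟨((norm_fst_le x).trans h1).trans (le_max_left _ _), ((norm_snd_le x).trans h1).trans (le_max_left _ _)⟩
  refine IsCompact.of_isClosed_subset (s := Set.Icc 0 Real.pi ×ˢ (C ×ˢ (Set.Icc (-(3 * R)) (3 * R) ×ˢ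
    (Set.Icc (-(3 * R)) (3 * R) ×ˢ (Set.Icc (-(3 * R)) (3 * R) ×ˢ Set.Icc (-(3 * R)) (3 * R)))))) ?_
    (G_closed hK.isClosed) ?_
  · exact isCompact_Icc.prod (hK.prod (isCompact_Icc.prod (isCompact_Icc.prod (isCompact_Icc.prod isCompact_Icc))))
  · rintro ⟨θ, c, s, t, a, h⟩ ⟨hθ, ha, hh, w0, w1, w2, w3, w4, w5⟩
    have hcs := Real.sin_sq_add_cos_sq θ
    have hc : c ∈ C := by
      have h1 := hC w0 w3 (by norm_num : (0 : ℝ) ≤ 1 / 2) (by norm_num : (0 : ℝ) ≤ 1 / 2) (by norm_num)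
      convert h1 using 1
      simp only [W0, W3]; module
    obtain ⟨c1, c2⟩ := hB c hc
    have hmid : ∀ x y : P2, x ∈ C → y ∈ C → (1 / 2 : ℝ) • x + (1 / 2 : ℝ) • y ∈ C := fun x y hx hy =>
      hC hx hy (by norm_num) (by norm_num) (by norm_num)
    obtain ⟨m1, m2⟩ := hB _ (hmid _ _ w1 w2)
    obtain ⟨n1, n2⟩ := hB _ (hmid _ _ w4 w5)
    obtain ⟨p1, p2⟩ := hB _ w0
    obtain ⟨q1, q2⟩ := hB _ w3
    simp only [W0, W1, W2, W3, W4, W5, U, V, Prod.fst_add, Prod.snd_add, Prod.fst_sub, Prod.snd_sub, Prod.smul_fst,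
      Prod.smul_snd, smul_eq_mul, abs_le] at c1 c2 m1 m2 n1 n2 p1 p2 q1 q2
    set C0 := Real.cos θ
    set S0 := Real.sin θ
    have ea1 : a * C0 ≤ R ∧ -R ≤ a * C0 := by constructor <;> linarith [p1.1, p1.2, q1.1, q1.2]
    have ea2 : a * S0 ≤ R ∧ -R ≤ a * S0 := by constructor <;> linarith [p2.1, p2.2, q2.1, q2.2]
    have ea : a ^ 2 ≤ (3 * R) ^ 2 := by
      have h1 : (a * C0) ^ 2 ≤ R ^ 2 := sq_le_sq' ea1.2 ea1.1
      have h2 : (a * S0) ^ 2 ≤ R ^ 2 := sq_le_sq' ea2.2 ea2.1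
      have h3 : a ^ 2 = (a * C0) ^ 2 + (a * S0) ^ 2 := by linear_combination (-a ^ 2) * hcs
      nlinarith
    have ex1 : -h * S0 + s * C0 ≤ 2 * R ∧ -(2 * R) ≤ -h * S0 + s * C0 := by
      constructor <;> linarith [m1.1, m1.2, c1.1, c1.2]
    have ex2 : h * C0 + s * S0 ≤ 2 * R ∧ -(2 * R) ≤ h * C0 + s * S0 := by
      constructor <;> linarith [m2.1, m2.2, c2.1, c2.2]
    have ey1 : h * S0 + t * C0 ≤ 2 * R ∧ -(2 * R) ≤ h * S0 + t * C0 := by
      constructor <;> linarith [n1.1, n1.2, c1.1, c1.2]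
    have ey2 : -h * C0 + t * S0 ≤ 2 * R ∧ -(2 * R) ≤ -h * C0 + t * S0 := by
      constructor <;> linarith [n2.1, n2.2, c2.1, c2.2]
    have es : h ^ 2 + s ^ 2 ≤ 8 * R ^ 2 := by
      have h1 : (-h * S0 + s * C0) ^ 2 ≤ (2 * R) ^ 2 := sq_le_sq' ex1.2 ex1.1
      have h2 : (h * C0 + s * S0) ^ 2 ≤ (2 * R) ^ 2 := sq_le_sq' ex2.2 ex2.1
      have h3 : h ^ 2 + s ^ 2 = (-h * S0 + s * C0) ^ 2 + (h * C0 + s * S0) ^ 2 := by
        linear_combination (-(h ^ 2 + s ^ 2)) * hcs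
      nlinarith
    have et : h ^ 2 + t ^ 2 ≤ 8 * R ^ 2 := by
      have h1 : (h * S0 + t * C0) ^ 2 ≤ (2 * R) ^ 2 := sq_le_sq' ey1.2 ey1.1
      have h2 : (-h * C0 + t * S0) ^ 2 ≤ (2 * R) ^ 2 := sq_le_sq' ey2.2 ey2.1
      have h3 : h ^ 2 + t ^ 2 = (h * S0 + t * C0) ^ 2 + (-h * C0 + t * S0) ^ 2 := by
        linear_combination (-(h ^ 2 + t ^ 2)) * hcs
      nlinarith
    have hM : 0 ≤ 3 * R := by positivity
    refine ⟨hθ, hc, sq_bound hM ?_, sq_bound hM ?_, sq_bound hM ea, sq_bound hM ?_⟩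
    · nlinarith [sq_nonneg h]
    · nlinarith [sq_nonneg h]
    · nlinarith [sq_nonneg s]

theorem val_cont : Continuous val := by unfold val; fun_prop

theorem mx_exists {C : Set P2} (hC : Convex ℝ C) (hK : IsCompact C) (hne : C.Nonempty) {θ : ℝ}
    (hθ : θ ∈ Set.Icc 0 Real.pi) : ∃ p, IsMx C (U θ) (V θ) p := by
  have h1 : IsCompact {p : Par | Feas C (U θ) (V θ) p} := by
    have h2 := (G_compact hC hK).inter_right ((isClosed_singleton (x := θ)).preimage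
      (continuous_fst : Continuous (Prod.fst : ℝ × Par → ℝ)))
    have h3 := h2.image (continuous_snd : Continuous (Prod.snd : ℝ × Par → Par))
    convert h3 using 1
    ext p
    constructor
    · intro hp
      exact ⟨(θ, p), ⟨⟨hθ, hp⟩, rfl⟩, rfl⟩
    · rintro ⟨⟨θ', q⟩, ⟨⟨_, hq⟩, hθ'⟩, rfl⟩
      simp only [Set.mem_preimage, Set.mem_singleton_iff] at hθ'
      subst hθ'
      exact hq
  obtain ⟨z, hz⟩ := hne
  have h2 : {p : Par | Feas C (U θ) (V θ) p}.Nonempty := by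
    refine ⟨(z, 0, 0, 0, 0), le_rfl, le_rfl, ?_, ?_, ?_, ?_, ?_, ?_⟩ <;>
      simpa [W0, W1, W2, W3, W4, W5] using hz
  obtain ⟨p, hp, hmax⟩ := h1.exists_isMaxOn h2 val_cont.continuousOn
  exact ⟨p, hp, fun q hq => hmax hq⟩

theorem mx_pos {C : Set P2} (hi : (interior C).Nonempty) {u v : P2} {p : Par} (hp : IsMx C u v p) :
    0 < val p := by
  obtain ⟨z, hz⟩ := hi
  obtain ⟨κ, hκ, hb⟩ := int_ball hz u v
  have hf : Feas C u v (z, 0, 0, κ, κ) := by
    refine ⟨hκ.le, hκ.le, ?_, ?_, ?_, ?_, ?_, ?_⟩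
    · have := hb κ 0 (by rw [abs_of_pos hκ]) (by rw [abs_zero]; exact hκ.le)
      convert this using 1; simp only [W0]; module
    · have := hb (κ / 2) κ (by rw [abs_of_pos (by positivity)]; linarith) (by rw [abs_of_pos hκ])
      convert this using 1; simp only [W1]; module
    · have := hb (-(κ / 2)) κ (by rw [abs_neg, abs_of_pos (by positivity)]; linarith) (by rw [abs_of_pos hκ])
      convert this using 1; simp only [W2]; module
    · have := hb (-κ) 0 (by rw [abs_neg, abs_of_pos hκ]) (by rw [abs_zero]; exact hκ.le)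
      convert this using 1; simp only [W3]; module
    · have := hb (-(κ / 2)) (-κ) (by rw [abs_neg, abs_of_pos (by positivity)]; linarith)
        (by rw [abs_neg, abs_of_pos hκ])
      convert this using 1; simp only [W4]; module
    · have := hb (κ / 2) (-κ) (by rw [abs_of_pos (by positivity)]; linarith) (by rw [abs_neg, abs_of_pos hκ])
      convert this using 1; simp only [W5]; module
  refine lt_of_lt_of_le ?_ (hp.2 _ hf)
  simp only [val]
  positivity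

/-- the shrunken configuration -/
noncomputable def shr (z : P2) (δ : ℝ) (q : Par) : Par :=
  (δ • z + (1 - δ) • q.1, (1 - δ) * q.2.1, (1 - δ) * q.2.2.1, (1 - δ) * q.2.2.2.1, (1 - δ) * q.2.2.2.2)

theorem shr_feas {C : Set P2} (hC : Convex ℝ C) {z : P2} (hz : z ∈ interior C) {δ : ℝ} (h0 : 0 < δ) (h1 : δ < 1)
    {θ : ℝ} {q : Par} (hq : Feas C (U θ) (V θ) q) : ∀ᶠ θ' in 𝓝 θ, Feas C (U θ') (V θ') (shr z δ q) := by
  have hU := U_cont
  have hV := V_cont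
  have key : ∀ (F : ℝ → P2) (x : P2), Continuous F → x ∈ C → F θ = δ • z + (1 - δ) • x → ∀ᶠ θ' in 𝓝 θ, F θ' ∈ C := by
    intro F x hF hx he
    have h2 : F θ ∈ interior C := by
      rw [he]
      exact hC.combo_interior_self_mem_interior hz hx h0 (by linarith) (by ring)
    exact hF.continuousAt.eventually (mem_interior_iff_mem_nhds.1 h2)
  have k0 := key (fun θ' => W0 (U θ') (V θ') (shr z δ q)) _ (by unfold W0; fun_prop) hq.w0 (by
    simp only [W0, shr]; module)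
  have k1 := key (fun θ' => W1 (U θ') (V θ') (shr z δ q)) _ (by unfold W1; fun_prop) hq.w1 (by
    simp only [W1, shr]; module)
  have k2 := key (fun θ' => W2 (U θ') (V θ') (shr z δ q)) _ (by unfold W2; fun_prop) hq.w2 (by
    simp only [W2, shr]; module)
  have k3 := key (fun θ' => W3 (U θ') (V θ') (shr z δ q)) _ (by unfold W3; fun_prop) hq.w3 (by
    simp only [W3, shr]; module)
  have k4 := key (fun θ' => W4 (U θ') (V θ') (shr z δ q)) _ (by unfold W4; fun_prop) hq.w4 (by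
    simp only [W4, shr]; module)
  have k5 := key (fun θ' => W5 (U θ') (V θ') (shr z δ q)) _ (by unfold W5; fun_prop) hq.w5 (by
    simp only [W5, shr]; module)
  filter_upwards [k0, k1, k2, k3, k4, k5] with θ' j0 j1 j2 j3 j4 j5
  exact ⟨mul_nonneg (by linarith) hq.a0, mul_nonneg (by linarith) hq.h0, j0, j1, j2, j3, j4, j5⟩

theorem val_shr (z : P2) (δ : ℝ) (q : Par) : val (shr z δ q) = (1 - δ) ^ 2 * val q := by
  simp only [val, shr]; ring

theorem mx_closed {C : Set P2} (hC : Convex ℝ C) (hK : IsCompact C) (hi : (interior C).Nonempty) {D : Set Par}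
    (hD : IsClosed D) : IsClosed {θ : ℝ | θ ∈ Set.Icc 0 Real.pi ∧ ∃ p ∈ D, IsMx C (U θ) (V θ) p} := by
  obtain ⟨z, hz⟩ := hi
  refine IsSeqClosed.isClosed ?_
  intro x θ hx hlim
  choose hx1 p hpD hp using hx
  have hG : ∀ n, (x n, p n) ∈ {x : ℝ × Par | x.1 ∈ Set.Icc 0 Real.pi ∧ Feas C (U x.1) (V x.1) x.2} := fun n =>
    ⟨hx1 n, (hp n).1⟩
  obtain ⟨y, hy, φ, hφ, hlim2⟩ := (G_compact hC hK).tendsto_subseq hG
  have hy1 : y.1 = θ := by
    have h1 : Filter.Tendsto (fun n => x (φ n)) Filter.atTop (𝓝 y.1) :=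
      (continuous_fst.tendsto y).comp hlim2
    exact tendsto_nhds_unique h1 (hlim.comp hφ.tendsto_atTop)
  have hp2 : Filter.Tendsto (fun n => p (φ n)) Filter.atTop (𝓝 y.2) :=
    (continuous_snd.tendsto y).comp hlim2
  have hyD : y.2 ∈ D := hD.mem_of_tendsto hp2 (Filter.Eventually.of_forall fun n => hpD (φ n))
  obtain ⟨hy3, hy4⟩ := hy
  rw [hy1] at hy3 hy4
  refine ⟨hy3, y.2, hyD, hy4, fun q hq => ?_⟩
  by_contra hlt
  push Not at hlt
  have hy0 : 0 ≤ val y.2 := mul_nonneg hy4.a0 hy4.h0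
  have hq0 : 0 < val q := lt_of_le_of_lt hy0 hlt
  set δ := (val q - val y.2) / (4 * val q) with hδ
  have hδ0 : 0 < δ := div_pos (by linarith) (by positivity)
  have hδq : δ * (4 * val q) = val q - val y.2 := by rw [hδ]; field_simp
  have hδ1 : δ < 1 := by
    rw [hδ, div_lt_one (by positivity)]
    linarith
  have hev := shr_feas hC hz hδ0 hδ1 hq
  have hxφ : Filter.Tendsto (fun n => x (φ n)) Filter.atTop (𝓝 θ) := hlim.comp hφ.tendsto_atTop
  have hev2 := hxφ.eventually hev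
  have hle : val (shr z δ q) ≤ val y.2 := by
    refine ge_of_tendsto ((val_cont.tendsto y.2).comp hp2) ?_
    filter_upwards [hev2] with n hn
    exact (hp (φ n)).2 _ hn
  rw [val_shr] at hle
  nlinarith [sq_nonneg δ]

/-- EVERY PLANE CONVEX BODY HAS AN INSCRIBED AFFINE-REGULAR HEXAGON. -/
theorem exists_hex {C : Set P2} (hC : Convex ℝ C) (hK : IsCompact C) (hi : (interior C).Nonempty) :
    ∃ c e f : P2, 0 < e.1 * f.2 - e.2 * f.1 ∧
      (c + e ∈ C ∧ c + (e + f) ∈ C ∧ c + f ∈ C ∧ c - e ∈ C ∧ c - (e + f) ∈ C ∧ c - f ∈ C) ∧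
      (c + e ∉ interior C ∧ c + (e + f) ∉ interior C ∧ c + f ∉ interior C ∧ c - e ∉ interior C ∧
        c - (e + f) ∉ interior C ∧ c - f ∉ interior C) := by
  have hne : C.Nonempty := hi.mono interior_subset
  set Sp : Set ℝ := {θ : ℝ | θ ∈ Set.Icc 0 Real.pi ∧ ∃ p ∈ {p : Par | 0 ≤ p.2.1 + p.2.2.1}, IsMx C (U θ) (V θ) p}
  set Sm : Set ℝ := {θ : ℝ | θ ∈ Set.Icc 0 Real.pi ∧ ∃ p ∈ {p : Par | p.2.1 + p.2.2.1 ≤ 0}, IsMx C (U θ) (V θ) p}
  have hSp : IsClosed Sp := mx_closed hC hK hi (isClosed_le continuous_const (by fun_prop))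
  have hSm : IsClosed Sm := mx_closed hC hK hi (isClosed_le (by fun_prop) continuous_const)
  have hcov : Set.Icc 0 Real.pi ⊆ Sp ∪ Sm := by
    intro θ hθ
    obtain ⟨p, hp⟩ := mx_exists hC hK hne hθ
    rcases le_total 0 (p.2.1 + p.2.2.1) with h | h
    · exact Or.inl ⟨hθ, p, h, hp⟩
    · exact Or.inr ⟨hθ, p, h, hp⟩
  have h0 : (0 : ℝ) ∈ Set.Icc 0 Real.pi := ⟨le_rfl, Real.pi_pos.le⟩
  have hπ : Real.pi ∈ Set.Icc 0 Real.pi := ⟨Real.pi_pos.le, le_rfl⟩
  obtain ⟨p0, hp0⟩ := mx_exists hC hK hne h0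
  have hsym : IsMx C (U Real.pi) (V Real.pi) (sy1 (sy2 p0)) := by
    have h1 := mx_sy1 (mx_sy2 hp0)
    convert h1 using 1
    · simp [U]
    · simp [V]
  have hne1 : (Set.Icc 0 Real.pi ∩ Sp).Nonempty := by
    rcases le_total 0 (p0.2.1 + p0.2.2.1) with h | h
    · exact ⟨0, h0, h0, p0, h, hp0⟩
    · refine ⟨Real.pi, hπ, hπ, _, ?_, hsym⟩
      change 0 ≤ -p0.2.2.1 + -p0.2.1
      linarith
  have hne2 : (Set.Icc 0 Real.pi ∩ Sm).Nonempty := by
    rcases le_total 0 (p0.2.1 + p0.2.2.1) with h | h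
    · refine ⟨Real.pi, hπ, hπ, _, ?_, hsym⟩
      change -p0.2.2.1 + -p0.2.1 ≤ 0
      linarith
    · exact ⟨0, h0, h0, p0, h, hp0⟩
  obtain ⟨θ, hθ, ⟨_, p, hp1, hp⟩, ⟨_, q, hq1, hq⟩⟩ :=
    isPreconnected_closed_iff.1 isPreconnected_Icc Sp Sm hSp hSm hcov hne1 hne2
  have hp1' : 0 ≤ p.2.1 + p.2.2.1 := hp1
  have hq1' : q.2.1 + q.2.2.1 ≤ 0 := hq1
  -- a convex combination with sum zero
  obtain ⟨r, hr, hr0⟩ : ∃ r, IsMx C (U θ) (V θ) r ∧ r.2.1 + r.2.2.1 = 0 := by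
    by_cases hz : p.2.1 + p.2.2.1 - (q.2.1 + q.2.2.1) = 0
    · exact ⟨p, hp, by linarith⟩
    · have hpos : 0 < p.2.1 + p.2.2.1 - (q.2.1 + q.2.2.1) := lt_of_le_of_ne (by linarith) (Ne.symm hz)
      set w := p.2.1 + p.2.2.1 - (q.2.1 + q.2.2.1) with hw
      have h1 : 0 ≤ -(q.2.1 + q.2.2.1) / w := div_nonneg (by linarith) hpos.le
      have h2 : 0 ≤ (p.2.1 + p.2.2.1) / w := div_nonneg hp1' hpos.le
      have h3 : -(q.2.1 + q.2.2.1) / w + (p.2.1 + p.2.2.1) / w = 1 := by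
        rw [← add_div, div_eq_one_iff_eq hpos.ne']
        rw [hw]; ring
      refine ⟨_, mx_combo hC hp hq h1 h2 h3, ?_⟩
      simp only [Prod.snd_add, Prod.fst_add, Prod.smul_snd, Prod.smul_fst, smul_eq_mul]
      field_simp
      ring
  obtain ⟨n0, n1, n2, n3, n4, n5⟩ := mx_all hC hr (mx_pos hi hr)
  have hval := mx_pos hi hr
  obtain ⟨hf, _⟩ := hr
  obtain ⟨c, s, t, a, h⟩ := r
  simp only at hr0
  have ht : t = -s := by linarith
  subst ht
  obtain ⟨_, _, w0, w1, w2, w3, w4, w5⟩ := hf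
  have e1 : W1 (U θ) (V θ) (c, s, -s, a, h) = c + (a • U θ + (h • V θ + (s - a / 2) • U θ)) := by
    simp only [W1]; module
  have e2 : W2 (U θ) (V θ) (c, s, -s, a, h) = c + (h • V θ + (s - a / 2) • U θ) := by
    simp only [W2]; module
  have e4 : W4 (U θ) (V θ) (c, s, -s, a, h) = c - (a • U θ + (h • V θ + (s - a / 2) • U θ)) := by
    simp only [W4]; module
  have e5 : W5 (U θ) (V θ) (c, s, -s, a, h) = c - (h • V θ + (s - a / 2) • U θ) := by
    simp only [W5]; module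
  rw [e1] at w1 n1
  rw [e2] at w2 n2
  rw [e4] at w4 n4
  rw [e5] at w5 n5
  refine ⟨c, a • U θ, h • V θ + (s - a / 2) • U θ, ?_, ⟨w0, w1, w2, w3, w4, w5⟩, ⟨n0, n1, n2, n3, n4, n5⟩⟩
  have hcs := Real.sin_sq_add_cos_sq θ
  simp only [val] at hval
  simp only [U, V, Prod.fst_add, Prod.snd_add, Prod.smul_fst, Prod.smul_snd, smul_eq_mul]
  have : a * Real.cos θ * (h * Real.cos θ + (s - a / 2) * Real.sin θ) -
      a * Real.sin θ * (h * -Real.sin θ + (s - a / 2) * Real.cos θ) = a * h := by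
    linear_combination (a * h) * hcs
  rw [this]
  exact hval

end HCV
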