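import Pool.Agent.HCV.Chk3
import Pool.Agent.HCV.Hex3

/-!
# From the checker to the covering theorem
-/

set_option autoImplicit false

namespace HCV

/-- the Euclidean plane -/
abbrev E2 := EuclideanSpace ℝ (Fin 2)

/-- coordinates -/
noncomputable def fE (p : P2) : E2 := !₂[p.1, p.2]

noncomputable def gE (x : E2) : P2 := (x 0, x 1)

noncomputable def hE : P2 ≃ₜ E2 where
  toFun := fE
  invFun := gE
  left_inv p := by simp [fE, gE]
  right_inv x := by
    ext i
    fin_cases i <;> simp [fE, gE]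
  continuous_toFun := by
    unfold fE
    fun_prop
  continuous_invFun := by
    unfold gE
    fun_prop

theorem fE_add (p q : P2) : fE (p + q) = fE p + fE q := by
  ext i
  fin_cases i <;> simp [fE]

theorem fE_smul (a : ℝ) (p : P2) : fE (a • p) = a • fE p := by
  ext i
  fin_cases i <;> simp [fE]

/-- the affine map with `(0,0) ↦ c`, `(1,0) ↦ c + e`, `(0,1) ↦ c + f` after centering -/
noncomputable def psiF (Off T : ℝ) (c e f : P2) (N : P2) : P2 :=
  (c.1 + (N.1 - Off) / T * e.1 + (N.2 - Off) / T * f.1, c.2 + (N.1 - Off) / T * e.2 + (N.2 - Off) / T * f.2)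

noncomputable def psiG (Off T : ℝ) (c e f : P2) (p : P2) : P2 :=
  (((p.1 - c.1) * f.2 - (p.2 - c.2) * f.1) / (e.1 * f.2 - e.2 * f.1) * T + Off,
    (e.1 * (p.2 - c.2) - e.2 * (p.1 - c.1)) / (e.1 * f.2 - e.2 * f.1) * T + Off)

noncomputable def psi (Off T : ℝ) (c e f : P2) (hT : T ≠ 0) (hd : e.1 * f.2 - e.2 * f.1 ≠ 0) : P2 ≃ₜ P2 where
  toFun := psiF Off T c e f
  invFun := psiG Off T c e f
  left_inv N := by
    have key : ∀ n D z : ℝ, D ≠ 0 → n = (z - Off) / T * D → n / D * T + Off = z := by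
      intro n D z hD h
      rw [h]
      field_simp
      ring
    ext
    · refine key _ _ _ hd ?_
      simp only [psiF]
      ring
    · refine key _ _ _ hd ?_
      simp only [psiF]
      ring
  right_inv p := by
    have key : ∀ n : ℝ, (n * T + Off - Off) / T = n := by
      intro n
      rw [add_sub_cancel_right, mul_div_assoc, div_self hT, mul_one]
    have key2 : ∀ a n1 n2 D x y z : ℝ, D ≠ 0 → n1 * x + n2 * y = (z - a) * D → a + n1 / D * x + n2 / D * y = z := by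
      intro a n1 n2 D x y z hD h
      field_simp
      linarith
    ext
    · simp only [psiF, psiG, key]
      refine key2 _ _ _ _ _ _ _ hd ?_
      ring
    · simp only [psiF, psiG, key]
      refine key2 _ _ _ _ _ _ _ hd ?_
      ring
  continuous_toFun := by
    unfold psiF
    fun_prop
  continuous_invFun := by
    unfold psiG
    fun_prop

theorem psi_comb (Off T : ℝ) (c e f N N' : P2) (a b : ℝ) (hab : a + b = 1) :
    psiF Off T c e f (a • N + b • N') = a • psiF Off T c e f N + b • psiF Off T c e f N' := by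
  obtain rfl : b = 1 - a := by linarith
  simp only [psiF]
  ext
  · simp only [Prod.fst_add, Prod.snd_add, Prod.smul_fst, Prod.smul_snd, smul_eq_mul]
    ring
  · simp only [Prod.fst_add, Prod.snd_add, Prod.smul_fst, Prod.smul_snd, smul_eq_mul]
    ring

theorem psi_hom (Off T : ℝ) (c e f N s : P2) (κ : ℝ) :
    psiF Off T c e f (κ • N + s) = κ • psiF Off T c e f N + (psiF Off T c e f s - κ • psiF Off T c e f 0) := by
  simp only [psiF]
  ext
  · simp only [Prod.fst_add, Prod.snd_add, Prod.smul_fst, Prod.smul_snd, smul_eq_mul, Prod.fst_sub, Prod.snd_sub,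
      Prod.fst_zero, Prod.snd_zero]
    ring
  · simp only [Prod.fst_add, Prod.snd_add, Prod.smul_fst, Prod.smul_snd, smul_eq_mul, Prod.fst_sub, Prod.snd_sub,
      Prod.fst_zero, Prod.snd_zero]
    ring

/-- the vertices of the hexagon -/
def hexN (K1 K2 : ℕ) : List (ℕ × ℕ) :=
  [(K2 * 20971520 + K1 * 16777216, K2 * 16777216 + K1 * 16777216),
   (K2 * 20971520 + K1 * 16777216, K2 * 20971520 + K1 * 16777216),
   (K2 * 16777216 + K1 * 16777216, K2 * 20971520 + K1 * 16777216),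
   (K2 * 12582912 + K1 * 16777216, K2 * 16777216 + K1 * 16777216),
   (K2 * 12582912 + K1 * 16777216, K2 * 12582912 + K1 * 16777216),
   (K2 * 16777216 + K1 * 16777216, K2 * 12582912 + K1 * 16777216)]

theorem gx_mod (L i : ℕ) : gx L i = gx L (i % 64) := by
  have e : Nat.mod (i % 64) 64 = Nat.mod i 64 := Nat.mod_mod i 64
  simp only [gx, e]

theorem gy_mod (L i : ℕ) : gy L i = gy L (i % 64) := by
  have e : Nat.mod (i % 64) 64 = Nat.mod i 64 := Nat.mod_mod i 64
  simp only [gy, e]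

/-- covering of `C` by `k` homothetic copies of ratio `r` -/
def Covers (k : ℕ) (r : ℝ) (C : Set E2) : Prop :=
  ∃ x : Fin k → E2, C ⊆ ⋃ i, (fun y => x i + r • y) '' C

theorem psiF_hex {K1 K2 : ℕ} (hK2 : 0 < K2) {c e f : P2} {n m : ℕ} {h g : ℝ}
    (hn : (n : ℝ) = K2 * (16777216 + 4194304 * h) + K1 * 16777216)
    (hm : (m : ℝ) = K2 * (16777216 + 4194304 * g) + K1 * 16777216) :
    psiF (K2 * 16777216 + K1 * 16777216) (K2 * 4194304) c e f (pt n m) = c + h • e + g • f := by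
  have hK : (K2 : ℝ) * 4194304 ≠ 0 := by
    have : (K2 : ℝ) ≠ 0 := by exact_mod_cast hK2.ne'
    positivity
  have e1 : ((n : ℝ) - (K2 * 16777216 + K1 * 16777216)) / (K2 * 4194304) = h := by
    rw [hn, div_eq_iff hK]; ring
  have e2 : ((m : ℝ) - (K2 * 16777216 + K1 * 16777216)) / (K2 * 4194304) = g := by
    rw [hm, div_eq_iff hK]; ring
  simp only [psiF, pt]
  rw [e1, e2]
  rfl

theorem hex_all {K1 K2 : ℕ} (hK2 : 0 < K2) {c e f : P2} {P : P2 → Prop}
    (h1 : P (c + e)) (h2 : P (c + (e + f))) (h3 : P (c + f)) (h4 : P (c - e)) (h5 : P (c - (e + f))) (h6 : P (c - f))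
    {n m : ℕ} (h : (n, m) ∈ hexN K1 K2) :
    P (psiF (K2 * 16777216 + K1 * 16777216) (K2 * 4194304) c e f (pt n m)) := by
  simp only [hexN, List.mem_cons, Prod.mk.injEq, List.not_mem_nil, or_false] at h
  rcases h with ⟨rfl, rfl⟩ | ⟨rfl, rfl⟩ | ⟨rfl, rfl⟩ | ⟨rfl, rfl⟩ | ⟨rfl, rfl⟩ | ⟨rfl, rfl⟩
  · rw [psiF_hex (h := 1) (g := 0) hK2 (by push_cast; ring) (by push_cast; ring)]
    convert h1 using 1; module
  · rw [psiF_hex (h := 1) (g := 1) hK2 (by push_cast; ring) (by push_cast; ring)]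
    convert h2 using 1; module
  · rw [psiF_hex (h := 0) (g := 1) hK2 (by push_cast; ring) (by push_cast; ring)]
    convert h3 using 1; module
  · rw [psiF_hex (h := -1) (g := 0) hK2 (by push_cast; ring) (by push_cast; ring)]
    convert h4 using 1; module
  · rw [psiF_hex (h := -1) (g := -1) hK2 (by push_cast; ring) (by push_cast; ring)]
    convert h5 using 1; module
  · rw [psiF_hex (h := 0) (g := -1) hK2 (by push_cast; ring) (by push_cast; ring)]
    convert h6 using 1; module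

/-- hexagon data -/
def Hx (C : Set P2) (c e f : P2) : Prop :=
  e.1 * f.2 - e.2 * f.1 ≠ 0 ∧
    (c + e ∈ C ∧ c + (e + f) ∈ C ∧ c + f ∈ C ∧ c - e ∈ C ∧ c - (e + f) ∈ C ∧ c - f ∈ C) ∧
      (c + e ∉ interior C ∧ c + (e + f) ∉ interior C ∧ c + f ∉ interior C ∧ c - e ∉ interior C ∧
        c - (e + f) ∉ interior C ∧ c - f ∉ interior C)

theorem hx_rot {C : Set P2} {c e f : P2} (h : Hx C c e f) : Hx C c (e + f) (-e) := by
  obtain ⟨h0, ⟨i1, i2, i3, i4, i5, i6⟩, ⟨o1, o2, o3, o4, o5, o6⟩⟩ := h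
  have a1 : e + f + -e = f := by abel
  have a2 : c + -e = c - e := by abel
  have a3 : c - -e = c + e := by abel
  refine ⟨?_, ?_, ?_⟩
  · have : (e + f).1 * (-e).2 - (e + f).2 * (-e).1 = e.1 * f.2 - e.2 * f.1 := by
      simp only [Prod.fst_add, Prod.snd_add, Prod.fst_neg, Prod.snd_neg]
      ring
    rw [this]; exact h0
  · rw [a1, a2, a3]
    exact ⟨i2, i3, i4, i5, i6, i1⟩
  · rw [a1, a2, a3]
    exact ⟨o2, o3, o4, o5, o6, o1⟩

theorem hx_ref {C : Set P2} {c e f : P2} (h : Hx C c e f) : Hx C c (e + f) (-f) := by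
  obtain ⟨h0, ⟨i1, i2, i3, i4, i5, i6⟩, ⟨o1, o2, o3, o4, o5, o6⟩⟩ := h
  have a1 : e + f + -f = e := by abel
  have a2 : c + -f = c - f := by abel
  have a3 : c - -f = c + f := by abel
  refine ⟨?_, ?_, ?_⟩
  · have : (e + f).1 * (-f).2 - (e + f).2 * (-f).1 = -(e.1 * f.2 - e.2 * f.1) := by
      simp only [Prod.fst_add, Prod.snd_add, Prod.fst_neg, Prod.snd_neg]
      ring
    rw [this]; exact neg_ne_zero.2 h0
  · rw [a1, a2, a3]
    exact ⟨i2, i1, i6, i5, i4, i3⟩
  · rw [a1, a2, a3]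
    exact ⟨o2, o1, o6, o5, o4, o3⟩

/-- the six side directions -/
def DD (e f : P2) : Fin 6 → P2
  | 0 => (2 : ℝ) • e + f
  | 1 => e + (2 : ℝ) • f
  | 2 => -e + f
  | 3 => -((2 : ℝ) • e) - f
  | 4 => -e - (2 : ℝ) • f
  | 5 => e - f

theorem DD_rot (e f : P2) (j : Fin 6) : DD (e + f) (-e) j = DD e f (j + 1) := by
  fin_cases j
  · change (2 : ℝ) • (e + f) + -e = e + (2 : ℝ) • f; module
  · change e + f + (2 : ℝ) • (-e) = -e + f; module
  · change -(e + f) + -e = -((2 : ℝ) • e) - f; module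
  · change -((2 : ℝ) • (e + f)) - -e = -e - (2 : ℝ) • f; module
  · change -(e + f) - (2 : ℝ) • (-e) = e - f; module
  · change e + f - -e = (2 : ℝ) • e + f; module

theorem DD_ref (e f : P2) (j : Fin 6) : DD (e + f) (-f) j = DD e f (-j) := by
  fin_cases j
  · change (2 : ℝ) • (e + f) + -f = (2 : ℝ) • e + f; module
  · change e + f + (2 : ℝ) • (-f) = e - f; module
  · change -(e + f) + -f = -e - (2 : ℝ) • f; module
  · change -((2 : ℝ) • (e + f)) - -f = -((2 : ℝ) • e) - f; module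
  · change -(e + f) - (2 : ℝ) • (-f) = -e + f; module
  · change e + f - -f = e + (2 : ℝ) • f; module

/-- how far `C` reaches from `c` in direction `D` -/
def Sx (C : Set P2) (c D : P2) : Set ℝ := {r | 0 ≤ r ∧ c + r • D ∈ C}

theorem Sx_lower {C : Set P2} (hC : Convex ℝ C) {c D : P2} (hc : c ∈ C) {r r' : ℝ} (h : r ∈ Sx C c D) (h0 : 0 ≤ r')
    (h1 : r' ≤ r) : r' ∈ Sx C c D := by
  refine ⟨h0, ?_⟩
  rcases h.1.eq_or_lt with h2 | h2
  · have : r' = r := by linarith
    rw [this]; exact h.2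
  · have h3 := hC hc h.2 (a := 1 - r' / r) (b := r' / r) (by
      have : r' / r ≤ 1 := by rw [div_le_one h2]; exact h1
      linarith) (div_nonneg h0 h2.le) (by ring)
    convert h3 using 1
    have e : r' = r' / r * r := by field_simp
    conv_lhs => rw [e]
    module

theorem Sx_total {C : Set P2} (hC : Convex ℝ C) {c : P2} (hc : c ∈ C) (D D' : P2) :
    Sx C c D ⊆ Sx C c D' ∨ Sx C c D' ⊆ Sx C c D := by
  by_contra h
  push Not at h
  obtain ⟨h1, h2⟩ := h
  obtain ⟨a, ha, ha'⟩ := Set.not_subset.1 h1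
  obtain ⟨b, hb, hb'⟩ := Set.not_subset.1 h2
  rcases le_total a b with h3 | h3
  · exact ha' (Sx_lower hC hc hb ha.1 h3)
  · exact hb' (Sx_lower hC hc ha hb.1 h3)

theorem rot_iter {C : Set P2} {c : P2} (n : ℕ) : ∀ e f : P2, Hx C c e f →
    ∃ e' f', Hx C c e' f' ∧ ∀ j, DD e' f' j = DD e f (j + n • (1 : Fin 6)) := by
  induction n with
  | zero => intro e f h; exact ⟨e, f, h, fun j => by simp⟩
  | succ n ih =>
    intro e f h
    obtain ⟨e', f', h', hj⟩ := ih _ _ (hx_rot h)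
    refine ⟨e', f', h', fun j => ?_⟩
    rw [hj, DD_rot, add_assoc, succ_nsmul]

/-- hexagon data with the ordering of the side directions -/
theorem exists_ord {C : Set P2} (hC : Convex ℝ C) (hK : IsCompact C) (hi : (interior C).Nonempty) :
    ∃ c e f : P2, Hx C c e f ∧ (∀ j, Sx C c (DD e f j) ⊆ Sx C c (DD e f 0)) ∧
      Sx C c (DD e f 5) ⊆ Sx C c (DD e f 1) := by
  obtain ⟨c, e, f, hdet, hin, hout⟩ := exists_hex hC hK hi
  have hx : Hx C c e f := ⟨hdet.ne', hin, hout⟩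
  have hc : c ∈ C := by
    have := hC hin.1 hin.2.2.2.1 (a := 1 / 2) (b := 1 / 2) (by norm_num) (by norm_num) (by norm_num)
    convert this using 1
    module
  obtain ⟨i, -, hmax⟩ := (Finset.univ : Finset (Fin 6)).exists_maximalFor (fun j => Sx C c (DD e f j))
    ⟨0, Finset.mem_univ _⟩
  have hmax' : ∀ j, Sx C c (DD e f j) ⊆ Sx C c (DD e f i) := by
    intro j
    rcases Sx_total hC hc (DD e f j) (DD e f i) with h | h
    · exact h
    · exact hmax (Finset.mem_univ j) h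
  obtain ⟨e', f', h', hj⟩ := rot_iter (C := C) (c := c) (i : ℕ) e f hx
  have e0 : (i : ℕ) • (1 : Fin 6) = i := by fin_cases i <;> rfl
  rw [e0] at hj
  have hm : ∀ j, Sx C c (DD e' f' j) ⊆ Sx C c (DD e' f' 0) := by
    intro j
    rw [hj j, hj 0, zero_add]
    exact hmax' _
  rcases Sx_total hC hc (DD e' f' 5) (DD e' f' 1) with h | h
  · exact ⟨c, e', f', h', hm, h⟩
  · refine ⟨c, e' + f', -f', hx_ref h', fun j => ?_, ?_⟩
    · rw [DD_ref, DD_ref, neg_zero]
      exact hm _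
    · rw [DD_ref, DD_ref]
      exact h

theorem psiF_pp {K1 K2 : ℕ} (hK2 : 0 < K2) {c e f : P2} {w : ℕ} (hw : 2 * w ≤ K2 * 16777216 + K1 * 16777216)
    (j : Fin 6) :
    psiF (K2 * 16777216 + K1 * 16777216) (K2 * 4194304) c e f (PP (K2 * 16777216 + K1 * 16777216) w j) =
      c + ((w : ℝ) / (K2 * 4194304)) • DD e f j := by
  have c1 : ((K2 * 16777216 + K1 * 16777216 - w : ℕ) : ℝ) = (K2 : ℝ) * 16777216 + K1 * 16777216 - w := by
    rw [Nat.cast_sub (by omega)]; push_cast; ring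
  have c2 : ((K2 * 16777216 + K1 * 16777216 - 2 * w : ℕ) : ℝ) = (K2 : ℝ) * 16777216 + K1 * 16777216 - 2 * w := by
    rw [Nat.cast_sub hw]; push_cast; ring
  have c3 : ((K2 * 16777216 + K1 * 16777216 + w : ℕ) : ℝ) = (K2 : ℝ) * 16777216 + K1 * 16777216 + w := by
    push_cast; ring
  have c4 : ((K2 * 16777216 + K1 * 16777216 + 2 * w : ℕ) : ℝ) = (K2 : ℝ) * 16777216 + K1 * 16777216 + 2 * w := by
    push_cast; ring
  fin_cases j
  · change psiF _ _ c e f (pt (K2 * 16777216 + K1 * 16777216 + 2 * w) (K2 * 16777216 + K1 * 16777216 + w)) =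
      c + ((w : ℝ) / (K2 * 4194304)) • ((2 : ℝ) • e + f)
    simp only [psiF, pt, c3, c4]
    ext
    · simp only [Prod.fst_add, Prod.smul_fst, smul_eq_mul]; ring
    · simp only [Prod.snd_add, Prod.smul_snd, smul_eq_mul]; ring
  · change psiF _ _ c e f (pt (K2 * 16777216 + K1 * 16777216 + w) (K2 * 16777216 + K1 * 16777216 + 2 * w)) =
      c + ((w : ℝ) / (K2 * 4194304)) • (e + (2 : ℝ) • f)
    simp only [psiF, pt, c3, c4]
    ext
    · simp only [Prod.fst_add, Prod.smul_fst, smul_eq_mul]; ring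
    · simp only [Prod.snd_add, Prod.smul_snd, smul_eq_mul]; ring
  · change psiF _ _ c e f (pt (K2 * 16777216 + K1 * 16777216 - w) (K2 * 16777216 + K1 * 16777216 + w)) =
      c + ((w : ℝ) / (K2 * 4194304)) • (-e + f)
    simp only [psiF, pt, c1, c3]
    ext
    · simp only [Prod.fst_add, Prod.smul_fst, Prod.fst_neg, smul_eq_mul]; ring
    · simp only [Prod.snd_add, Prod.smul_snd, Prod.snd_neg, smul_eq_mul]; ring
  · change psiF _ _ c e f (pt (K2 * 16777216 + K1 * 16777216 - 2 * w) (K2 * 16777216 + K1 * 16777216 - w)) =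
      c + ((w : ℝ) / (K2 * 4194304)) • (-((2 : ℝ) • e) - f)
    simp only [psiF, pt, c1, c2]
    ext
    · simp only [Prod.fst_add, Prod.smul_fst, Prod.fst_neg, Prod.fst_sub, smul_eq_mul]; ring
    · simp only [Prod.snd_add, Prod.smul_snd, Prod.snd_neg, Prod.snd_sub, smul_eq_mul]; ring
  · change psiF _ _ c e f (pt (K2 * 16777216 + K1 * 16777216 - w) (K2 * 16777216 + K1 * 16777216 - 2 * w)) =
      c + ((w : ℝ) / (K2 * 4194304)) • (-e - (2 : ℝ) • f)
    simp only [psiF, pt, c1, c2]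
    ext
    · simp only [Prod.fst_add, Prod.smul_fst, Prod.fst_neg, Prod.fst_sub, smul_eq_mul]; ring
    · simp only [Prod.snd_add, Prod.smul_snd, Prod.snd_neg, Prod.snd_sub, smul_eq_mul]; ring
  · change psiF _ _ c e f (pt (K2 * 16777216 + K1 * 16777216 + w) (K2 * 16777216 + K1 * 16777216 - w)) =
      c + ((w : ℝ) / (K2 * 4194304)) • (e - f)
    simp only [psiF, pt, c1, c3]
    ext
    · simp only [Prod.fst_add, Prod.smul_fst, Prod.fst_sub, smul_eq_mul]; ring
    · simp only [Prod.snd_add, Prod.smul_snd, Prod.snd_sub, smul_eq_mul]; ring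

/-- the theorem in coordinates -/
theorem cov_of_good {K1 K2 k : ℕ} (hK2 : 0 < K2) {L0 : ℕ}
    (hL0 : ∀ i < 64, (gx L0 i, gy L0 i) ∈ hexN K1 K2)
    (hG : Good K1 K2 (K2 * 16777216 + K1 * 16777216) k L0 L0)
    {C : Set P2} (hC : Convex ℝ C) (hK : IsCompact C) (hi : (interior C).Nonempty) : Cov ((K1 : ℝ) / K2) k C := by
  obtain ⟨c, e, f, ⟨hdet, hin, hout⟩, hord, hord'⟩ := exists_ord hC hK hi
  have hT : (K2 : ℝ) * 4194304 ≠ 0 := by
    have : (K2 : ℝ) ≠ 0 := by exact_mod_cast hK2.ne'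
    positivity
  set ψ := psi (K2 * 16777216 + K1 * 16777216) (K2 * 4194304) c e f hT hdet with hψ
  have hψe : ∀ N, ψ N = psiF (K2 * 16777216 + K1 * 16777216) (K2 * 4194304) c e f N := fun N => rfl
  have hDc : Convex ℝ (ψ ⁻¹' C) := by
    intro x hx y hy a b ha hb hab
    rw [Set.mem_preimage, hψe, psi_comb _ _ _ _ _ _ _ _ _ hab, ← hψe, ← hψe]
    exact hC hx hy ha hb hab
  have hDi : (interior (ψ ⁻¹' C)).Nonempty := by
    rw [← ψ.preimage_interior]
    obtain ⟨z, hz⟩ := hi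
    exact ⟨ψ.symm z, by rw [Set.mem_preimage, ψ.apply_symm_apply]; exact hz⟩
  obtain ⟨i1, i2, i3, i4, i5, i6⟩ := hin
  obtain ⟨o1, o2, o3, o4, o5, o6⟩ := hout
  have hI : HIn (ψ ⁻¹' C) L0 := by
    intro i
    rw [gx_mod, gy_mod, Set.mem_preimage, hψe]
    exact hex_all (P := fun p => p ∈ C) hK2 i1 i2 i3 i4 i5 i6 (hL0 _ (Nat.mod_lt _ (by norm_num)))
  have hO : HOut (ψ ⁻¹' C) L0 := by
    intro i
    refine out_of_notMem hDc hDi ?_
    rw [← ψ.preimage_interior, Set.mem_preimage, gx_mod, gy_mod, hψe]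
    exact hex_all (P := fun p => p ∉ interior C) hK2 o1 o2 o3 o4 o5 o6 (hL0 _ (Nat.mod_lt _ (by norm_num)))
  have hOrd : Ord (K2 * 16777216 + K1 * 16777216) (ψ ⁻¹' C) := by
    intro w hw
    have hpos : (0 : ℝ) ≤ (w : ℝ) / (K2 * 4194304) := by positivity
    have key : ∀ j : Fin 6, PP (K2 * 16777216 + K1 * 16777216) w j ∈ ψ ⁻¹' C ↔
        (w : ℝ) / (K2 * 4194304) ∈ Sx C c (DD e f j) := by
      intro j
      rw [Set.mem_preimage, hψe, psiF_pp hK2 hw]
      exact ⟨fun h => ⟨hpos, h⟩, fun h => h.2⟩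
    refine ⟨fun j hj h => ?_, fun h => ?_⟩
    · exact (key 0).2 (hord ⟨j, hj⟩ ((key ⟨j, hj⟩).1 h))
    · exact (key 1).2 (hord' ((key 5).1 h))
  obtain ⟨L, hL, hcov⟩ := hG _ hDc hDi hOrd hI hO
  refine ⟨L.map fun s => ψ s - ((K1 : ℝ) / K2) • ψ 0, by rw [List.length_map]; exact hL, fun x hx => ?_⟩
  obtain ⟨s, hs, h⟩ := hcov (ψ.symm x) (by rw [Set.mem_preimage, ψ.apply_symm_apply]; exact hx)
  refine ⟨_, List.mem_map.2 ⟨s, hs, rfl⟩, ?_⟩
  rw [Set.mem_preimage, hψe, psi_hom, ← hψe, ← hψe, ← hψe, ψ.apply_symm_apply] at h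
  exact h

theorem covers_of_cov {κ : ℝ} (hκ : 0 < κ) {k : ℕ} {C : Set E2} (h : Cov κ k (hE ⁻¹' C)) : Covers k κ⁻¹ C := by
  obtain ⟨L, hL, hcov⟩ := h
  refine ⟨fun i => if h : (i : ℕ) < L.length then -(κ⁻¹ • fE (L.get ⟨i, h⟩)) else 0, fun x hx => ?_⟩
  obtain ⟨s, hs, h⟩ := hcov (hE.symm x) (by rw [Set.mem_preimage, hE.apply_symm_apply]; exact hx)
  obtain ⟨j, hj⟩ := List.get_of_mem hs
  rw [Set.mem_iUnion]
  refine ⟨⟨j, lt_of_lt_of_le j.2 hL⟩, ⟨_, h, ?_⟩⟩
  have e1 : hE (κ • hE.symm x + s) = κ • x + fE s := by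
    change fE (κ • hE.symm x + s) = _
    rw [fE_add, fE_smul]
    congr 2
    exact hE.apply_symm_apply x
  simp only [e1, j.2, dif_pos]
  rw [hj, smul_add, smul_smul, inv_mul_cancel₀ hκ.ne', one_smul]
  abel

/-- the main theorem for one `k` -/
theorem covers_of_good {K1 K2 k : ℕ} (hK1 : 0 < K1) (hK2 : 0 < K2) {L0 : ℕ}
    (hL0 : ∀ i < 64, (gx L0 i, gy L0 i) ∈ hexN K1 K2) (hG : Good K1 K2 (K2 * 16777216 + K1 * 16777216) k L0 L0)
    {C : Set E2} (hC : Convex ℝ C) (hK : IsCompact C) (hi : (interior C).Nonempty) :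
    Covers k ((K2 : ℝ) / K1) C := by
  have hc : Convex ℝ (hE ⁻¹' C) := by
    intro x hx y hy a b ha hb hab
    rw [Set.mem_preimage]
    change fE (a • x + b • y) ∈ C
    rw [fE_add, fE_smul, fE_smul]
    exact hC hx hy ha hb hab
  have hk : IsCompact (hE ⁻¹' C) := hE.isCompact_preimage.2 hK
  have hi' : (interior (hE ⁻¹' C)).Nonempty := by
    rw [← hE.preimage_interior]
    obtain ⟨z, hz⟩ := hi
    exact ⟨hE.symm z, by rw [Set.mem_preimage, hE.apply_symm_apply]; exact hz⟩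
  have h := covers_of_cov (C := C) (by
    have h1 : (0 : ℝ) < K1 := by exact_mod_cast hK1
    have h2 : (0 : ℝ) < K2 := by exact_mod_cast hK2
    positivity) (cov_of_good hK2 hL0 hG hc hk hi')
  rwa [inv_div] at h

end HCV
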