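import Mathlib

/-!
# Inscribed affine-regular hexagons, part 1: configurations

For a direction `u` and a transversal direction `v` we consider the hexagons with vertices
`c ± a u`, `c + h v + (s ± a/2) u`, `c - h v + (t ± a/2) u` in a plane convex body `C` and maximise `a h`.
-/

set_option autoImplicit false

namespace HCV

/-- the plane -/
abbrev P2 := ℝ × ℝ

/-- parameters `(c, s, t, a, h)` -/
abbrev Par := (ℝ × ℝ) × ℝ × ℝ × ℝ × ℝ

noncomputable def W0 (u _v : P2) (p : Par) : P2 := p.1 + p.2.2.2.1 • u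
noncomputable def W3 (u _v : P2) (p : Par) : P2 := p.1 - p.2.2.2.1 • u
noncomputable def W1 (u v : P2) (p : Par) : P2 := p.1 + p.2.2.2.2 • v + (p.2.1 + p.2.2.2.1 / 2) • u
noncomputable def W2 (u v : P2) (p : Par) : P2 := p.1 + p.2.2.2.2 • v + (p.2.1 - p.2.2.2.1 / 2) • u
noncomputable def W5 (u v : P2) (p : Par) : P2 := p.1 - p.2.2.2.2 • v + (p.2.2.1 + p.2.2.2.1 / 2) • u
noncomputable def W4 (u v : P2) (p : Par) : P2 := p.1 - p.2.2.2.2 • v + (p.2.2.1 - p.2.2.2.1 / 2) • u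

structure Feas (C : Set P2) (u v : P2) (p : Par) : Prop where
  a0 : 0 ≤ p.2.2.2.1
  h0 : 0 ≤ p.2.2.2.2
  w0 : W0 u v p ∈ C
  w1 : W1 u v p ∈ C
  w2 : W2 u v p ∈ C
  w3 : W3 u v p ∈ C
  w4 : W4 u v p ∈ C
  w5 : W5 u v p ∈ C

def val (p : Par) : ℝ := p.2.2.2.1 * p.2.2.2.2

def IsMx (C : Set P2) (u v : P2) (p : Par) : Prop :=
  Feas C u v p ∧ ∀ q, Feas C u v q → val q ≤ val p

/-- the symmetry `(u, v) → (-u, v)` -/
def sy1 (p : Par) : Par := (p.1, -p.2.1, -p.2.2.1, p.2.2.2.1, p.2.2.2.2)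

/-- the symmetry `(u, v) → (u, -v)` -/
def sy2 (p : Par) : Par := (p.1, p.2.2.1, p.2.1, p.2.2.2.1, p.2.2.2.2)

theorem feas_sy1 {C : Set P2} {u v : P2} {p : Par} (h : Feas C u v p) : Feas C (-u) v (sy1 p) := by
  obtain ⟨h1, h2, h3, h4, h5, h6, h7, h8⟩ := h
  refine ⟨h1, h2, ?_, ?_, ?_, ?_, ?_, ?_⟩
  · convert h6 using 1; simp [W0, W3, sy1]; abel
  · convert h5 using 1; simp only [W1, W2, sy1]; module
  · convert h4 using 1; simp only [W1, W2, sy1]; module
  · convert h3 using 1; simp [W0, W3, sy1]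
  · convert h8 using 1; simp only [W4, W5, sy1]; module
  · convert h7 using 1; simp only [W4, W5, sy1]; module

theorem feas_sy2 {C : Set P2} {u v : P2} {p : Par} (h : Feas C u v p) : Feas C u (-v) (sy2 p) := by
  obtain ⟨h1, h2, h3, h4, h5, h6, h7, h8⟩ := h
  refine ⟨h1, h2, ?_, ?_, ?_, ?_, ?_, ?_⟩
  · exact h3
  · convert h8 using 1; simp only [W1, W5, sy2]; module
  · convert h7 using 1; simp only [W2, W4, sy2]; module
  · exact h6
  · convert h5 using 1; simp only [W2, W4, sy2]; module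
  · convert h4 using 1; simp only [W1, W5, sy2]; module

theorem sy1_sy1 (p : Par) : sy1 (sy1 p) = p := by simp [sy1]
theorem sy2_sy2 (p : Par) : sy2 (sy2 p) = p := by simp [sy2]
theorem val_sy1 (p : Par) : val (sy1 p) = val p := rfl
theorem val_sy2 (p : Par) : val (sy2 p) = val p := rfl

theorem mx_sy1 {C : Set P2} {u v : P2} {p : Par} (h : IsMx C u v p) : IsMx C (-u) v (sy1 p) := by
  refine ⟨feas_sy1 h.1, fun q hq => ?_⟩
  have h1 := feas_sy1 hq
  rw [neg_neg] at h1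
  have h2 := h.2 _ h1
  rwa [val_sy1] at h2

theorem mx_sy2 {C : Set P2} {u v : P2} {p : Par} (h : IsMx C u v p) : IsMx C u (-v) (sy2 p) := by
  refine ⟨feas_sy2 h.1, fun q hq => ?_⟩
  have h1 := feas_sy2 hq
  rw [neg_neg] at h1
  have h2 := h.2 _ h1
  rwa [val_sy2] at h2

/-- convexity of the set of maximisers -/
theorem feas_combo {C : Set P2} (hC : Convex ℝ C) {u v : P2} {p q : Par} (hp : Feas C u v p) (hq : Feas C u v q)
    {s t : ℝ} (hs : 0 ≤ s) (ht : 0 ≤ t) (hst : s + t = 1) : Feas C u v (s • p + t • q) := by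
  have ht' : t = 1 - s := by linarith
  refine ⟨?_, ?_, ?_, ?_, ?_, ?_, ?_, ?_⟩
  · have := mul_nonneg hs hp.a0
    have := mul_nonneg ht hq.a0
    simp only [Prod.snd_add, Prod.fst_add, Prod.smul_snd, Prod.smul_fst, smul_eq_mul]
    linarith
  · have := mul_nonneg hs hp.h0
    have := mul_nonneg ht hq.h0
    simp only [Prod.snd_add, Prod.smul_snd, smul_eq_mul]
    linarith
  · convert hC hp.w0 hq.w0 hs ht hst using 1
    simp only [W0, Prod.snd_add, Prod.fst_add, Prod.smul_snd, Prod.smul_fst, smul_eq_mul]; module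
  · convert hC hp.w1 hq.w1 hs ht hst using 1
    simp only [W1, Prod.snd_add, Prod.fst_add, Prod.smul_snd, Prod.smul_fst, smul_eq_mul]; module
  · convert hC hp.w2 hq.w2 hs ht hst using 1
    simp only [W2, Prod.snd_add, Prod.fst_add, Prod.smul_snd, Prod.smul_fst, smul_eq_mul]; module
  · convert hC hp.w3 hq.w3 hs ht hst using 1
    simp only [W3, Prod.snd_add, Prod.fst_add, Prod.smul_snd, Prod.smul_fst, smul_eq_mul]; module
  · convert hC hp.w4 hq.w4 hs ht hst using 1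
    simp only [W4, Prod.snd_add, Prod.fst_add, Prod.smul_snd, Prod.smul_fst, smul_eq_mul]; module
  · convert hC hp.w5 hq.w5 hs ht hst using 1
    simp only [W5, Prod.snd_add, Prod.fst_add, Prod.smul_snd, Prod.smul_fst, smul_eq_mul]; module

theorem mx_combo {C : Set P2} (hC : Convex ℝ C) {u v : P2} {p q : Par} (hp : IsMx C u v p) (hq : IsMx C u v q)
    {s t : ℝ} (hs : 0 ≤ s) (ht : 0 ≤ t) (hst : s + t = 1) : IsMx C u v (s • p + t • q) := by
  refine ⟨feas_combo hC hp.1 hq.1 hs ht hst, fun r hr => ?_⟩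
  have h1 : val p = val q := le_antisymm (hq.2 p hp.1) (hp.2 q hq.1)
  refine (hp.2 r hr).trans ?_
  have ha1 := hp.1.a0
  have hh1 := hp.1.h0
  have ha2 := hq.1.a0
  have hh2 := hq.1.h0
  have hv1 : val p = p.2.2.2.1 * p.2.2.2.2 := rfl
  have hv2 : val q = q.2.2.2.1 * q.2.2.2.2 := rfl
  have hv : val (s • p + t • q) = (s * p.2.2.2.1 + t * q.2.2.2.1) * (s * p.2.2.2.2 + t * q.2.2.2.2) := rfl
  rw [hv]
  set a1 := p.2.2.2.1
  set b1 := p.2.2.2.2
  set a2 := q.2.2.2.1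
  set b2 := q.2.2.2.2
  -- a1 b2 + a2 b1 ≥ 2 A
  have hA : 0 ≤ val p := by rw [hv1]; exact mul_nonneg ha1 hh1
  have h2 : 2 * val p ≤ a1 * b2 + a2 * b1 := by
    have h3 : (2 * val p) ^ 2 ≤ (a1 * b2 + a2 * b1) ^ 2 := by
      have h4 : (2 * val p) ^ 2 = 4 * ((a1 * b1) * (a2 * b2)) := by
        rw [← hv1, ← hv2, ← h1]; ring
      rw [h4]
      nlinarith [sq_nonneg (a1 * b2 - a2 * b1)]
    exact (pow_le_pow_iff_left₀ (by positivity) (by positivity) two_ne_zero).1 h3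
  have h5 : t = 1 - s := by linarith
  calc val p = (s + t) ^ 2 * val p := by rw [hst]; ring
    _ = s ^ 2 * (a1 * b1) + t ^ 2 * (a2 * b2) + s * t * (2 * val p) := by
      rw [← hv1, ← hv2, ← h1]; ring
    _ ≤ s ^ 2 * (a1 * b1) + t ^ 2 * (a2 * b2) + s * t * (a1 * b2 + a2 * b1) := by
      have := mul_le_mul_of_nonneg_left h2 (mul_nonneg hs ht)
      linarith
    _ = (s * a1 + t * a2) * (s * b1 + t * b2) := by ring

end HCV
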