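import Pool.Agent.HCV.Hex1

/-!
# Inscribed affine-regular hexagons, part 2: the vertices of a maximal hexagon are not interior
-/

set_option autoImplicit false

open scoped Topology

namespace HCV

theorem int_ball {C : Set P2} {x : P2} (hx : x ∈ interior C) (u v : P2) :
    ∃ κ : ℝ, 0 < κ ∧ ∀ r s : ℝ, |r| ≤ κ → |s| ≤ κ → x + r • u + s • v ∈ C := by
  have hc : Continuous (fun y : ℝ × ℝ => x + y.1 • u + y.2 • v) := by fun_prop
  have h0 : x + ((0 : ℝ), (0 : ℝ)).1 • u + ((0 : ℝ), (0 : ℝ)).2 • v = x := by simp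
  have h1 : ∀ᶠ y in 𝓝 ((0 : ℝ), (0 : ℝ)), x + y.1 • u + y.2 • v ∈ C := by
    have h2 := hc.tendsto ((0 : ℝ), (0 : ℝ))
    rw [h0] at h2
    exact h2.eventually (mem_interior_iff_mem_nhds.1 hx)
  obtain ⟨ε, hε, hb⟩ := Metric.eventually_nhds_iff.1 h1
  refine ⟨ε / 2, by positivity, fun r s hr hs => ?_⟩
  refine @hb (r, s) ?_
  rw [Prod.dist_eq]
  simp only [Real.dist_eq, sub_zero]
  exact max_lt (by linarith) (by linarith)

theorem seg_mem {C : Set P2} (hC : Convex ℝ C) {m u : P2} {r r' : ℝ} (hr : 0 < r) (h1 : m + r • u ∈ C)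
    (h2 : m - r • u ∈ C) (h : |r'| ≤ r) : m + r' • u ∈ C := by
  have h3 := abs_le.1 h
  have ha : 0 ≤ (1 + r' / r) / 2 := by
    have : -1 ≤ r' / r := by rw [le_div_iff₀ hr]; linarith
    linarith
  have hb : 0 ≤ (1 - r' / r) / 2 := by
    have : r' / r ≤ 1 := by rw [div_le_iff₀ hr]; linarith
    linarith
  have h4 := hC h1 h2 ha hb (by ring)
  convert h4 using 1
  have h5 : r' = (1 + r' / r) / 2 * r - (1 - r' / r) / 2 * r := by
    field_simp
    ring
  conv_lhs => rw [h5]
  module

theorem mx_w0 {C : Set P2} (hC : Convex ℝ C) {u v : P2} {p : Par} (hp : IsMx C u v p) (hv : 0 < val p) :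
    W0 u v p ∉ interior C := by
  intro hint
  obtain ⟨κ, hκ, hb⟩ := int_ball hint u v
  obtain ⟨c, s, t, a, h⟩ := p
  have hf := hp.1
  obtain ⟨ha0, hh0, w0, w1, w2, w3, w4, w5⟩ := hf
  simp only [W0, W1, W2, W3, W4, W5, val] at *
  have ha : 0 < a := by
    rcases ha0.lt_or_eq with h1 | h1
    · exact h1
    · rw [← h1, zero_mul] at hv; exact absurd hv (lt_irrefl _)
  have hh : 0 < h := by
    rcases hh0.lt_or_eq with h1 | h1
    · exact h1
    · rw [← h1, mul_zero] at hv; exact absurd hv (lt_irrefl _)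
  set e := κ / 2 with he
  have he0 : 0 < e := by positivity
  set σ := e / (a + 2 * e) with hσ
  have hσ0 : 0 < σ := by positivity
  have hσe : σ * (a + 2 * e) = e := by
    rw [hσ]; field_simp
  have hσ1 : σ < 1 := by
    rw [hσ, div_lt_one (by positivity)]
    linarith
  have q0 : c + (a + 2 * e) • u ∈ C := by
    have := hb (2 * e) 0 (by rw [abs_of_pos (by positivity)]; linarith) (by rw [abs_zero]; exact hκ.le)
    convert this using 1
    module
  have hnew : Feas C u v (c + e • u, (1 - σ) * (s - e), (1 - σ) * (t - e), a + e, (1 - σ) * h) := by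
    refine ⟨by positivity, mul_nonneg (by linarith) hh0, ?_, ?_, ?_, ?_, ?_, ?_⟩
    · convert q0 using 1
      simp only [W0]; module
    · convert hC w1 q0 (by linarith : 0 ≤ 1 - σ) hσ0.le (by ring) using 1
      simp only [W1]
      have hid : (1 - σ) * (s - e) + (a + e) / 2 + e = (1 - σ) * (s + a / 2) + σ * (a + 2 * e) := by
        linear_combination (-1 / 2) * hσe
      have : c + e • u + ((1 - σ) * h) • v + ((1 - σ) * (s - e) + (a + e) / 2) • u =
        c + ((1 - σ) * h) • v + ((1 - σ) * (s - e) + (a + e) / 2 + e) • u := by module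
      rw [this, hid]; module
    · convert hC w2 w3 (by linarith : 0 ≤ 1 - σ) hσ0.le (by ring) using 1
      simp only [W2]
      have hid : (1 - σ) * (s - e) - (a + e) / 2 + e = (1 - σ) * (s - a / 2) - σ * a := by
        linear_combination (1 / 2) * hσe
      have : c + e • u + ((1 - σ) * h) • v + ((1 - σ) * (s - e) - (a + e) / 2) • u =
        c + ((1 - σ) * h) • v + ((1 - σ) * (s - e) - (a + e) / 2 + e) • u := by module
      rw [this, hid]; module
    · convert w3 using 1
      simp only [W3]; module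
    · convert hC w4 w3 (by linarith : 0 ≤ 1 - σ) hσ0.le (by ring) using 1
      simp only [W4]
      have hid : (1 - σ) * (t - e) - (a + e) / 2 + e = (1 - σ) * (t - a / 2) - σ * a := by
        linear_combination (1 / 2) * hσe
      have : c + e • u - ((1 - σ) * h) • v + ((1 - σ) * (t - e) - (a + e) / 2) • u =
        c - ((1 - σ) * h) • v + ((1 - σ) * (t - e) - (a + e) / 2 + e) • u := by module
      rw [this, hid]; module
    · convert hC w5 q0 (by linarith : 0 ≤ 1 - σ) hσ0.le (by ring) using 1
      simp only [W5]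
      have hid : (1 - σ) * (t - e) + (a + e) / 2 + e = (1 - σ) * (t + a / 2) + σ * (a + 2 * e) := by
        linear_combination (-1 / 2) * hσe
      have : c + e • u - ((1 - σ) * h) • v + ((1 - σ) * (t - e) + (a + e) / 2) • u =
        c - ((1 - σ) * h) • v + ((1 - σ) * (t - e) + (a + e) / 2 + e) • u := by module
      rw [this, hid]; module
  have h1 := hp.2 _ hnew
  simp only [val] at h1
  have h2 : (a + e) * ((1 - σ) * h) = (a + e) * (1 - σ) * h := by ring
  rw [h2] at h1
  have h3 : (a + e) * (1 - σ) ≤ a := le_of_mul_le_mul_right h1 hh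
  -- (a + e) (1 - σ) = (a + e)^2 / (a + 2 e)
  have h4 : (a + e) * (1 - σ) * (a + 2 * e) = (a + e) ^ 2 := by
    linear_combination (-(a + e)) * hσe
  have h5 : (a + e) * (1 - σ) * (a + 2 * e) ≤ a * (a + 2 * e) :=
    mul_le_mul_of_nonneg_right h3 (by positivity)
  rw [h4] at h5
  nlinarith [sq_pos_of_pos he0]

theorem mx_w1 {C : Set P2} (hC : Convex ℝ C) {u v : P2} {p : Par} (hp : IsMx C u v p) (hv : 0 < val p) :
    W1 u v p ∉ interior C := by
  intro hint
  obtain ⟨κ, hκ, hb⟩ := int_ball hint u v
  obtain ⟨c, s, t, a, h⟩ := p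
  have hf := hp.1
  obtain ⟨ha0, hh0, w0, w1, w2, w3, w4, w5⟩ := hf
  simp only [W0, W1, W2, W3, W4, W5, val] at *
  have ha : 0 < a := by
    rcases ha0.lt_or_eq with h1 | h1
    · exact h1
    · rw [← h1, zero_mul] at hv; exact absurd hv (lt_irrefl _)
  have hh : 0 < h := by
    rcases hh0.lt_or_eq with h1 | h1
    · exact h1
    · rw [← h1, mul_zero] at hv; exact absurd hv (lt_irrefl _)
  -- η
  set η := min κ (κ * κ / a) with hη
  have hη0 : 0 < η := lt_min hκ (by positivity)
  have hηκ : η ≤ κ := min_le_left _ _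
  have hηa : η * a / κ ≤ κ := by
    rw [div_le_iff₀ hκ]
    have : η ≤ κ * κ / a := min_le_right _ _
    rwa [le_div_iff₀ ha] at this
  set ρ := η * a / κ with hρ
  have hρ0 : 0 < ρ := by positivity
  have hρκ : ρ * κ = η * a := by rw [hρ]; field_simp
  -- the raised top chord
  have tr : c + (h + η) • v + (s + a / 2 + ρ) • u ∈ C := by
    have := hb ρ η (by rw [abs_of_pos hρ0]; exact hηa) (by rw [abs_of_pos hη0]; exact hηκ)
    convert this using 1
    module
  have tl : c + (h + η) • v + (s - a / 2 + ρ) • u ∈ C := by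
    have h1 := hb 0 κ (by rw [abs_zero]; exact hκ.le) (by rw [abs_of_pos hκ])
    have h2 : 0 ≤ 1 - η / κ := by
      have : η / κ ≤ 1 := by rw [div_le_one hκ]; exact hηκ
      linarith
    have h3 := hC w2 h1 h2 (by positivity : 0 ≤ η / κ) (by ring)
    convert h3 using 1
    have e1 : η = η / κ * κ := by field_simp
    have e2 : ρ = η / κ * a := by rw [hρ]; ring
    have e3 : c + (h + η) • v + (s - a / 2 + ρ) • u =
      c + (h + η / κ * κ) • v + (s - a / 2 + η / κ * a) • u := by rw [← e1, ← e2]
    rw [e3]; module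
  set τ := (η / 2) / (h + η) with hτ
  have hτ0 : 0 < τ := by positivity
  have hτh : τ * (h + η) = η / 2 := by rw [hτ]; field_simp
  have hτ1 : τ < 1 := by
    rw [hτ, div_lt_one (by positivity)]
    linarith
  set a' := a * (1 - τ / 2) with ha'
  have ha'0 : 0 < a' := mul_pos ha (by linarith)
  have ha'a : a' ≤ a := by rw [ha']; nlinarith
  have hnew : Feas C u v (c + (η / 2) • v + (τ * (s + ρ)) • u, (s + ρ) * (1 - τ), t - τ * (s + ρ), a', h + η / 2) := by
    refine ⟨ha'0.le, by positivity, ?_, ?_, ?_, ?_, ?_, ?_⟩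
    · convert hC w0 tr (by linarith : 0 ≤ 1 - τ) hτ0.le (by ring) using 1
      simp only [W0]
      have e1 : (1 - τ) • (c + a • u) + τ • (c + (h + η) • v + (s + a / 2 + ρ) • u) =
        c + (τ * (h + η)) • v + (a * (1 - τ / 2) + τ * (s + ρ)) • u := by module
      rw [e1, hτh, ha']; module
    · -- W1'
      have h1 : |a' / 2| ≤ a / 2 := by rw [abs_of_pos (by positivity)]; linarith
      have h2 := seg_mem hC (m := c + (h + η) • v + (s + ρ) • u) (u := u) (r := a / 2) (by positivity)
        (by convert tr using 1; module) (by convert tl using 1; module) h1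
      convert h2 using 1
      simp only [W1]
      module
    · have h1 : |-(a' / 2)| ≤ a / 2 := by rw [abs_neg, abs_of_pos (by positivity)]; linarith
      have h2 := seg_mem hC (m := c + (h + η) • v + (s + ρ) • u) (u := u) (r := a / 2) (by positivity)
        (by convert tr using 1; module) (by convert tl using 1; module) h1
      convert h2 using 1
      simp only [W2]
      module
    · convert hC w3 tl (by linarith : 0 ≤ 1 - τ) hτ0.le (by ring) using 1
      simp only [W3]
      have e1 : (1 - τ) • (c - a • u) + τ • (c + (h + η) • v + (s - a / 2 + ρ) • u) =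
        c + (τ * (h + η)) • v + (-(a * (1 - τ / 2)) + τ * (s + ρ)) • u := by module
      rw [e1, hτh, ha']; module
    · have h1 : |-(a' / 2)| ≤ a / 2 := by rw [abs_neg, abs_of_pos (by positivity)]; linarith
      have h2 := seg_mem hC (m := c - h • v + t • u) (u := u) (r := a / 2) (by positivity)
        (by convert w5 using 1; module) (by convert w4 using 1; module) h1
      convert h2 using 1
      simp only [W4]
      module
    · have h1 : |a' / 2| ≤ a / 2 := by rw [abs_of_pos (by positivity)]; linarith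
      have h2 := seg_mem hC (m := c - h • v + t • u) (u := u) (r := a / 2) (by positivity)
        (by convert w5 using 1; module) (by convert w4 using 1; module) h1
      convert h2 using 1
      simp only [W5]
      module
  have h1 := hp.2 _ hnew
  simp only [val] at h1
  have h2 : (1 - τ / 2) * (h + η / 2) ≤ h := by
    rw [ha'] at h1
    have h3 : a * ((1 - τ / 2) * (h + η / 2)) ≤ a * h := by linarith
    exact le_of_mul_le_mul_left h3 ha
  -- h + η/2 - τ/2 (h + η/2) > h as τ/2 (h + η/2) < τ/2 (h + η) = η / 4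
  have h3 : τ / 2 * (h + η / 2) < τ / 2 * (h + η) := by
    apply mul_lt_mul_of_pos_left _ (by positivity)
    linarith
  have h4 : τ / 2 * (h + η) = η / 4 := by linear_combination (1 / 2) * hτh
  nlinarith

/-- all six vertices of a maximal hexagon are outside the interior -/
theorem mx_all {C : Set P2} (hC : Convex ℝ C) {u v : P2} {p : Par} (hp : IsMx C u v p) (hv : 0 < val p) :
    W0 u v p ∉ interior C ∧ W1 u v p ∉ interior C ∧ W2 u v p ∉ interior C ∧ W3 u v p ∉ interior C ∧
      W4 u v p ∉ interior C ∧ W5 u v p ∉ interior C := by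
  refine ⟨mx_w0 hC hp hv, mx_w1 hC hp hv, ?_, ?_, ?_, ?_⟩
  · have h := mx_w1 hC (mx_sy1 hp) (by rwa [val_sy1])
    convert h using 2
    simp only [W1, W2, sy1]; module
  · have h := mx_w0 hC (mx_sy1 hp) (by rwa [val_sy1])
    convert h using 2
    simp only [W0, W3, sy1]; module
  · have h := mx_w1 hC (mx_sy1 (mx_sy2 hp)) (by rwa [val_sy1, val_sy2])
    convert h using 2
    simp only [W1, W4, sy1, sy2]; module
  · have h := mx_w1 hC (mx_sy2 hp) (by rwa [val_sy2])
    convert h using 2
    simp only [W1, W5, sy2]; module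

end HCV
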