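import Pool.Agent.HCV.Hex1

/-!
# The sector lemma
-/

set_option autoImplicit false

open scoped Topology

namespace HCV

/-- the point `u` is not in the interior of `C`, in the form of a supporting line -/
def Out (C : Set P2) (u : P2) : Prop :=
  ∃ α β : ℝ, (α ≠ 0 ∨ β ≠ 0) ∧ ∀ y ∈ C, α * y.1 + β * y.2 ≤ α * u.1 + β * u.2

/-- the point `o` is strictly inside `C`, in the form of linear functionals -/
def Inn (C : Set P2) (o : P2) : Prop :=
  ∀ α β M : ℝ, (α ≠ 0 ∨ β ≠ 0) → (∀ y ∈ C, α * y.1 + β * y.2 ≤ M) → α * o.1 + β * o.2 < M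

theorem out_of_notMem {C : Set P2} (hC : Convex ℝ C) (hi : (interior C).Nonempty) {u : P2}
    (hu : u ∉ interior C) : Out C u := by
  obtain ⟨f, hf⟩ := geometric_hahn_banach_open_point hC.interior isOpen_interior hu
  have hf2 : ∀ y : P2, f y = f ((1 : ℝ), (0 : ℝ)) * y.1 + f ((0 : ℝ), (1 : ℝ)) * y.2 := by
    intro y
    have h1 : y = y.1 • ((1 : ℝ), (0 : ℝ)) + y.2 • ((0 : ℝ), (1 : ℝ)) := by
      ext <;> simp
    conv_lhs => rw [h1]
    rw [map_add, map_smul, map_smul, smul_eq_mul, smul_eq_mul]
    ring
  obtain ⟨z, hz⟩ := hi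
  refine ⟨f ((1 : ℝ), (0 : ℝ)), f ((0 : ℝ), (1 : ℝ)), ?_, ?_⟩
  · by_contra h
    push Not at h
    have h1 := hf z hz
    rw [hf2 z, hf2 u, h.1, h.2] at h1
    simp at h1
  · intro y hy
    rw [← hf2, ← hf2]
    have h1 : y ∈ closure (interior C) := by
      rw [hC.closure_interior_eq_closure_of_nonempty_interior ⟨z, hz⟩]
      exact subset_closure hy
    have h2 : IsClosed {x : P2 | f x ≤ f u} := isClosed_le f.continuous continuous_const
    exact closure_minimal (fun x hx => (hf x hx).le) h2 h1

/-- shadows -/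
theorem out_shadow {C : Set P2} {q s₁ s₂ u : P2} (hq : Out C q) (h1 : s₁ ∈ C) (h2 : s₂ ∈ C)
    {r t : ℝ} (hr : 0 ≤ r) (ht : 0 ≤ t) (hu : u = q + r • (q - s₁) + t • (q - s₂)) : Out C u := by
  obtain ⟨α, β, h0, h⟩ := hq
  refine ⟨α, β, h0, fun y hy => (h y hy).trans ?_⟩
  have a1 := mul_nonneg hr (sub_nonneg.2 (h s₁ h1))
  have a2 := mul_nonneg ht (sub_nonneg.2 (h s₂ h2))
  subst hu
  simp only [Prod.fst_add, Prod.snd_add, Prod.smul_fst, Prod.smul_snd, Prod.fst_sub, Prod.snd_sub, smul_eq_mul]
  linarith

/-- inner part of a sector -/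
theorem sec_inner {D0 D : Set P2} (hD0 : Convex ℝ D0) (hD : Convex ℝ D) {o u v : P2} {β β' α₁ α₂ : ℝ}
    (hβ : 0 ≤ β) (hβ' : 0 ≤ β')
    (o0 : o ∈ D0) (b0 : o + β • (u - o) ∈ D0) (b0' : o + β' • (v - o) ∈ D0)
    (hu : u ∈ D) (hv : v ∈ D) (hb : o + β • (u - o) ∈ D) (hb' : o + β' • (v - o) ∈ D)
    (h1 : 0 ≤ α₁) (h2 : 0 ≤ α₂) (hs : α₁ + α₂ ≤ 1) :
    o + α₁ • (u - o) + α₂ • (v - o) ∈ D0 ∨ o + α₁ • (u - o) + α₂ • (v - o) ∈ D := by
  set τ := α₁ + α₂ with hτ
  have hτ0 : 0 ≤ τ := add_nonneg h1 h2
  rcases hτ0.eq_or_lt with h0 | h0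
  · left
    have e1 : α₁ = 0 := by linarith
    have e2 : α₂ = 0 := by linarith
    rw [e1, e2]
    simpa using o0
  have hX : o + (α₁ / τ) • (u - o) + (α₂ / τ) • (v - o) ∈ D := by
    have h3 := hD hu hv (div_nonneg h1 hτ0) (div_nonneg h2 hτ0) (by rw [← add_div, ← hτ, div_self h0.ne'])
    convert h3 using 1
    have e : α₁ / τ = 1 - α₂ / τ := by
      field_simp
      linarith
    rw [e]; module
  set W := α₁ * β' + α₂ * β with hW
  have hW0 : 0 ≤ W := add_nonneg (mul_nonneg h1 hβ') (mul_nonneg h2 hβ)
  rcases hW0.eq_or_lt with hW1 | hW1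
  · have e1 : α₁ * β' = 0 := by
      have := mul_nonneg h1 hβ'
      have := mul_nonneg h2 hβ
      linarith
    have e2 : α₂ * β = 0 := by
      have := mul_nonneg h1 hβ'
      have := mul_nonneg h2 hβ
      linarith
    rcases mul_eq_zero.1 e1 with e3 | e3
    · -- α₁ = 0
      have hα2 : 0 < α₂ := by rw [hτ, e3] at h0; linarith
      have hβ0 : β = 0 := (mul_eq_zero.1 e2).resolve_left hα2.ne'
      rcases le_or_gt α₂ β' with hle | hlt
      · left
        have hβ'0 : 0 < β' := lt_of_lt_of_le hα2 hle
        have h3 := hD0 o0 b0' (a := 1 - α₂ / β') (b := α₂ / β') (by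
          have : α₂ / β' ≤ 1 := by rw [div_le_one hβ'0]; exact hle
          linarith) (by positivity) (by ring)
        convert h3 using 1
        have e4 : α₂ = α₂ / β' * β' := by field_simp
        rw [e3]
        conv_lhs => rw [e4]
        module
      · right
        have hα21 : α₂ ≤ 1 := by rw [hτ, e3] at hs; linarith
        have h3 := hD hb' hv (a := (1 - α₂) / (1 - β')) (b := (α₂ - β') / (1 - β'))
          (div_nonneg (by linarith) (by linarith)) (div_nonneg (by linarith) (by linarith))
          (by rw [← add_div, div_eq_one_iff_eq (by linarith)]; ring)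
        convert h3 using 1
        have e4 : α₂ = (1 - α₂) / (1 - β') * β' + (α₂ - β') / (1 - β') := by
          have : 1 - β' ≠ 0 := by linarith
          field_simp
          ring
        have e5 : (1 - α₂) / (1 - β') = 1 - (α₂ - β') / (1 - β') := by
          have : 1 - β' ≠ 0 := by linarith
          field_simp
          ring
        rw [e3]
        conv_lhs => rw [e4]
        rw [e5]
        module
    · rcases mul_eq_zero.1 e2 with e4 | e4
      · -- α₂ = 0, β' = 0
        have hα1 : 0 < α₁ := by rw [hτ, e4] at h0; linarith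
        rcases le_or_gt α₁ β with hle | hlt
        · left
          have hβ0 : 0 < β := lt_of_lt_of_le hα1 hle
          have h3 := hD0 o0 b0 (a := 1 - α₁ / β) (b := α₁ / β) (by
            have : α₁ / β ≤ 1 := by rw [div_le_one hβ0]; exact hle
            linarith) (by positivity) (by ring)
          convert h3 using 1
          have e5 : α₁ = α₁ / β * β := by field_simp
          rw [e4]
          conv_lhs => rw [e5]
          module
        · right
          have hα11 : α₁ ≤ 1 := by rw [hτ, e4] at hs; linarith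
          have h3 := hD hb hu (a := (1 - α₁) / (1 - β)) (b := (α₁ - β) / (1 - β))
            (div_nonneg (by linarith) (by linarith)) (div_nonneg (by linarith) (by linarith))
            (by rw [← add_div, div_eq_one_iff_eq (by linarith)]; ring)
          convert h3 using 1
          have e5 : α₁ = (1 - α₁) / (1 - β) * β + (α₁ - β) / (1 - β) := by
            have : 1 - β ≠ 0 := by linarith
            field_simp
            ring
          have e6 : (1 - α₁) / (1 - β) = 1 - (α₁ - β) / (1 - β) := by
            have : 1 - β ≠ 0 := by linarith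
            field_simp
            ring
          rw [e4]
          conv_lhs => rw [e5]
          rw [e6]
          module
      · -- β = β' = 0
        right
        rw [e4, zero_smul, add_zero] at hb
        have h3 := hD hb hX (a := 1 - τ) (b := τ) (by linarith) h0.le (by ring)
        convert h3 using 1
        have e5 : α₁ = τ * (α₁ / τ) := by field_simp
        have e6 : α₂ = τ * (α₂ / τ) := by field_simp
        conv_lhs => rw [e5, e6]
        module
  · -- W > 0
    set η := β * β' * τ / W with hη
    have hY : ∀ E : Set P2, Convex ℝ E → o + β • (u - o) ∈ E → o + β' • (v - o) ∈ E →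
        o + (η * (α₁ / τ)) • (u - o) + (η * (α₂ / τ)) • (v - o) ∈ E := by
      intro E hE k1 k2
      have h3 := hE k1 k2 (a := α₁ * β' / W) (b := α₂ * β / W) (by positivity) (by positivity)
        (by rw [← add_div, ← hW, div_self hW1.ne'])
      convert h3 using 1
      have e1 : η * (α₁ / τ) = α₁ * β' / W * β := by rw [hη]; field_simp
      have e2 : η * (α₂ / τ) = α₂ * β / W * β' := by rw [hη]; field_simp
      have e3 : α₁ * β' / W = 1 - α₂ * β / W := by
        rw [eq_sub_iff_add_eq, ← add_div, ← hW, div_self hW1.ne']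
      rw [e1, e2, e3]
      module
    rcases le_or_gt τ η with hle | hlt
    · left
      have hη0 : 0 < η := lt_of_lt_of_le h0 hle
      have h3 := hD0 o0 (hY D0 hD0 b0 b0') (a := 1 - τ / η) (b := τ / η) (by
        have : τ / η ≤ 1 := by rw [div_le_one hη0]; exact hle
        linarith) (by positivity) (by ring)
      convert h3 using 1
      have e1 : α₁ = τ / η * (η * (α₁ / τ)) := by field_simp
      have e2 : α₂ = τ / η * (η * (α₂ / τ)) := by field_simp
      conv_lhs => rw [e1, e2]
      module
    · right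
      have hη1 : 0 < 1 - η := by linarith
      have h3 := hD (hY D hD hb hb') hX (a := (1 - τ) / (1 - η)) (b := (τ - η) / (1 - η))
        (div_nonneg (by linarith) hη1.le) (div_nonneg (by linarith) hη1.le)
        (by rw [← add_div, div_eq_one_iff_eq hη1.ne']; ring)
      convert h3 using 1
      have e0 : (1 - τ) / (1 - η) * η + (τ - η) / (1 - η) = τ := by
        field_simp
        ring
      have e1 : α₁ = (1 - τ) / (1 - η) * (η * (α₁ / τ)) + (τ - η) / (1 - η) * (α₁ / τ) := by
        calc α₁ = τ * (α₁ / τ) := by field_simp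
          _ = ((1 - τ) / (1 - η) * η + (τ - η) / (1 - η)) * (α₁ / τ) := by rw [e0]
          _ = _ := by ring
      have e2 : α₂ = (1 - τ) / (1 - η) * (η * (α₂ / τ)) + (τ - η) / (1 - η) * (α₂ / τ) := by
        calc α₂ = τ * (α₂ / τ) := by field_simp
          _ = ((1 - τ) / (1 - η) * η + (τ - η) / (1 - η)) * (α₂ / τ) := by rw [e0]
          _ = _ := by ring
      have e3 : (1 - τ) / (1 - η) = 1 - (τ - η) / (1 - η) := by
        field_simp
        ring
      conv_lhs => rw [e1, e2]
      rw [e3]
      module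

end HCV
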