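import Pool.Agent.HCV.Sec

/-!
# The sector lemma, outer part
-/

set_option autoImplicit false

namespace HCV

/-- cross product -/
def cr (x y : P2) : ℝ := x.1 * y.2 - x.2 * y.1

theorem alg1 {o u v s κ α₁ α₂ G γ Δ A σ : ℝ} (hΔ : Δ ≠ 0) (hg : G + γ ≠ 0) (hγ : γ = Δ * (α₁ + α₂ - 1))
    (hu : (κ * u + s - u) * Δ = (A * Δ) * (v - u) + G * (o - u)) (hσ : σ * (G + γ) = G * α₂ + γ * A) :
    u + σ * (v - u) = G / (G + γ) * (o + α₁ * (u - o) + α₂ * (v - o)) + γ / (G + γ) * (κ * u + s) := by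
  have e : G / (G + γ) * (o + α₁ * (u - o) + α₂ * (v - o)) + γ / (G + γ) * (κ * u + s) =
      (G * (o + α₁ * (u - o) + α₂ * (v - o)) + γ * (κ * u + s)) / (G + γ) := by
    rw [div_mul_eq_mul_div, div_mul_eq_mul_div, add_div]
  rw [e, eq_div_iff hg]
  apply mul_right_cancel₀ hΔ
  linear_combination ((v - u) * Δ) * hσ - γ * hu + (G * (u - o)) * hγ

theorem alg2 {o u v s κ α₁ α₂ G γ Δ A σ μ : ℝ} (hΔ : Δ ≠ 0) (hg : G + γ ≠ 0) (hγ : γ = Δ * (α₁ + α₂ - 1))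
    (hu : (κ * u + s - u) * Δ = (A * Δ) * (v - u) + G * (o - u)) (hσ : σ * (G + γ) = G * α₂ + γ * A)
    (hμ : μ * (G + γ) = κ * γ) :
    u + (σ + μ) * (v - u) = G / (G + γ) * (o + α₁ * (u - o) + α₂ * (v - o)) + γ / (G + γ) * (κ * v + s) := by
  have e : G / (G + γ) * (o + α₁ * (u - o) + α₂ * (v - o)) + γ / (G + γ) * (κ * v + s) =
      (G * (o + α₁ * (u - o) + α₂ * (v - o)) + γ * (κ * v + s)) / (G + γ) := by
    rw [div_mul_eq_mul_div, div_mul_eq_mul_div, add_div]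
  rw [e, eq_div_iff hg]
  apply mul_right_cancel₀ hΔ
  linear_combination ((v - u) * Δ) * hσ - γ * hu + (G * (u - o)) * hγ + ((v - u) * Δ) * hμ

theorem alg3 {o u v s κ α₁ α₂ G γ Δ A σ μ : ℝ} (hΔ : Δ ≠ 0) (hg : G + γ ≠ 0) (hγ : γ = Δ * (α₁ + α₂ - 1))
    (hu : (κ * u + s - u) * Δ = (A * Δ) * (v - u) + G * (o - u)) (hσ : σ * (G + γ) = G * α₂ + γ * A)
    (hμ : μ * (G + γ) = κ * γ) :
    κ * (o + α₁ * (u - o) + α₂ * (v - o)) + s = μ * (o + α₁ * (u - o) + α₂ * (v - o)) +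
      (1 - μ - σ) * (κ * u + s) + σ * (κ * v + s) := by
  apply mul_right_cancel₀ hΔ
  apply mul_right_cancel₀ hg
  linear_combination ((-((o + α₁ * (u - o) + α₂ * (v - o)) - u) + (κ * u + s - u)) * Δ) * hμ + (κ * γ) * hu -
    (κ * (v - u) * Δ) * hσ + (κ * G * (o - u)) * hγ

/-- sign argument at `u` -/
theorem sgn1 {φu φo E σ p2 α₁ α₂ : ℝ} (h0 : φo < φu) (k1 : φu + σ * E ≤ φu) (k2 : φu + p2 * E ≤ φu) (hp : 0 < p2)
    (h2 : 0 ≤ α₂) (hs : 1 < α₁ + α₂) (hx : (α₁ + α₂ - 1) * (φu - φo) + α₂ * E ≤ 0) : 0 ≤ σ := by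
  by_contra hneg
  push Not at hneg
  have k1' : σ * E ≤ 0 := by linarith
  have k2' : p2 * E ≤ 0 := by linarith
  have hE1 : 0 ≤ E := by
    by_contra h
    push Not at h
    exact absurd k1' (not_le.2 (mul_pos_of_neg_of_neg hneg h))
  have k4 : 0 < (α₁ + α₂ - 1) * (φu - φo) := mul_pos (by linarith) (by linarith)
  have k5 := mul_nonneg h2 hE1
  linarith

/-- sign argument at `v` -/
theorem sgn2 {φv φo E τ p2 α₁ α₂ : ℝ} (h0 : φo < φv) (k1 : φv + (τ - 1) * E ≤ φv) (h1 : 0 ≤ α₁)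
    (hs : 1 < α₁ + α₂) (hx : (α₁ + α₂ - 1) * (φv - φo) - α₁ * E ≤ 0) : τ ≤ 1 := by
  by_contra hneg
  push Not at hneg
  have k1' : (τ - 1) * E ≤ 0 := by linarith
  have hE1 : E ≤ 0 := by
    by_contra h
    push Not at h
    exact absurd k1' (not_le.2 (mul_pos (by linarith) h))
  have k4 : 0 < (α₁ + α₂ - 1) * (φv - φo) := mul_pos (by linarith) (by linarith)
  have k5 := mul_nonpos_of_nonneg_of_nonpos h1 hE1
  linarith

theorem conv3 {C : Set P2} (hC : Convex ℝ C) {x y z : P2} (hx : x ∈ C) (hy : y ∈ C) (hz : z ∈ C) {a b c : ℝ}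
    (ha : 0 ≤ a) (hb : 0 ≤ b) (hc : 0 ≤ c) (h : a + b + c = 1) : a • x + b • y + c • z ∈ C := by
  have := hC.sum_mem (t := (Finset.univ : Finset (Fin 3))) (w := ![a, b, c]) (z := ![x, y, z]) (by
      intro i _
      fin_cases i
      · exact ha
      · exact hb
      · exact hc) (by
      simp only [Fin.sum_univ_three, Matrix.cons_val_zero, Matrix.cons_val_one, Matrix.cons_val]
      exact h) (by
      intro i _
      fin_cases i
      · exact hx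
      · exact hy
      · exact hz)
  simpa only [Fin.sum_univ_three, Matrix.cons_val_zero, Matrix.cons_val_one, Matrix.cons_val] using this

/-- outer part of a sector: `u`, `v` are not interior, `C` contains `κ u + s`, `κ v + s`, on the inner side of the
line through `u` and `v` -/
theorem sec_outer {C : Set P2} (hC : Convex ℝ C) {o u v s : P2} {κ α₁ α₂ : ℝ} (hκ : 0 < κ)
    (ho : o ∈ C) (hInn : Inn C o) (hu : Out C u) (hv : Out C v) (hor : 0 < cr (u - o) (v - o))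
    (hTu : κ • u + s ∈ C) (hTv : κ • v + s ∈ C) (hcap : 0 ≤ cr (v - u) (κ • u + s - u))
    (h1 : 0 ≤ α₁) (h2 : 0 ≤ α₂) (hs : 1 < α₁ + α₂) (hx : o + α₁ • (u - o) + α₂ • (v - o) ∈ C) :
    κ • (o + α₁ • (u - o) + α₂ • (v - o)) + s ∈ C := by
  obtain ⟨a, b, hab, hφ⟩ := hu
  obtain ⟨a', b', hab', hψ⟩ := hv
  have hφo := hInn a b _ hab hφ
  have hψo := hInn a' b' _ hab' hψ
  obtain ⟨o1, o2⟩ := o
  obtain ⟨u1, u2⟩ := u
  obtain ⟨v1, v2⟩ := v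
  obtain ⟨s1, s2⟩ := s
  simp only [cr, Prod.fst_add, Prod.snd_add, Prod.smul_fst, Prod.smul_snd, Prod.fst_sub, Prod.snd_sub, smul_eq_mul]
    at *
  have hφx := hφ _ hx
  have hψx := hψ _ hx
  simp only [Prod.fst_add, Prod.snd_add, Prod.smul_fst, Prod.smul_snd, Prod.fst_sub, Prod.snd_sub, smul_eq_mul]
    at hφx hψx
  obtain ⟨Δ, hΔ⟩ : ∃ Δ, Δ = (u1 - o1) * (v2 - o2) - (u2 - o2) * (v1 - o1) := ⟨_, rfl⟩
  obtain ⟨γ, hγ⟩ : ∃ γ, γ = Δ * (α₁ + α₂ - 1) := ⟨_, rfl⟩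
  rw [← hΔ] at hor
  have hγ0 : 0 < γ := by rw [hγ]; exact mul_pos hor (by linarith)
  obtain ⟨G, hG⟩ : ∃ G, G = (v1 - u1) * (κ * u2 + s2 - u2) - (v2 - u2) * (κ * u1 + s1 - u1) := ⟨_, rfl⟩
  rw [← hG] at hcap
  have hGγ : 0 < G + γ := by linarith
  obtain ⟨A, hAΔ⟩ : ∃ A, A * Δ = (κ * u1 + s1 - u1) * (o2 - u2) - (κ * u2 + s2 - u2) * (o1 - u1) :=
    ⟨((κ * u1 + s1 - u1) * (o2 - u2) - (κ * u2 + s2 - u2) * (o1 - u1)) / Δ, div_mul_cancel₀ _ hor.ne'⟩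
  have hu'1 : (κ * u1 + s1 - u1) * Δ = (A * Δ) * (v1 - u1) + G * (o1 - u1) := by
    rw [hAΔ, hG, hΔ]; ring
  have hu'2 : (κ * u2 + s2 - u2) * Δ = (A * Δ) * (v2 - u2) + G * (o2 - u2) := by
    rw [hAΔ, hG, hΔ]; ring
  clear hAΔ hΔ hG
  obtain ⟨μ, hμ⟩ : ∃ μ, μ = κ * γ / (G + γ) := ⟨_, rfl⟩
  have hμ' : μ * (G + γ) = κ * γ := by rw [hμ, div_mul_cancel₀ _ hGγ.ne']
  have hμ0 : 0 ≤ μ := by rw [hμ]; positivity
  clear hμ
  obtain ⟨σ, hσ⟩ : ∃ σ, σ = (G * α₂ + γ * A) / (G + γ) := ⟨_, rfl⟩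
  have hσ' : σ * (G + γ) = G * α₂ + γ * A := by rw [hσ, div_mul_cancel₀ _ hGγ.ne']
  clear hσ
  have hτ : 0 < α₁ + α₂ := by linarith
  -- X2 = u + p2 e
  have hX2 : ((u1 + α₂ / (α₁ + α₂) * (v1 - u1), u2 + α₂ / (α₁ + α₂) * (v2 - u2)) : P2) ∈ C := by
    have h3 := hC ho hx (a := 1 - 1 / (α₁ + α₂)) (b := 1 / (α₁ + α₂)) (by
      have : 1 / (α₁ + α₂) ≤ 1 := by rw [div_le_one hτ]; linarith
      linarith) (by positivity) (by ring)
    have e1 : α₂ / (α₁ + α₂) = 1 / (α₁ + α₂) * α₂ := by ring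
    have e2 : 1 / (α₁ + α₂) * (α₁ + α₂) = 1 := by field_simp
    convert h3 using 1
    ext
    · simp only [Prod.fst_add, Prod.snd_add, Prod.smul_fst, Prod.smul_snd, Prod.fst_sub, Prod.snd_sub, smul_eq_mul]
      rw [e1]; linear_combination (o1 - u1) * e2
    · simp only [Prod.fst_add, Prod.snd_add, Prod.smul_fst, Prod.smul_snd, Prod.fst_sub, Prod.snd_sub, smul_eq_mul]
      rw [e1]; linear_combination (o2 - u2) * e2
  -- j1 = u + σ e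
  have hj1 : ((u1 + σ * (v1 - u1), u2 + σ * (v2 - u2)) : P2) ∈ C := by
    have h3 := hC hx hTu (a := G / (G + γ)) (b := γ / (G + γ)) (div_nonneg hcap hGγ.le) (div_nonneg hγ0.le hGγ.le)
      (by rw [← add_div, div_self hGγ.ne'])
    convert h3 using 1
    ext
    · exact alg1 hor.ne' hGγ.ne' hγ hu'1 hσ'
    · exact alg1 hor.ne' hGγ.ne' hγ hu'2 hσ'
  -- j2 = u + (σ + μ) e
  have hj2 : ((u1 + (σ + μ) * (v1 - u1), u2 + (σ + μ) * (v2 - u2)) : P2) ∈ C := by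
    have h3 := hC hx hTv (a := G / (G + γ)) (b := γ / (G + γ)) (div_nonneg hcap hGγ.le) (div_nonneg hγ0.le hGγ.le)
      (by rw [← add_div, div_self hGγ.ne'])
    convert h3 using 1
    ext
    · exact alg2 hor.ne' hGγ.ne' hγ hu'1 hσ' hμ'
    · exact alg2 hor.ne' hGγ.ne' hγ hu'2 hσ' hμ'
  -- α₂ > 0
  have hα2 : 0 < α₂ := by
    rcases h2.lt_or_eq with h | h
    · exact h
    · exfalso
      rw [← h] at hs hφx
      have h3 : 0 < (α₁ - 1) * (a * u1 + b * u2 - (a * o1 + b * o2)) := mul_pos (by linarith) (by linarith)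
      have h4 : a * (o1 + α₁ * (u1 - o1) + 0 * (v1 - o1)) + b * (o2 + α₁ * (u2 - o2) + 0 * (v2 - o2)) -
        (a * u1 + b * u2) = (α₁ - 1) * (a * u1 + b * u2 - (a * o1 + b * o2)) := by ring
      linarith
  have hp2 : 0 < α₂ / (α₁ + α₂) := div_pos hα2 hτ
  -- σ ≥ 0
  have hσ0 : 0 ≤ σ := by
    have k1 := hφ _ hj1
    have k2 := hφ _ hX2
    simp only at k1 k2
    refine sgn1 (φu := a * u1 + b * u2) (φo := a * o1 + b * o2) (E := a * (v1 - u1) + b * (v2 - u2))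
      (p2 := α₂ / (α₁ + α₂)) (α₁ := α₁) (α₂ := α₂) hφo ?_ ?_ hp2 h2 hs ?_
    · calc a * u1 + b * u2 + σ * (a * (v1 - u1) + b * (v2 - u2)) =
        a * (u1 + σ * (v1 - u1)) + b * (u2 + σ * (v2 - u2)) := by ring
        _ ≤ _ := k1
    · calc a * u1 + b * u2 + α₂ / (α₁ + α₂) * (a * (v1 - u1) + b * (v2 - u2)) =
        a * (u1 + α₂ / (α₁ + α₂) * (v1 - u1)) + b * (u2 + α₂ / (α₁ + α₂) * (v2 - u2)) := by ring
        _ ≤ _ := k2
    · have e : (α₁ + α₂ - 1) * (a * u1 + b * u2 - (a * o1 + b * o2)) + α₂ * (a * (v1 - u1) + b * (v2 - u2)) =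
        a * (o1 + α₁ * (u1 - o1) + α₂ * (v1 - o1)) + b * (o2 + α₁ * (u2 - o2) + α₂ * (v2 - o2)) -
        (a * u1 + b * u2) := by ring
      rw [e]
      exact sub_nonpos.2 hφx
  have hσμ : σ + μ ≤ 1 := by
    have k1 := hψ _ hj2
    simp only at k1
    refine sgn2 (φv := a' * v1 + b' * v2) (φo := a' * o1 + b' * o2) (E := a' * (v1 - u1) + b' * (v2 - u2))
      (p2 := 0) (α₁ := α₁) (α₂ := α₂) hψo ?_ h1 hs ?_
    · calc a' * v1 + b' * v2 + (σ + μ - 1) * (a' * (v1 - u1) + b' * (v2 - u2)) =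
        a' * (u1 + (σ + μ) * (v1 - u1)) + b' * (u2 + (σ + μ) * (v2 - u2)) := by ring
        _ ≤ _ := k1
    · have e : (α₁ + α₂ - 1) * (a' * v1 + b' * v2 - (a' * o1 + b' * o2)) - α₁ * (a' * (v1 - u1) + b' * (v2 - u2)) =
        a' * (o1 + α₁ * (u1 - o1) + α₂ * (v1 - o1)) + b' * (o2 + α₁ * (u2 - o2) + α₂ * (v2 - o2)) -
        (a' * v1 + b' * v2) := by ring
      rw [e]
      exact sub_nonpos.2 hψx
  -- conclusion
  have hfin := conv3 hC hx hTu hTv hμ0 (show 0 ≤ 1 - μ - σ by linarith) hσ0 (by ring)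
  convert hfin using 1
  ext
  · exact alg3 hor.ne' hGγ.ne' hγ hu'1 hσ' hμ'
  · exact alg3 hor.ne' hGγ.ne' hγ hu'2 hσ' hμ'

end HCV
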